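import Mathlib

set_option autoImplicit false

namespace Pool.Agent.H75

open MvPolynomial

/-- Index set of the creation operators: a letter and `k`, for the mode `-(k+1)`. -/
abbrev Idx := Bool × ℕ

/-- The underlying space of the rank two Heisenberg vertex operator algebra. -/
abbrev V := MvPolynomial Idx ℚ

/-- annihilation operators -/
noncomputable def an (b : Bool) (i : ℕ) : V →ₗ[ℚ] V :=
  (i : ℚ) • ((pderiv (!b, i - 1) : Derivation ℚ V V) : V →ₗ[ℚ] V)

/-- The Heisenberg modes. -/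
noncomputable def h (b : Bool) (p : ℤ) : V →ₗ[ℚ] V :=
  if p < 0 then LinearMap.mulLeft ℚ (X (b, (-p - 1).toNat)) else an b p.toNat

theorem h_neg (b : Bool) (l : ℕ) (v : V) : h b (-(l + 1 : ℤ)) v = X (b, l) * v := by
  have h1 : (-(l + 1 : ℤ)) < 0 := by omega
  have h2 : (-(-(l + 1 : ℤ)) - 1).toNat = l := by omega
  rw [h, if_pos h1, h2]
  rfl

theorem h_nat (b : Bool) (i : ℕ) : h b (i : ℤ) = an b i := by
  have : ¬ ((i : ℤ) < 0) := by omega
  simp [h, this]

theorem an_apply (b : Bool) (i : ℕ) (v : V) : an b i v = (i : ℚ) • pderiv (!b, i - 1) v := rfl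

theorem an_zero (b : Bool) : an b 0 = 0 := by simp [an]

theorem h_zero (b : Bool) : h b 0 = 0 := by
  have := h_nat b 0
  simpa [an_zero] using this

theorem an_mul (b : Bool) (i : ℕ) (u v : V) : an b i (u * v) = u * an b i v + an b i u * v := by
  simp only [an_apply, Derivation.leibniz, smul_eq_mul]
  rw [smul_add, mul_smul_comm, smul_mul_assoc, mul_comm v]

theorem an_X (b c : Bool) (i l : ℕ) :
    an b i (X (c, l)) = (if c = !b ∧ i = l + 1 then (i : ℚ) else 0) • (1 : V) := by
  rcases i with _ | i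
  · simp [an]
  · simp only [an_apply, pderiv_X, Pi.single_apply, Prod.mk.injEq, Nat.add_sub_cancel]
    by_cases h1 : c = !b
    · by_cases h2 : i = l
      · subst h1 h2; simp
      · have : ¬ (l = i) := fun h => h2 h.symm
        simp [h1, h2, this]
    · simp [h1]

theorem an_one (b : Bool) (i : ℕ) : an b i 1 = 0 := by
  simp [an_apply]

theorem an_C (b : Bool) (i : ℕ) (r : ℚ) : an b i (C r) = 0 := by
  simp [an_apply]

theorem an_comm (b c : Bool) (i j : ℕ) (v : V) : an b i (an c j v) = an c j (an b i v) := by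
  simp only [an_apply, map_smul]
  rw [smul_comm]
  congr 2
  have : (⁅(pderiv (!b, i - 1) : Derivation ℚ V V), (pderiv (!c, j - 1) : Derivation ℚ V V)⁆ : Derivation ℚ V V) = 0 := by
    apply MvPolynomial.derivation_ext
    intro k
    simp [Derivation.commutator_apply, pderiv_X, Pi.single_apply]
    split_ifs <;> simp
  have h2 := congrArg (fun D : Derivation ℚ V V => D v) this
  simp only [Derivation.commutator_apply, Derivation.coe_zero, Pi.zero_apply] at h2
  exact sub_eq_zero.mp h2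

theorem bool_swap (b c : Bool) : (b = !c) ↔ (c = !b) := by cases b <;> cases c <;> simp

theorem an_X_mul (b c : Bool) (i l : ℕ) (v : V) :
    an b i (X (c, l) * v) = X (c, l) * an b i v +
      (if c = !b ∧ i = l + 1 then (i : ℚ) else 0) • v := by
  rw [an_mul, an_X, smul_mul_assoc, one_mul]

/-- basic commutation relation -/
theorem h_comm (b c : Bool) (p q : ℤ) (v : V) :
    h b p (h c q v) = h c q (h b p v) + (if c = !b ∧ p + q = 0 then (p : ℚ) else 0) • v := by
  rcases lt_or_ge p 0 with hp | hp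
  · obtain ⟨k, rfl⟩ : ∃ k : ℕ, p = -(k + 1 : ℤ) := ⟨(-p - 1).toNat, by omega⟩
    rcases lt_or_ge q 0 with hq | hq
    · obtain ⟨l, rfl⟩ : ∃ k : ℕ, q = -(k + 1 : ℤ) := ⟨(-q - 1).toNat, by omega⟩
      have : ¬ (-(k + 1 : ℤ) + -(l + 1 : ℤ) = 0) := by omega
      simp only [h_neg, this, and_false, if_false, zero_smul, add_zero]
      ring
    · obtain ⟨j, rfl⟩ : ∃ j : ℕ, q = (j : ℤ) := ⟨q.toNat, by omega⟩
      rw [h_neg, h_neg, h_nat, an_X_mul, add_assoc, ← add_smul]
      have : (if b = !c ∧ j = k + 1 then (j : ℚ) else 0) +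
        (if c = !b ∧ -(k + 1 : ℤ) + (j : ℤ) = 0 then ((-(k + 1 : ℤ) : ℤ) : ℚ) else 0) = 0 := by
        by_cases h1 : c = !b
        · by_cases h2 : j = k + 1
          · subst h2
            have h3 : (-(k + 1 : ℤ) + ((k + 1 : ℕ) : ℤ) = 0) := by push_cast; ring
            rw [if_pos ⟨(bool_swap b c).mpr h1, rfl⟩, if_pos ⟨h1, h3⟩]
            push_cast; ring
          · have h3 : ¬ (-(k + 1 : ℤ) + (j : ℤ) = 0) := by omega
            rw [if_neg (fun hh => h2 hh.2), if_neg (fun hh => h3 hh.2), add_zero]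
        · rw [if_neg (fun hh => h1 ((bool_swap b c).mp hh.1)), if_neg (fun hh => h1 hh.1), add_zero]
      rw [this, zero_smul, add_zero]
  · obtain ⟨i, rfl⟩ : ∃ j : ℕ, p = (j : ℤ) := ⟨p.toNat, by omega⟩
    rcases lt_or_ge q 0 with hq | hq
    · obtain ⟨l, rfl⟩ : ∃ k : ℕ, q = -(k + 1 : ℤ) := ⟨(-q - 1).toNat, by omega⟩
      rw [h_neg, h_neg, h_nat, an_X_mul]
      congr 2
      have : ((i : ℤ) + -(l + 1 : ℤ) = 0) ↔ (i = l + 1) := by omega
      simp only [this, Int.cast_natCast]
    · obtain ⟨j, rfl⟩ : ∃ j : ℕ, q = (j : ℤ) := ⟨q.toNat, by omega⟩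
      rw [h_nat, h_nat, an_comm]
      have : (if c = !b ∧ (i : ℤ) + (j : ℤ) = 0 then (((i : ℤ)) : ℚ) else 0) = 0 := by
        split_ifs with hh
        · have : i = 0 := by omega
          simp [this]
        · rfl
      rw [this, zero_smul, add_zero]

/-- Translation operator. -/
noncomputable def T : Derivation ℚ V V :=
  mkDerivation ℚ (fun k : Idx => ((k.2 + 1 : ℕ) : ℚ) • (X (k.1, k.2 + 1) : V))

theorem T_X (b : Bool) (k : ℕ) : T (X (b, k)) = ((k + 1 : ℕ) : ℚ) • (X (b, k + 1) : V) := by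
  simp [T, mkDerivation_X]

theorem T_X_mul (b : Bool) (k : ℕ) (v : V) :
    T (X (b, k) * v) = ((k + 1 : ℕ) : ℚ) • (X (b, k + 1) * v) + X (b, k) * T v := by
  rw [Derivation.leibniz, T_X, smul_eq_mul, smul_eq_mul, mul_smul_comm, mul_comm v, add_comm]

theorem pderiv_T_zero (b : Bool) (v : V) : pderiv (b, 0) (T v) = T (pderiv (b, 0) v) := by
  have : (⁅(pderiv (b, 0) : Derivation ℚ V V), T⁆ : Derivation ℚ V V) = 0 := by
    apply MvPolynomial.derivation_ext
    rintro ⟨c, k⟩
    rw [Derivation.commutator_apply, T_X]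
    simp [pderiv_X, Pi.single_apply]
    split_ifs <;> simp
  have h2 := congrArg (fun D : Derivation ℚ V V => D v) this
  simp only [Derivation.commutator_apply, Derivation.coe_zero, Pi.zero_apply] at h2
  exact sub_eq_zero.mp h2

theorem pderiv_T_succ (b : Bool) (i : ℕ) (v : V) :
    pderiv (b, i + 1) (T v) = T (pderiv (b, i + 1) v) + ((i + 1 : ℕ) : ℚ) • pderiv (b, i) v := by
  have : (⁅(pderiv (b, i + 1) : Derivation ℚ V V), T⁆ : Derivation ℚ V V) =
      ((i + 1 : ℕ) : ℚ) • (pderiv (b, i) : Derivation ℚ V V) := by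
    apply MvPolynomial.derivation_ext
    rintro ⟨c, k⟩
    rw [Derivation.commutator_apply, T_X]
    simp only [Derivation.map_smul, pderiv_X, Pi.single_apply, Prod.mk.injEq, Derivation.coe_smul,
      Pi.smul_apply]
    by_cases h1 : c = b
    · by_cases h2 : k = i
      · subst h1 h2; simp
      · have h3 : ¬ (k + 1 = i + 1) := by omega
        have h4 : T (if c = b ∧ k = i + 1 then (1 : V) else 0) = 0 := by split_ifs <;> simp
        simp only [h2, h3, and_false, if_false, h4]
        simp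
    · simp [h1]
  have h2 := congrArg (fun D : Derivation ℚ V V => D v) this
  simp only [Derivation.commutator_apply, Derivation.coe_smul, Pi.smul_apply] at h2
  rw [← h2]; ring

theorem an_T (b : Bool) (i : ℕ) (v : V) :
    an b i (T v) = T (an b i v) + (i : ℚ) • h b ((i : ℤ) - 1) v := by
  rcases i with _ | i
  · simp [an_zero]
  · have h1 : (((i + 1 : ℕ) : ℤ) - 1) = (i : ℤ) := by push_cast; ring
    rw [h1, h_nat]
    rcases i with _ | i
    · simp only [an_apply, Nat.zero_add, Nat.sub_self, pderiv_T_zero]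
      simp
    · simp only [an_apply, Derivation.map_smul, Nat.add_sub_cancel, pderiv_T_succ, smul_add]

theorem h_T (b : Bool) (p : ℤ) (v : V) :
    h b p (T v) = T (h b p v) + (p : ℚ) • h b (p - 1) v := by
  rcases lt_or_ge p 0 with hp | hp
  · obtain ⟨k, rfl⟩ : ∃ k : ℕ, p = -(k + 1 : ℤ) := ⟨(-p - 1).toNat, by omega⟩
    have : (-(k + 1 : ℤ) - 1) = -(((k + 1 : ℕ) : ℤ) + 1) := by push_cast; ring
    rw [this, h_neg, h_neg, h_neg, T_X_mul]
    push_cast
    rw [add_comm, ← add_assoc, ← add_smul]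
    simp
  · obtain ⟨i, rfl⟩ : ∃ j : ℕ, p = (j : ℤ) := ⟨p.toNat, by omega⟩
    rw [h_nat, an_T]
    simp

theorem T_one : T (1 : V) = 0 := by simp

theorem h_nonneg_one (b : Bool) (p : ℤ) (hp : 0 ≤ p) : h b p (1 : V) = 0 := by
  obtain ⟨i, rfl⟩ : ∃ j : ℕ, p = (j : ℤ) := ⟨p.toNat, by omega⟩
  rw [h_nat, an_one]

/-- Bound predicate: all annihilation operators of index at least `B` kill `a`. -/
def Bdd (B : ℕ) (a : V) : Prop := ∀ i : ℕ, B ≤ i → ∀ b : Bool, h b (i : ℤ) a = 0

theorem Bdd.mono {B B' : ℕ} {a : V} (hB : Bdd B a) (hBB : B ≤ B') : Bdd B' a :=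
  fun i hi b => hB i (hBB.trans hi) b

theorem Bdd.hmode {B : ℕ} {a : V} (hB : Bdd B a) (b : Bool) (j : ℕ) : Bdd B (h b (j : ℤ) a) := by
  intro i hi c
  rw [h_nat, h_nat, an_comm, ← h_nat c i, hB i hi c, map_zero]

theorem Bdd.add {B : ℕ} {a a' : V} (hB : Bdd B a) (hB' : Bdd B a') : Bdd B (a + a') := by
  intro i hi c
  rw [map_add, hB i hi c, hB' i hi c, add_zero]

theorem Bdd.smul {B : ℕ} {a : V} (r : ℚ) (hB : Bdd B a) : Bdd B (r • a) := by
  intro i hi c
  rw [map_smul, hB i hi c, smul_zero]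

theorem Bdd.one : Bdd 0 (1 : V) := by
  intro i _ c
  rw [h_nat, an_one]

theorem Bdd.zero (B : ℕ) : Bdd B (0 : V) := by
  intro i _ c
  rw [map_zero]

theorem Bdd.X_mul {B : ℕ} {a : V} (hB : Bdd B a) (c : Bool) (l : ℕ) :
    Bdd (max B (l + 2)) (X (c, l) * a) := by
  intro i hi b
  have h1 : B ≤ i := (le_max_left _ _).trans hi
  have h2 : l + 2 ≤ i := (le_max_right _ _).trans hi
  rw [h_nat, an_X_mul, ← h_nat, hB i h1 b, if_neg (by omega)]
  simp

theorem Bdd.T' {B : ℕ} {a : V} (hB : Bdd B a) : Bdd (B + 1) (T a) := by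
  intro i hi b
  have : h b ((i : ℤ) - 1) a = 0 := by
    have h2 : ((i : ℤ) - 1) = ((i - 1 : ℕ) : ℤ) := by omega
    rw [h2]
    exact hB _ (by omega) b
  rw [h_T, hB i (by omega) b, this]
  simp

/-- induction principle -/
theorem V_induction {P : V → Prop} (one : P 1) (add : ∀ u v, P u → P v → P (u + v))
    (smul : ∀ (r : ℚ) v, P v → P (r • v)) (mul : ∀ c l v, P v → P (X (c, l) * v)) (v : V) : P v := by
  induction v using MvPolynomial.induction_on with
  | C r =>
    have : (C r : V) = r • 1 := by rw [smul_eq_C_mul, mul_one]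
    rw [this]; exact smul r 1 one
  | add p q hp hq => exact add p q hp hq
  | mul_X p n hp =>
    rw [mul_comm]
    exact mul n.1 n.2 p hp

theorem exists_Bdd (a : V) : ∃ B, Bdd B a := by
  induction a using V_induction with
  | one => exact ⟨0, Bdd.one⟩
  | add u v hu hv =>
    obtain ⟨B, hB⟩ := hu
    obtain ⟨B', hB'⟩ := hv
    exact ⟨max B B', (hB.mono (le_max_left _ _)).add (hB'.mono (le_max_right _ _))⟩
  | smul r v hv =>
    obtain ⟨B, hB⟩ := hv
    exact ⟨B, hB.smul r⟩
  | mul c l v hv =>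
    obtain ⟨B, hB⟩ := hv
    exact ⟨_, hB.X_mul c l⟩

/-- vacuum expectation -/
noncomputable def vev : V →ₗ[ℚ] ℚ := (MvPolynomial.lcoeff ℚ (0 : Idx →₀ ℕ))

theorem vev_one : vev 1 = 1 := by simp [vev, lcoeff]

theorem vev_X_mul (c : Bool) (l : ℕ) (v : V) : vev (X (c, l) * v) = 0 := by
  simp [vev, lcoeff, coeff_X_mul']

theorem vev_T (v : V) : vev (T v) = 0 := by
  induction v using V_induction with
  | one => simp
  | add u v hu hv => simp [hu, hv]
  | smul r v hv => simp [hv]
  | mul c l v hv => rw [T_X_mul, map_add, map_smul, vev_X_mul, vev_X_mul]; simp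

/-- A vector killed by all annihilation operators is a multiple of the vacuum. -/
theorem eq_vev_of_ann {v : V} (hv : ∀ (b : Bool) (p : ℤ), 0 < p → h b p v = 0) :
    v = vev v • (1 : V) := by
  have hd : ∀ k : Idx, pderiv k v = 0 := by
    rintro ⟨b, k⟩
    have := hv (!b) ((k + 1 : ℕ) : ℤ) (by positivity)
    rw [h_nat, an_apply] at this
    simp only [Bool.not_not, Nat.add_sub_cancel] at this
    have h2 : ((k + 1 : ℕ) : ℚ) ≠ 0 := by positivity
    exact (smul_eq_zero.mp this).resolve_left h2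
  ext m
  by_cases hm : m = 0
  · subst hm; simp [vev, lcoeff]
  · obtain ⟨i, hi⟩ : ∃ i, m i ≠ 0 := by
      by_contra hcon
      push Not at hcon
      exact hm (Finsupp.ext hcon)
    have h1 := congrArg (coeff (m - Finsupp.single i 1)) (hd i)
    have h2 : m - Finsupp.single i 1 + Finsupp.single i 1 = m := by
      ext j
      simp only [Finsupp.coe_add, Finsupp.coe_tsub, Pi.add_apply, Pi.sub_apply,
        Finsupp.single_apply]
      split_ifs with hj
      · subst hj; omega
      · omega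
    rw [coeff_zero, coeff_pderiv, h2] at h1
    have h4 : coeff m v = 0 := (mul_eq_zero.mp h1).resolve_right (Nat.cast_add_one_ne_zero _)
    rw [h4]
    have h5 : coeff m (1 : V) = 0 := by
      rw [coeff_one, if_neg (fun hh => hm hh.symm)]
    rw [coeff_smul, h5, smul_zero]

end Pool.Agent.H75
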