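import Pool.Agent.H75.Local

set_option autoImplicit false

namespace Pool.Agent.H75

open MvPolynomial

/-- Left side of the Borcherds identity. -/
noncomputable def LS (a b c : V) (m n k : ℤ) : V :=
  ∑ᶠ i : ℕ, ch m i • Y (m + k - i) (Y (n + i) a b) c

/-- Right side of the Borcherds identity. -/
noncomputable def RS (a b c : V) (m n k : ℤ) : V :=
  ∑ᶠ j : ℕ, ((-1 : ℚ) ^ j * ch n j) •
    (Y (m + n - j) a (Y (k + j) b c) - ((-1 : ℚ) ^ n) • Y (n + k - j) b (Y (m + j) a c))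

theorem finsum_eq_range {M : Type*} [AddCommMonoid M] (f : ℕ → M) (J : ℕ) (hJ : ∀ j, J ≤ j → f j = 0) :
    ∑ᶠ j : ℕ, f j = ∑ j ∈ Finset.range J, f j := by
  apply finsum_eq_finsetSum_of_support_subset
  intro i hi
  rw [Function.mem_support] at hi
  by_contra hcon
  exact hi (hJ i (by simpa using hcon))

theorem LS_eq {a b : V} (c : V) (m n k : ℤ) {I : ℕ} (hI : ∀ i : ℕ, I ≤ i → Y (n + i) a b = 0) :
    LS a b c m n k = ∑ i ∈ Finset.range I, ch m i • Y (m + k - i) (Y (n + i) a b) c :=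
  finsum_eq_range _ _ fun j hj => by rw [hI j hj, Y_zero_left, smul_zero]

theorem RS_eq (a b c : V) (m n k : ℤ) {J : ℕ} (hb : ∀ i : ℕ, J ≤ i → Y (k + i) b c = 0)
    (ha : ∀ i : ℕ, J ≤ i → Y (m + i) a c = 0) :
    RS a b c m n k = ∑ j ∈ Finset.range J, ((-1 : ℚ) ^ j * ch n j) •
      (Y (m + n - j) a (Y (k + j) b c) - ((-1 : ℚ) ^ n) • Y (n + k - j) b (Y (m + j) a c)) :=
  finsum_eq_range _ _ fun j hj => by
    rw [hb j hj, ha j hj, Y_zero_right, Y_zero_right, smul_zero, sub_zero, smul_zero]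

theorem trunc_nat (n : ℤ) (a b : V) : ∃ J : ℕ, ∀ j : ℕ, J ≤ j → Y (n + j) a b = 0 := by
  obtain ⟨N, hN⟩ := trunc b a
  exact ⟨(N - n).toNat, fun j hj => hN _ (by omega)⟩

theorem trunc_fam (B : ℕ) (n : ℕ → ℤ) (u w : ℕ → V) :
    ∃ J : ℕ, ∀ i, i < B → ∀ j : ℕ, J ≤ j → Y (n i + j) (u i) (w i) = 0 := by
  induction B with
  | zero => exact ⟨0, fun i hi => by omega⟩
  | succ B ih =>
    obtain ⟨J, hJ⟩ := ih
    obtain ⟨J', hJ'⟩ := trunc_nat (n B) (u B) (w B)
    refine ⟨max J J', fun i hi j hj => ?_⟩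
    rcases Nat.lt_succ_iff_lt_or_eq.mp hi with h1 | h1
    · exact hJ i h1 j (by omega)
    · subst h1; exact hJ' j (by omega)

theorem LS_zero (a b c : V) (n k : ℤ) : LS a b c 0 n k = Y k (Y n a b) c := by
  rw [LS, finsum_eq_range _ 1]
  · simp [ch_zero_right]
  · intro j hj
    obtain ⟨j, rfl⟩ := Nat.exists_eq_succ_of_ne_zero (show j ≠ 0 by omega)
    rw [Nat.succ_eq_add_one, ch_zero_succ, zero_smul]

theorem LS_rec (a b c : V) (m n k : ℤ) :
    LS a b c (m + 1) n k = LS a b c m (n + 1) k + LS a b c m n (k + 1) := by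
  obtain ⟨I, hI⟩ := trunc_nat n a b
  have h1 : ∀ i : ℕ, I ≤ i → Y (n + 1 + i) a b = 0 := by
    intro i hi
    have := hI (i + 1) (by omega)
    rw [← this]; congr 1; push_cast; ring
  have h2 : ∀ i : ℕ, I + 1 ≤ i → Y (n + i) a b = 0 := fun i hi => hI i (by omega)
  rw [LS_eq c (m + 1) n k h2, LS_eq c m (n + 1) k h1, LS_eq c m n (k + 1) h2]
  rw [Finset.sum_range_succ', Finset.sum_range_succ' _ I, ch_zero_right, ch_zero_right]
  have e1 : ∀ i : ℕ, ch (m + 1) (i + 1) • Y (m + 1 + k - (i + 1 : ℕ)) (Y (n + (i + 1 : ℕ)) a b) c =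
      ch m i • Y (m + k - i) (Y (n + 1 + i) a b) c +
      ch m (i + 1) • Y (m + (k + 1) - (i + 1 : ℕ)) (Y (n + (i + 1 : ℕ)) a b) c := by
    intro i
    have a1 : m + 1 + k - ((i + 1 : ℕ) : ℤ) = m + k - i := by push_cast; ring
    have a2 : m + (k + 1) - ((i + 1 : ℕ) : ℤ) = m + k - i := by push_cast; ring
    have a3 : n + ((i + 1 : ℕ) : ℤ) = n + 1 + i := by push_cast; ring
    rw [a1, a2, a3, ch_pascal, add_smul]
  simp only [e1]
  rw [Finset.sum_add_distrib]
  have a4 : m + 1 + k - ((0 : ℕ) : ℤ) = m + (k + 1) - ((0 : ℕ) : ℤ) := by ring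
  rw [a4, add_assoc]

theorem pascal_sum {M : Type*} [AddCommGroup M] [Module ℚ M] (n : ℤ) (f : ℕ → M) (J : ℕ) :
    ∑ j ∈ Finset.range (J + 1), ((-1 : ℚ) ^ j * ch (n + 1) j) • f j =
      ∑ j ∈ Finset.range (J + 1), ((-1 : ℚ) ^ j * ch n j) • f j -
      ∑ j ∈ Finset.range J, ((-1 : ℚ) ^ j * ch n j) • f (j + 1) := by
  rw [Finset.sum_range_succ', Finset.sum_range_succ' _ J, ch_zero_right, ch_zero_right]
  have e1 : ∀ j : ℕ, ((-1 : ℚ) ^ (j + 1) * ch (n + 1) (j + 1)) • f (j + 1) =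
      ((-1 : ℚ) ^ (j + 1) * ch n (j + 1)) • f (j + 1) - ((-1 : ℚ) ^ j * ch n j) • f (j + 1) := by
    intro j
    rw [ch_pascal, ← sub_smul]; congr 1; rw [pow_succ]; ring
  simp only [e1]
  rw [Finset.sum_sub_distrib]
  abel

theorem zpow_neg_one_succ (n : ℤ) : (-1 : ℚ) ^ (n + 1) = -(-1 : ℚ) ^ n := by
  rw [zpow_add₀ (by norm_num)]; simp

theorem RS_rec (a b c : V) (m n k : ℤ) :
    RS a b c (m + 1) n k = RS a b c m (n + 1) k + RS a b c m n (k + 1) := by
  obtain ⟨J1, hJ1⟩ := trunc_nat k b c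
  obtain ⟨J2, hJ2⟩ := trunc_nat m a c
  obtain ⟨J, hJ⟩ : ∃ J, J = max J1 J2 := ⟨_, rfl⟩
  have hb : ∀ i : ℕ, J ≤ i → Y (k + i) b c = 0 := fun i hi => hJ1 i (by omega)
  have ha : ∀ i : ℕ, J ≤ i → Y (m + i) a c = 0 := fun i hi => hJ2 i (by omega)
  have hb' : ∀ i : ℕ, J ≤ i → Y (k + 1 + i) b c = 0 := by
    intro i hi
    have := hb (i + 1) (by omega)
    rw [← this]; congr 1; push_cast; ring
  have ha' : ∀ i : ℕ, J ≤ i → Y (m + 1 + i) a c = 0 := by
    intro i hi
    have := ha (i + 1) (by omega)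
    rw [← this]; congr 1; push_cast; ring
  have hbs : ∀ i : ℕ, J + 1 ≤ i → Y (k + i) b c = 0 := fun i hi => hb i (by omega)
  have has : ∀ i : ℕ, J + 1 ≤ i → Y (m + i) a c = 0 := fun i hi => ha i (by omega)
  rw [RS_eq a b c (m + 1) n k (J := J + 1) hbs (fun i hi => ha' i (by omega)),
    RS_eq a b c m (n + 1) k hbs has, RS_eq a b c m n (k + 1) (J := J + 1) (fun i hi => hb' i (by omega)) has]
  set A : ℕ → V := fun j => Y (m + 1 + n - j) a (Y (k + j) b c) with hA
  set Bf : ℕ → V := fun j => Y (n + k + 1 - j) b (Y (m + j) a c) with hBf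
  have e1 : ∀ j : ℕ, Y (m + 1 + n - j) a (Y (k + j) b c) = A j := fun j => rfl
  have e2 : ∀ j : ℕ, Y (n + k - j) b (Y (m + 1 + j) a c) = Bf (j + 1) := by
    intro j
    rw [hBf]
    have a1 : n + k + 1 - ((j + 1 : ℕ) : ℤ) = n + k - j := by push_cast; ring
    have a2 : m + ((j + 1 : ℕ) : ℤ) = m + 1 + j := by push_cast; ring
    simp only [a1, a2]
  have e3 : ∀ j : ℕ, Y (m + (n + 1) - j) a (Y (k + j) b c) = A j := by
    intro j; rw [hA]; simp only; congr 1; ring
  have e4 : ∀ j : ℕ, Y (n + 1 + k - j) b (Y (m + j) a c) = Bf j := by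
    intro j; rw [hBf]; simp only; congr 1; ring
  have e5 : ∀ j : ℕ, Y (m + n - j) a (Y (k + 1 + j) b c) = A (j + 1) := by
    intro j
    rw [hA]
    have a1 : m + 1 + n - ((j + 1 : ℕ) : ℤ) = m + n - j := by push_cast; ring
    have a2 : k + ((j + 1 : ℕ) : ℤ) = k + 1 + j := by push_cast; ring
    simp only [a1, a2]
  have e6 : ∀ j : ℕ, Y (n + (k + 1) - j) b (Y (m + j) a c) = Bf j := by
    intro j; rw [hBf]; simp only; congr 1; ring
  simp only [e1, e2, e3, e4, e5, e6, zpow_neg_one_succ, neg_smul, sub_neg_eq_add]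
  have hAz : A (J + 1) = 0 := by rw [hA]; simp only; rw [hbs _ le_rfl, Y_zero_right]
  have hBz : Bf (J + 1) = 0 := by rw [hBf]; simp only; rw [has _ le_rfl, Y_zero_right]
  have pA := pascal_sum n A J
  have pB := pascal_sum n Bf J
  have f1 : ∀ j : ℕ, ((-1 : ℚ) ^ j * ch n j) • (A j - (-1 : ℚ) ^ n • Bf (j + 1)) =
      ((-1 : ℚ) ^ j * ch n j) • A j - (-1 : ℚ) ^ n • (((-1 : ℚ) ^ j * ch n j) • Bf (j + 1)) := by
    intro j; rw [smul_sub, smul_comm]
  have f2 : ∀ j : ℕ, ((-1 : ℚ) ^ j * ch (n + 1) j) • (A j + (-1 : ℚ) ^ n • Bf j) =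
      ((-1 : ℚ) ^ j * ch (n + 1) j) • A j + (-1 : ℚ) ^ n • (((-1 : ℚ) ^ j * ch (n + 1) j) • Bf j) := by
    intro j; rw [smul_add, smul_comm]
  have f3 : ∀ j : ℕ, ((-1 : ℚ) ^ j * ch n j) • (A (j + 1) - (-1 : ℚ) ^ n • Bf j) =
      ((-1 : ℚ) ^ j * ch n j) • A (j + 1) - (-1 : ℚ) ^ n • (((-1 : ℚ) ^ j * ch n j) • Bf j) := by
    intro j; rw [smul_sub, smul_comm]
  simp only [f1, f2, f3]
  rw [Finset.sum_sub_distrib, Finset.sum_add_distrib, Finset.sum_sub_distrib, ← Finset.smul_sum,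
    ← Finset.smul_sum, ← Finset.smul_sum, pA, pB]
  rw [Finset.sum_range_succ (fun j => ((-1 : ℚ) ^ j * ch n j) • Bf (j + 1)),
    Finset.sum_range_succ (fun j => ((-1 : ℚ) ^ j * ch n j) • A (j + 1)), hAz, hBz]
  simp only [smul_zero, add_zero, smul_sub]
  abel

/-- The Borcherds identity for a triple and indices. -/
def Bor (a b c : V) (m n k : ℤ) : Prop := LS a b c m n k = RS a b c m n k

theorem bor_large {a b : V} {N : ℕ} (hN : Loc a b N) (h0 : ∀ n : ℤ, (N : ℤ) ≤ n → Y n a b = 0)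
    (n : ℕ) (hn : N ≤ n) (c : V) (m k : ℤ) : Bor a b c m n k := by
  have hL : LS a b c m n k = 0 := by
    rw [LS_eq (I := 0)]
    · simp
    · intro i _; exact h0 _ (by omega)
  have hR : RS a b c m n k = 0 := by
    have h1 := congrFun (hN n hn c (m + n + k)) m
    rw [dl_pow_eq_sum] at h1
    obtain ⟨J1, hJ1⟩ := trunc_nat k b c
    obtain ⟨J2, hJ2⟩ := trunc_nat m a c
    obtain ⟨J, hJ⟩ : ∃ J, J = max (n + 1) (max J1 J2) := ⟨_, rfl⟩
    rw [RS_eq a b c m n k (J := J) (fun i hi => hJ1 i (by omega)) (fun i hi => hJ2 i (by omega))]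
    have h2 : ∑ j ∈ Finset.range J, ((-1 : ℚ) ^ j * ch n j) •
      (Y (m + n - j) a (Y (k + j) b c) - ((-1 : ℚ) ^ (n : ℤ)) • Y (n + k - j) b (Y (m + j) a c)) =
      ∑ j ∈ Finset.range (n + 1), ((-1 : ℚ) ^ j * (n.choose j : ℚ)) •
      (Y (m + n - j) a (Y (k + j) b c) - ((-1 : ℚ) ^ n) • Y (n + k - j) b (Y (m + j) a c)) := by
      symm
      simp only [ch_nat, zpow_natCast]
      apply Finset.sum_subset
      · intro x hx; simp at hx ⊢; omega
      · intro x _ hx
        rw [Nat.choose_eq_zero_of_lt (by simpa using hx)]; simp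
    rw [h2]
    simp only [smul_sub, Finset.sum_sub_distrib]
    rw [← Finset.sum_range_reflect (fun j : ℕ => ((-1 : ℚ) ^ j * (n.choose j : ℚ)) •
      ((-1 : ℚ) ^ n) • Y (n + k - j) b (Y (m + j) a c))]
    rw [← Finset.sum_sub_distrib]
    rw [Pi.zero_apply] at h1
    rw [← h1]
    apply Finset.sum_congr rfl
    intro j hj
    rw [Finset.mem_range] at hj
    have hj' : n + 1 - 1 - j = n - j := by omega
    have e1 : (m + n - j : ℤ) = m + n - j := rfl
    rw [hj', K, smul_sub]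
    have a1 : m + (n : ℤ) + k - (m + n - j) = k + j := by ring
    have a2 : (n : ℤ) + k - ((n - j : ℕ) : ℤ) = k + j := by
      rw [Nat.cast_sub (by omega)]; ring
    have a3 : m + ((n - j : ℕ) : ℤ) = m + n - j := by
      rw [Nat.cast_sub (by omega)]; ring
    rw [a1, a2, a3, smul_smul]
    congr 2
    have b1 : n.choose (n - j) = n.choose j := Nat.choose_symm (by omega)
    rw [b1]
    have b2 : (-1 : ℚ) ^ (n - j) * (-1) ^ n = (-1) ^ j := by
      have : n + (n - j) = j + 2 * (n - j) := by omega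
      rw [mul_comm, ← pow_add, this, pow_add, pow_mul]; norm_num
    rw [← b2]; ring
  rw [Bor, hL, hR]

theorem bor_of_P {a b : V} (hP : ∀ (n k : ℤ) (c : V), Bor a b c 0 n k) :
    ∀ (m n k : ℤ) (c : V), Bor a b c m n k := by
  obtain ⟨N1, hN1⟩ := exists_Loc a b
  obtain ⟨M, hM⟩ := trunc b a
  obtain ⟨N, hN⟩ : ∃ N, N = max N1 M.toNat := ⟨_, rfl⟩
  have hL : Loc a b N := hN1.mono (by omega)
  have h0 : ∀ n : ℤ, (N : ℤ) ≤ n → Y n a b = 0 := fun n hn => hM n (by omega)
  have main : ∀ (d : ℕ) (m k : ℤ) (c : V), Bor a b c m ((N : ℤ) - d) k := by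
    intro d
    induction d with
    | zero => intro m k c; simpa using bor_large hL h0 N le_rfl c m k
    | succ d ih =>
      intro m k c
      have hn : (N : ℤ) - ((d + 1 : ℕ) : ℤ) + 1 = N - d := by push_cast; ring
      have up : ∀ (i : ℕ) (k : ℤ), Bor a b c i ((N : ℤ) - ((d + 1 : ℕ) : ℤ)) k := by
        intro i
        induction i with
        | zero => intro k; exact hP _ _ _
        | succ i ihi =>
          intro k
          have h1 := ihi (k + 1)
          have h2 := ih i k c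
          rw [← hn] at h2
          rw [Bor] at h1 h2 ⊢
          rw [show ((i + 1 : ℕ) : ℤ) = (i : ℤ) + 1 by push_cast; ring, LS_rec, RS_rec, h1, h2]
      have down : ∀ (i : ℕ) (k : ℤ), Bor a b c (-(i : ℤ)) ((N : ℤ) - ((d + 1 : ℕ) : ℤ)) k := by
        intro i
        induction i with
        | zero => intro k; simpa using hP _ _ _
        | succ i ihi =>
          intro k
          have h1 := ihi (k - 1)
          have h2 := ih (-((i + 1 : ℕ) : ℤ)) (k - 1) c
          rw [← hn] at h2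
          have a1 : (-(i : ℤ)) = -((i + 1 : ℕ) : ℤ) + 1 := by push_cast; ring
          rw [Bor, a1, LS_rec, RS_rec, sub_add_cancel] at h1
          rw [Bor] at h2 ⊢
          rw [h2] at h1
          exact add_left_cancel h1
      rcases le_total 0 m with hm | hm
      · obtain ⟨i, rfl⟩ : ∃ i : ℕ, m = (i : ℤ) := ⟨m.toNat, by omega⟩
        exact up i k
      · obtain ⟨i, rfl⟩ : ∃ i : ℕ, m = -(i : ℤ) := ⟨(-m).toNat, by omega⟩
        exact down i k
  intro m n k c
  rcases le_total (N : ℤ) n with hn | hn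
  · obtain ⟨n', rfl⟩ : ∃ i : ℕ, n = (i : ℤ) := ⟨n.toNat, by omega⟩
    exact bor_large hL h0 n' (by omega) c m k
  · have := main (N - n).toNat m k c
    have e : (N : ℤ) - ((N - n).toNat : ℕ) = n := by omega
    rwa [e] at this

theorem sum_shift {M : Type*} [AddCommMonoid M] (g : ℕ → M) {s J : ℕ} (hs : s ≤ J)
    (hg : ∀ j, j < s → g j = 0) : ∑ j ∈ Finset.range J, g j = ∑ t ∈ Finset.range (J - s), g (s + t) := by
  rw [Finset.range_eq_Ico, ← Finset.sum_Ico_consecutive g (Nat.zero_le s) hs,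
    Finset.sum_eq_zero, zero_add, Finset.sum_Ico_eq_sum_range, Finset.range_eq_Ico]
  intro x hx
  exact hg x (Finset.mem_Ico.mp hx).2

/-- creation or annihilation operators pass through the left side, `m = 0`. -/
theorem LS_h (d : Bool) (p : ℤ) {a b : V} {B : ℕ} (ha : Bdd B a) (hb : Bdd B b) (c : V) (n k : ℤ) :
    LS a b (h d p c) 0 n k = h d p (LS a b c 0 n k) -
      ∑ i ∈ Finset.range B, ch p i • (LS (h d (i : ℤ) a) b c (p - i) n k +
        LS a (h d (i : ℤ) b) c 0 n (p + k - i)) := by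
  simp only [LS_zero]
  obtain ⟨J1, hJ1⟩ := exists_Bdd (Y n a b)
  obtain ⟨J2, hJ2⟩ := trunc_fam B (fun i => n - i) (fun i => h d (i : ℤ) a) (fun _ => b)
  obtain ⟨J, hJ⟩ : ∃ J, J = max B (max J1 J2) := ⟨_, rfl⟩
  have hu : Bdd J (Y n a b) := hJ1.mono (by omega)
  have hz : ∀ s, s < B → ∀ j : ℕ, J ≤ j → Y (n - s + j) (h d (s : ℤ) a) b = 0 :=
    fun s hs j hj => hJ2 s hs j (by omega)
  have e1 := comm_h d p k hu c
  have e2 : Y k (Y n a b) (h d p c) = h d p (Y k (Y n a b) c) -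
      ∑ j ∈ Finset.range J, ch p j • Y (p + k - j) (h d (j : ℤ) (Y n a b)) c := by
    rw [e1]; abel
  rw [e2]
  congr 1
  have e3 : ∀ j : ℕ, ch p j • Y (p + k - j) (h d (j : ℤ) (Y n a b)) c =
      ch p j • Y (p + k - j) (Y n a (h d (j : ℤ) b)) c +
      ∑ s ∈ Finset.range B, (ch p j * ch j s) • Y (p + k - j) (Y (n - s + j) (h d (s : ℤ) a) b) c := by
    intro j
    rw [comm_h d j n ha b, Y_add_left, Y_sum_left, smul_add, Finset.smul_sum]
    congr 1
    apply Finset.sum_congr rfl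
    intro s _
    rw [Y_smul_left, smul_smul]
    congr 3
    ring
  simp only [e3]
  rw [Finset.sum_add_distrib, Finset.sum_comm]
  simp only [smul_add]
  rw [Finset.sum_add_distrib, add_comm]
  congr 1
  · apply Finset.sum_congr rfl
    intro s hs
    rw [Finset.mem_range] at hs
    rw [sum_shift (fun j : ℕ => (ch p j * ch j s) • Y (p + k - j) (Y (n - s + j) (h d (s : ℤ) a) b) c)
      (show s ≤ J by omega)]
    · rw [LS_eq (I := J - s), Finset.smul_sum]
      · apply Finset.sum_congr rfl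
        intro t _
        rw [smul_smul]
        have a1 : ch p (s + t) * ch ((s + t : ℕ) : ℤ) s = ch p s * ch (p - s) t := by
          have := ch_mul p (show s ≤ s + t by omega)
          rw [ch_nat, mul_comm, this]
          congr 2; omega
        have a2 : p + k - ((s + t : ℕ) : ℤ) = p - s + k - t := by push_cast; ring
        have a3 : n - (s : ℤ) + ((s + t : ℕ) : ℤ) = n + t := by push_cast; ring
        rw [a1, a2, a3]
      · intro t ht
        have := hz s hs (s + t) (by omega)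
        rw [← this]; congr 1; push_cast; ring
    · intro j hj
      rw [ch_nat, Nat.choose_eq_zero_of_lt hj]; simp
  · apply sum_bound_indep
    · intro i hi
      rw [hb i (by omega) d, Y_zero_right, Y_zero_left, smul_zero]
    · intro i hi
      rw [hb i hi d, Y_zero_right, Y_zero_left, smul_zero]

theorem RS_h (d : Bool) (p : ℤ) {a b : V} {B : ℕ} (ha : Bdd B a) (hb : Bdd B b) (c : V) (m n k : ℤ) :
    RS a b (h d p c) m n k = h d p (RS a b c m n k) -
      ∑ i ∈ Finset.range B, ch p i • (RS (h d (i : ℤ) a) b c (m + p - i) n k +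
        RS a (h d (i : ℤ) b) c m n (p + k - i)) := by
  obtain ⟨J1, hJ1⟩ := trunc_nat k b c
  obtain ⟨J2, hJ2⟩ := trunc_nat m a c
  obtain ⟨J3, hJ3⟩ := trunc_nat k b (h d p c)
  obtain ⟨J4, hJ4⟩ := trunc_nat m a (h d p c)
  obtain ⟨J5, hJ5⟩ := trunc_fam B (fun i => m + p - i) (fun i => h d (i : ℤ) a) (fun _ => c)
  obtain ⟨J6, hJ6⟩ := trunc_fam B (fun i => p + k - i) (fun i => h d (i : ℤ) b) (fun _ => c)
  obtain ⟨J, hJ⟩ : ∃ J, J = max J1 (max J2 (max J3 (max J4 (max J5 J6)))) := ⟨_, rfl⟩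
  rw [RS_eq a b (h d p c) m n k (J := J) (fun i hi => hJ3 i (by omega)) (fun i hi => hJ4 i (by omega)),
    RS_eq a b c m n k (J := J) (fun i hi => hJ1 i (by omega)) (fun i hi => hJ2 i (by omega))]
  have e0 : ∀ i ∈ Finset.range B, ch p i • (RS (h d (i : ℤ) a) b c (m + p - i) n k +
        RS a (h d (i : ℤ) b) c m n (p + k - i)) =
      ∑ j ∈ Finset.range J, ((-1 : ℚ) ^ j * ch n j) • ch p i •
        ((Y (m + p - i + n - j) (h d (i : ℤ) a) (Y (k + j) b c) +
          Y (m + n - j) a (Y (p + k - i + j) (h d (i : ℤ) b) c)) -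
        (-1 : ℚ) ^ n • (Y (n + k - j) b (Y (m + p - i + j) (h d (i : ℤ) a) c) +
          Y (n + (p + k - i) - j) (h d (i : ℤ) b) (Y (m + j) a c))) := by
    intro i hi
    rw [Finset.mem_range] at hi
    rw [RS_eq (h d (i : ℤ) a) b c (m + p - i) n k (J := J) (fun j hj => hJ1 j (by omega))
      (fun j hj => hJ5 i hi j (by omega)),
      RS_eq a (h d (i : ℤ) b) c m n (p + k - i) (J := J) (fun j hj => hJ6 i hi j (by omega))
      (fun j hj => hJ2 j (by omega)), ← Finset.sum_add_distrib, Finset.smul_sum]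
    apply Finset.sum_congr rfl
    intro j _
    module
  rw [Finset.sum_congr rfl e0, Finset.sum_comm, map_sum, ← Finset.sum_sub_distrib]
  apply Finset.sum_congr rfl
  intro j _
  have c1 : ∀ (N : ℤ) (w : V), Y N a (h d p w) = h d p (Y N a w) -
      ∑ i ∈ Finset.range B, ch p i • Y (p + N - i) (h d (i : ℤ) a) w := by
    intro N w; rw [comm_h d p N ha w]; abel
  have c2 : ∀ (N : ℤ) (w : V), Y N b (h d p w) = h d p (Y N b w) -
      ∑ i ∈ Finset.range B, ch p i • Y (p + N - i) (h d (i : ℤ) b) w := by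
    intro N w; rw [comm_h d p N hb w]; abel
  rw [← Finset.smul_sum, map_smul, ← smul_sub]
  congr 1
  rw [c2 (k + j), c1 (m + j), Y_sub_right, Y_sub_right, c1 (m + n - j), c2 (n + k - j), map_sub, map_smul]
  simp only [Y_sum_right, Y_smul_right]
  have e1 : ∀ i : ℕ, ch p i • ((Y (m + p - i + n - j) (h d (i : ℤ) a) (Y (k + j) b c) +
          Y (m + n - j) a (Y (p + k - i + j) (h d (i : ℤ) b) c)) -
        (-1 : ℚ) ^ n • (Y (n + k - j) b (Y (m + p - i + j) (h d (i : ℤ) a) c) +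
          Y (n + (p + k - i) - j) (h d (i : ℤ) b) (Y (m + j) a c))) =
      ch p i • Y (p + (m + n - j) - i) (h d (i : ℤ) a) (Y (k + j) b c) +
      ch p i • Y (m + n - j) a (Y (p + (k + j) - i) (h d (i : ℤ) b) c) -
      (-1 : ℚ) ^ n • (ch p i • Y (n + k - j) b (Y (p + (m + j) - i) (h d (i : ℤ) a) c)) -
      (-1 : ℚ) ^ n • (ch p i • Y (p + (n + k - j) - i) (h d (i : ℤ) b) (Y (m + j) a c)) := by
    intro i
    have a1 : m + p - i + n - j = p + (m + n - j) - i := by ring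
    have a2 : p + k - i + j = p + (k + j) - i := by ring
    have a3 : m + p - i + j = p + (m + j) - i := by ring
    have a4 : n + (p + k - i) - j = p + (n + k - j) - i := by ring
    rw [a1, a2, a3, a4]
    module
  simp only [e1]
  rw [Finset.sum_sub_distrib, Finset.sum_sub_distrib, Finset.sum_add_distrib, ← Finset.smul_sum,
    ← Finset.smul_sum]
  simp only [smul_sub]
  abel

theorem Td_Y (a b : V) (n : ℤ) (s : ℕ) : Td s (Y n a b) =
    ∑ j ∈ Finset.range (s + 1), ((-1 : ℚ) ^ j * ch n j) • Y (n - j) a (Td (s - j) b) := by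
  induction s with
  | zero => simp [Td_zero, ch_zero_right]
  | succ s ih =>
    have h1 : ((s : ℚ) + 1) ≠ 0 := by positivity
    have h2 : ((s : ℚ) + 1) • Td (s + 1) (Y n a b) = ((s : ℚ) + 1) •
        ∑ j ∈ Finset.range (s + 1 + 1), ((-1 : ℚ) ^ j * ch n j) • Y (n - j) a (Td (s + 1 - j) b) := by
      rw [Td_succ, ih, map_sum, Finset.smul_sum]
      have e1 : ∀ j ∈ Finset.range (s + 1), T (((-1 : ℚ) ^ j * ch n j) • Y (n - j) a (Td (s - j) b)) =
          (((s : ℚ) + 1 - j) * ((-1 : ℚ) ^ j * ch n j)) • Y (n - j) a (Td (s + 1 - j) b) +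
          (((j : ℚ) + 1) * ((-1 : ℚ) ^ (j + 1) * ch n (j + 1))) •
            Y (n - (j + 1 : ℕ)) a (Td (s + 1 - (j + 1)) b) := by
        intro j hj
        rw [Finset.mem_range] at hj
        rw [Derivation.map_smul, T_Y, ← Td_succ, Y_smul_right]
        have a1 : s + 1 - j = s - j + 1 := by omega
        have a2 : s + 1 - (j + 1) = s - j := by omega
        have a3 : n - (j : ℤ) - 1 = n - ((j + 1 : ℕ) : ℤ) := by push_cast; ring
        have a4 : (((s - j : ℕ) : ℚ) + 1) = (s : ℚ) + 1 - j := by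
          rw [Nat.cast_sub (by omega)]; ring
        have a5 := ch_succ n j
        rw [a1, a2, a3, a4, smul_sub, smul_smul, smul_smul, sub_eq_add_neg, ← neg_smul]
        congr 1
        · congr 1; ring
        · congr 1
          push_cast
          rw [pow_succ]
          linear_combination ((-1 : ℚ) ^ j) * a5
      rw [Finset.sum_congr rfl e1, Finset.sum_add_distrib]
      rw [Finset.sum_range_succ' _ (s + 1)]
      have e2 : ∀ j : ℕ, ((s : ℚ) + 1) • ((-1 : ℚ) ^ (j + 1) * ch n (j + 1)) •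
            Y (n - (j + 1 : ℕ)) a (Td (s + 1 - (j + 1)) b) =
          (((s : ℚ) + 1 - (j + 1 : ℕ)) * ((-1 : ℚ) ^ (j + 1) * ch n (j + 1))) •
            Y (n - (j + 1 : ℕ)) a (Td (s + 1 - (j + 1)) b) +
          (((j : ℚ) + 1) * ((-1 : ℚ) ^ (j + 1) * ch n (j + 1))) •
            Y (n - (j + 1 : ℕ)) a (Td (s + 1 - (j + 1)) b) := by
        intro j
        rw [← add_smul, smul_smul]; congr 1; push_cast; ring
      simp only [e2]
      rw [Finset.sum_add_distrib]
      have e3 : ∑ j ∈ Finset.range (s + 1), (((s : ℚ) + 1 - (j + 1 : ℕ)) * ((-1 : ℚ) ^ (j + 1) * ch n (j + 1))) •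
            Y (n - (j + 1 : ℕ)) a (Td (s + 1 - (j + 1)) b) +
          ((s : ℚ) + 1) • ((-1 : ℚ) ^ 0 * ch n 0) • Y (n - (0 : ℕ)) a (Td (s + 1 - 0) b) =
          ∑ j ∈ Finset.range (s + 1), (((s : ℚ) + 1 - j) * ((-1 : ℚ) ^ j * ch n j)) •
            Y (n - j) a (Td (s + 1 - j) b) := by
        rw [Finset.sum_range_succ, Finset.sum_range_succ' _ s]
        push_cast
        simp [smul_smul]
      rw [add_right_comm, e3]
    exact smul_right_injective _ h1 h2

theorem P_one (a b : V) (n k : ℤ) : Bor a b 1 0 n k := by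
  rw [Bor, LS_zero]
  rcases lt_or_ge k 0 with hk | hk
  · obtain ⟨s, rfl⟩ : ∃ s : ℕ, k = -(s + 1 : ℤ) := ⟨(-k - 1).toNat, by omega⟩
    rw [Y_neg_succ_one, Td_Y, RS_eq a b 1 0 n (-(s + 1 : ℤ)) (J := s + 1)
      (fun i hi => Y_nonneg_one (by omega) b) (fun i hi => Y_nonneg_one (by omega) a)]
    apply Finset.sum_congr rfl
    intro j hj
    rw [Finset.mem_range] at hj
    have a1 : (-(s + 1 : ℤ) + j) = -((s - j : ℕ) + 1 : ℤ) := by
      rw [Nat.cast_sub (by omega)]; ring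
    rw [a1, Y_neg_succ_one, Y_nonneg_one (show 0 ≤ 0 + (j : ℤ) by omega), Y_zero_right, smul_zero,
      sub_zero, zero_add]
  · rw [Y_nonneg_one hk, RS_eq a b 1 0 n k (J := 0) (fun i hi => Y_nonneg_one (by omega) b)
      (fun i hi => Y_nonneg_one (by omega) a)]
    simp

theorem LS_add (a b c c' : V) (n k : ℤ) : LS a b (c + c') 0 n k = LS a b c 0 n k + LS a b c' 0 n k := by
  simp only [LS_zero, Y_add_right]

theorem LS_smul (a b c : V) (r : ℚ) (n k : ℤ) : LS a b (r • c) 0 n k = r • LS a b c 0 n k := by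
  simp only [LS_zero, Y_smul_right]

theorem RS_add (a b c c' : V) (m n k : ℤ) :
    RS a b (c + c') m n k = RS a b c m n k + RS a b c' m n k := by
  obtain ⟨J1, hJ1⟩ := trunc_nat k b c
  obtain ⟨J2, hJ2⟩ := trunc_nat m a c
  obtain ⟨J3, hJ3⟩ := trunc_nat k b c'
  obtain ⟨J4, hJ4⟩ := trunc_nat m a c'
  obtain ⟨J, hJ⟩ : ∃ J, J = max J1 (max J2 (max J3 J4)) := ⟨_, rfl⟩
  rw [RS_eq a b c m n k (J := J) (fun i hi => hJ1 i (by omega)) (fun i hi => hJ2 i (by omega)),
    RS_eq a b c' m n k (J := J) (fun i hi => hJ3 i (by omega)) (fun i hi => hJ4 i (by omega)),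
    RS_eq a b (c + c') m n k (J := J)
      (fun i hi => by rw [Y_add_right, hJ1 i (by omega), hJ3 i (by omega), add_zero])
      (fun i hi => by rw [Y_add_right, hJ2 i (by omega), hJ4 i (by omega), add_zero]),
    ← Finset.sum_add_distrib]
  apply Finset.sum_congr rfl
  intro j _
  simp only [Y_add_right]
  module

theorem RS_smul (a b c : V) (r : ℚ) (m n k : ℤ) : RS a b (r • c) m n k = r • RS a b c m n k := by
  obtain ⟨J1, hJ1⟩ := trunc_nat k b c
  obtain ⟨J2, hJ2⟩ := trunc_nat m a c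
  obtain ⟨J, hJ⟩ : ∃ J, J = max J1 J2 := ⟨_, rfl⟩
  rw [RS_eq a b c m n k (J := J) (fun i hi => hJ1 i (by omega)) (fun i hi => hJ2 i (by omega)),
    RS_eq a b (r • c) m n k (J := J)
      (fun i hi => by rw [Y_smul_right, hJ1 i (by omega), smul_zero])
      (fun i hi => by rw [Y_smul_right, hJ2 i (by omega), smul_zero]), Finset.smul_sum]
  apply Finset.sum_congr rfl
  intro j _
  simp only [Y_smul_right]
  module

theorem P_step {a b : V} (h1 : ∀ (i : ℕ) (d : Bool) (m n k : ℤ) (c : V), Bor (h d (i : ℤ) a) b c m n k)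
    (h2 : ∀ (i : ℕ) (d : Bool) (m n k : ℤ) (c : V), Bor a (h d (i : ℤ) b) c m n k) :
    ∀ (n k : ℤ) (c : V), Bor a b c 0 n k := by
  intro n k c
  obtain ⟨B1, hB1⟩ := exists_Bdd a
  obtain ⟨B2, hB2⟩ := exists_Bdd b
  have ha : Bdd (max B1 B2) a := hB1.mono (le_max_left _ _)
  have hb : Bdd (max B1 B2) b := hB2.mono (le_max_right _ _)
  induction c using V_induction with
  | one => exact P_one a b n k
  | add v w hv hw => rw [Bor] at hv hw ⊢; rw [LS_add, RS_add, hv, hw]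
  | smul r v hv => rw [Bor] at hv ⊢; rw [LS_smul, RS_smul, hv]
  | mul c l v hv =>
    rw [Bor] at hv ⊢
    rw [← h_neg, LS_h c _ ha hb, RS_h c _ ha hb, hv]
    congr 1
    apply Finset.sum_congr rfl
    intro i _
    have e1 := h1 i c (-(l + 1 : ℤ) - i) n k v
    have e2 := h2 i c 0 n (-(l + 1 : ℤ) + k - i) v
    rw [Bor] at e1 e2
    rw [e1, e2, zero_add]

theorem pair_induction {P : V → V → Prop} (h0l : ∀ b, P 0 b) (h0r : ∀ a, P a 0)
    (step : ∀ a b, (∀ (i : ℕ) (d : Bool), P (h d (i : ℤ) a) b) →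
      (∀ (i : ℕ) (d : Bool), P a (h d (i : ℤ) b)) → P a b) : ∀ a b, P a b := by
  have main : ∀ (d1 : ℕ) (a : V), Fil d1 a → ∀ (d2 : ℕ) (b : V), Fil d2 b → P a b := by
    intro d1
    induction d1 with
    | zero =>
      intro a ha d2
      induction d2 with
      | zero => intro b hb; exact step a b (fun i d => by rw [ha i d]; exact h0l b) (fun i d => by rw [hb i d]; exact h0r a)
      | succ d2 ih => intro b hb; exact step a b (fun i d => by rw [ha i d]; exact h0l b) (fun i d => ih _ (hb i d))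
    | succ d1 ih1 =>
      intro a ha d2
      induction d2 with
      | zero => intro b hb; exact step a b (fun i d => ih1 _ (ha i d) 0 b hb) (fun i d => by rw [hb i d]; exact h0r a)
      | succ d2 ih => intro b hb; exact step a b (fun i d => ih1 _ (ha i d) _ b hb) (fun i d => ih _ (hb i d))
  intro a b
  obtain ⟨d1, h1⟩ := exists_Fil a
  obtain ⟨d2, h2⟩ := exists_Fil b
  exact main d1 a h1 d2 b h2

/-- The Borcherds identity. -/
theorem borcherds (a b : V) : ∀ (m n k : ℤ) (c : V), Bor a b c m n k := by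
  apply pair_induction (P := fun a b => ∀ (m n k : ℤ) (c : V), Bor a b c m n k)
  · intro b m n k c
    rw [Bor, LS_eq (I := 0), RS, finsum_eq_range _ 0]
    · simp
    · intro j _; simp [Y_zero_left, Y_zero_right]
    · intro j _; simp [Y_zero_left]
  · intro a m n k c
    rw [Bor, LS_eq (I := 0), RS, finsum_eq_range _ 0]
    · simp
    · intro j _; simp [Y_zero_left, Y_zero_right]
    · intro j _; simp [Y_zero_right]
  · intro a b h1 h2
    exact bor_of_P (P_step h1 h2)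

end Pool.Agent.H75
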