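import Pool.Agent.H75.Modes

set_option autoImplicit false

namespace Pool.Agent.H75

open MvPolynomial

/-- Generalised binomial coefficients as rational numbers. -/
noncomputable def ch (p : ℤ) (i : ℕ) : ℚ := ((Ring.choose p i : ℤ) : ℚ)

theorem zsmul_choose (p : ℤ) (i : ℕ) (v : V) : (Ring.choose p i : ℤ) • v = ch p i • v := by
  rw [ch, Int.cast_smul_eq_zsmul]

theorem ch_zero_right (p : ℤ) : ch p 0 = 1 := by simp [ch]

theorem ch_one_right (p : ℤ) : ch p 1 = p := by simp [ch]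

theorem ch_nat (n i : ℕ) : ch (n : ℤ) i = (n.choose i : ℚ) := by
  have := Ring.choose_natCast (R := ℤ) n i
  rw [ch, this]; simp

theorem ch_zero_succ (i : ℕ) : ch 0 (i + 1) = 0 := by
  rw [ch, Ring.choose_zero_succ]; simp

theorem ch_pascal (p : ℤ) (i : ℕ) : ch (p + 1) (i + 1) = ch p i + ch p (i + 1) := by
  rw [ch, Ring.choose_succ_succ]; push_cast; rfl

theorem ch_mul (r : ℤ) {n k : ℕ} (hkn : k ≤ n) :
    (n.choose k : ℚ) * ch r n = ch r k * ch (r - k) (n - k) := by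
  have := Ring.choose_smul_choose r hkn
  rw [nsmul_eq_mul] at this
  have h2 := congrArg (fun z : ℤ => (z : ℚ)) this
  push_cast at h2
  exact h2

theorem ch_succ (p : ℤ) (i : ℕ) : ((i : ℚ) + 1) * ch p (i + 1) = ((p : ℚ) - i) * ch p i := by
  have h1 := ch_mul p (Nat.le_succ i)
  rw [show i.succ - i = 1 by omega, ch_one_right, Nat.choose_succ_self_right] at h1
  push_cast at h1
  rw [Nat.succ_eq_add_one] at h1
  rw [h1]; ring

theorem ch_pred (p : ℤ) (i : ℕ) : (p : ℚ) * ch (p - 1) i = ((p : ℚ) - i) * ch p i := by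
  rw [← ch_succ]
  have h1 := ch_mul p (show 1 ≤ i + 1 by omega)
  rw [ch_one_right, Nat.choose_one_right, Nat.add_sub_cancel] at h1
  push_cast at h1
  rw [h1]

theorem ch_vandermonde (p q : ℤ) (k : ℕ) :
    ch (p + q) k = ∑ ij ∈ Finset.HasAntidiagonal.antidiagonal k, ch p ij.1 * ch q ij.2 := by
  rw [ch, Ring.add_choose_eq k (Commute.all p q)]
  push_cast
  rfl

theorem ch_neg (p : ℤ) (n : ℕ) : ch (-p) n = (-1) ^ n * ch (p + n - 1) n := by
  rw [ch, Ring.choose_neg]
  rw [ch]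
  have : (Int.negOnePow n • Ring.choose (p + n - 1) n : ℤ) = (-1) ^ n * Ring.choose (p + n - 1) n := by
    rw [Int.negOnePow_def]
    simp [Units.smul_def]
  rw [this]
  push_cast
  rfl

theorem Y_X_mul' (n : ℤ) {a : V} {B : ℕ} (hB : Bdd B a) (c : Bool) (l : ℕ) (v : V) :
    Y n a (X (c, l) * v) = X (c, l) * Y n a v -
      ∑ i ∈ Finset.range B, ch (-(l + 1 : ℤ)) i •
        Y (-(l + 1 : ℤ) + n - i) (h c (i : ℤ) a) v := by
  rw [Y_X_mul n hB]
  simp only [zsmul_choose]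

/-- Reindexing lemma for the translation operator. -/
theorem sum_T (G : ℤ → V →ₗ[ℚ] V) (hG : ∀ N u, G N (T u) = -(N : ℚ) • G (N - 1) u)
    {a : V} {B : ℕ} (hB : Bdd B a) (b : Bool) (p n : ℤ) :
    ∑ i ∈ Finset.range (B + 1), ch p i • G (p + n - i) (h b (i : ℤ) (T a)) =
      -(n : ℚ) • ∑ i ∈ Finset.range B, ch p i • G (p + (n - 1) - i) (h b (i : ℤ) a) := by
  have e1 : ∀ i : ℕ, ch p i • G (p + n - i) (h b (i : ℤ) (T a)) =
      (-(ch p i * ((p + n - i : ℤ) : ℚ))) • G (p + n - i - 1) (h b (i : ℤ) a) +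
      (ch p i * (i : ℚ)) • G (p + n - i) (h b ((i : ℤ) - 1) a) := by
    intro i
    rw [h_T, map_add, map_smul, hG, smul_add, smul_smul, smul_smul]
    congr 1
    · congr 1; ring
  simp only [e1]
  rw [Finset.sum_add_distrib, Finset.sum_range_succ, hB B le_rfl b]
  rw [Finset.sum_range_succ' (fun i : ℕ => (ch p i * (i : ℚ)) • G (p + n - i) (h b ((i : ℤ) - 1) a))]
  simp only [Nat.cast_zero, mul_zero, zero_smul, add_zero, map_zero, smul_zero]
  rw [← Finset.sum_add_distrib, Finset.smul_sum]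
  apply Finset.sum_congr rfl
  intro i _
  have e2 : p + n - ((i + 1 : ℕ) : ℤ) = p + (n - 1) - i := by push_cast; ring
  have e3 : p + n - (i : ℤ) - 1 = p + (n - 1) - i := by ring
  have e4 : (((i + 1 : ℕ) : ℤ) - 1) = (i : ℤ) := by push_cast; ring
  have e5 : ch p (i + 1) * (((i + 1 : ℕ)) : ℚ) = ((p : ℚ) - i) * ch p i := by
    rw [← ch_succ]; push_cast; ring
  rw [e2, e3, e4, e5, ← add_smul, smul_smul]
  congr 1
  push_cast; ring

theorem Y_T_left_one (N : ℤ) (u : V) : Y N (T u) 1 = -(N : ℚ) • Y (N - 1) u 1 := by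
  rw [Y_one_right, Y_one_right]
  rcases lt_trichotomy N 0 with hN | hN | hN
  · rw [if_pos hN, if_pos (by omega)]
    obtain ⟨s, rfl⟩ : ∃ s : ℕ, N = -(s + 1 : ℤ) := ⟨(-N - 1).toNat, by omega⟩
    have e1 : (-(-(s + 1 : ℤ)) - 1).toNat = s := by omega
    have e2 : (-(-(s + 1 : ℤ) - 1) - 1).toNat = s + 1 := by omega
    rw [e1, e2, ← Td_succ']
    congr 1
    push_cast; ring
  · subst hN; simp
  · rw [if_neg (by omega), if_neg (by omega)]; simp

/-- `(Ta)_n = -n a_{n-1}` -/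
theorem Y_T_left (v : V) : ∀ (N : ℤ) (u : V), Y N (T u) v = -(N : ℚ) • Y (N - 1) u v := by
  induction v using V_induction with
  | one => exact Y_T_left_one
  | add v w hv hw => intro N u; rw [Y_add_right, Y_add_right, hv, hw, smul_add]
  | smul r v hv => intro N u; rw [Y_smul_right, Y_smul_right, hv, smul_comm]
  | mul c l v hv =>
    intro N u
    obtain ⟨B, hB⟩ := exists_Bdd u
    rw [Y_X_mul' _ hB.T', Y_X_mul' _ hB, hv]
    have := sum_T (fun N => (YL N).flip v) hv hB c (-(l + 1 : ℤ)) N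
    simp only [LinearMap.flip_apply, YL_apply] at this
    rw [this, smul_sub, mul_smul_comm]

/-- `[T, a_n] = -n a_{n-1}` -/
theorem T_Y (v : V) : ∀ (N : ℤ) (u : V), T (Y N u v) = Y N u (T v) - (N : ℚ) • Y (N - 1) u v := by
  induction v using V_induction with
  | one =>
    intro N u
    rw [T_one]
    have h0 : Y N u 0 = 0 := by
      have := Y_smul_right N 0 u 0
      simpa using this
    rw [h0, Y_one_right, Y_one_right]
    rcases lt_trichotomy N 0 with hN | hN | hN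
    · rw [if_pos hN, if_pos (by omega)]
      obtain ⟨s, rfl⟩ : ∃ s : ℕ, N = -(s + 1 : ℤ) := ⟨(-N - 1).toNat, by omega⟩
      have e1 : (-(-(s + 1 : ℤ)) - 1).toNat = s := by omega
      have e2 : (-(-(s + 1 : ℤ) - 1) - 1).toNat = s + 1 := by omega
      rw [e1, e2, ← Td_succ, zero_sub, ← neg_smul]
      congr 1
      push_cast; ring
    · subst hN; simp
    · rw [if_neg (by omega), if_neg (by omega)]; simp
  | add v w hv hw =>
    intro N u
    rw [Y_add_right, map_add, map_add, Y_add_right, Y_add_right, hv, hw]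
    module
  | smul r v hv =>
    intro N u
    rw [Y_smul_right, Derivation.map_smul, Derivation.map_smul, Y_smul_right, Y_smul_right, hv]
    module
  | mul c l v hv =>
    intro N u
    obtain ⟨B, hB⟩ := exists_Bdd u
    rw [T_X_mul, Y_add_right, Y_smul_right, Y_X_mul' _ hB, Y_X_mul' _ hB, Y_X_mul' _ hB,
      Y_X_mul' _ hB, map_sub, T_X_mul, map_sum, hv]
    have e1 : ∀ i : ℕ, T (ch (-(l + 1 : ℤ)) i • Y (-(l + 1 : ℤ) + N - i) (h c (i : ℤ) u) v) =
      ch (-(l + 1 : ℤ)) i • Y (-(l + 1 : ℤ) + N - i) (h c (i : ℤ) u) (T v) -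
      (((N : ℚ) * ch (-(l + 1 : ℤ)) i) • Y (-(l + 1 : ℤ) + (N - 1) - i) (h c (i : ℤ) u) v -
      ((l + 1 : ℕ) : ℚ) • ch (-(((l + 1 : ℕ) : ℤ) + 1)) i •
        Y (-(((l + 1 : ℕ) : ℤ) + 1) + N - i) (h c (i : ℤ) u) v) := by
      intro i
      rw [Derivation.map_smul, hv, smul_sub]
      congr 1
      have e2 : -(l + 1 : ℤ) + N - i - 1 = -(l + 1 : ℤ) + (N - 1) - i := by ring
      have e3 : -(((l + 1 : ℕ) : ℤ) + 1) + N - i = -(l + 1 : ℤ) + (N - 1) - i := by
        push_cast; ring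
      rw [e2, e3, smul_smul, smul_smul, ← sub_smul]
      congr 1
      have e4 := ch_pred (-(l + 1 : ℤ)) i
      have e5 : (-(l + 1 : ℤ) - 1) = -(((l + 1 : ℕ) : ℤ) + 1) := by push_cast; ring
      rw [e5] at e4
      push_cast at e4 ⊢
      linear_combination (-1 : ℚ) * e4
    simp only [e1]
    rw [Finset.sum_sub_distrib, Finset.sum_sub_distrib, ← Finset.smul_sum]
    simp only [mul_smul]
    rw [← Finset.smul_sum]
    have e6 : X (c, l) * (Y N u (T v) - (N : ℚ) • Y (N - 1) u v) =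
      X (c, l) * Y N u (T v) - (N : ℚ) • (X (c, l) * Y (N - 1) u v) := by
      rw [mul_sub, mul_smul_comm]
    rw [e6]
    module

end Pool.Agent.H75
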