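import Pool.Agent.H75.Comm

set_option autoImplicit false

namespace Pool.Agent.H75

open MvPolynomial

theorem Y_zero_right (n : ℤ) (a : V) : Y n a 0 = 0 := by
  have := Y_smul_right n 0 a 0
  simpa using this

theorem Y_zero_left (n : ℤ) (b : V) : Y n 0 b = 0 := by
  have := Y_smul_left n 0 0 b
  simpa using this

theorem Y_neg_one_one (a : V) : Y (-1) a 1 = a := by
  rw [Y_one_right, if_pos (by norm_num)]
  simpa using Td_zero a

theorem Y_nonneg_one {n : ℤ} (hn : 0 ≤ n) (a : V) : Y n a 1 = 0 := by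
  rw [Y_one_right, if_neg (by omega)]

/-- vacuum axiom -/
theorem Y_one_left (b : V) : ∀ n : ℤ, Y n 1 b = if n = -1 then b else 0 := by
  induction b using V_induction with
  | one =>
    intro n
    rw [Y_one_right]
    split_ifs with h1 h2 h2
    · subst h2; simpa using Td_zero 1
    · apply Td_one; omega
    · omega
    · rfl
  | add v w hv hw =>
    intro n
    rw [Y_add_right, hv, hw]
    split_ifs <;> simp
  | smul r v hv =>
    intro n
    rw [Y_smul_right, hv]
    split_ifs <;> simp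
  | mul c l v hv =>
    intro n
    rw [Y_X_mul' n Bdd.one, hv]
    split_ifs <;> simp

theorem sum_bound_indep {M : Type*} [AddCommMonoid M] (f : ℕ → M) {B B' : ℕ}
    (hB : ∀ i, B ≤ i → f i = 0) (hB' : ∀ i, B' ≤ i → f i = 0) :
    ∑ i ∈ Finset.range B, f i = ∑ i ∈ Finset.range B', f i := by
  have h1 : ∀ {C D : ℕ}, C ≤ D → (∀ i, C ≤ i → f i = 0) →
      ∑ i ∈ Finset.range C, f i = ∑ i ∈ Finset.range D, f i := by
    intro C D hCD hC
    apply Finset.sum_subset
    · intro x hx; simp at hx ⊢; omega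
    · intro x _ hx; apply hC; simpa using hx
  rcases le_total B B' with hh | hh
  · exact h1 hh hB
  · exact (h1 hh hB').symm

/-- Commutation of a mode with the action on the vacuum, positive modes. -/
theorem comm_h_one (b : Bool) (p : ℕ) (hp : 0 < p) :
    ∀ (k : ℕ) (a : V) (B : ℕ), Bdd B a → h b (p : ℤ) (Y (-(k + 1 : ℤ)) a 1) =
      ∑ i ∈ Finset.range B, ch p i • Y (p + -(k + 1 : ℤ) - i) (h b (i : ℤ) a) 1 := by
  intro k
  induction k with
  | zero =>
    intro a B hB
    have e0 : (-(((0 : ℕ) : ℤ) + 1)) = (-1 : ℤ) := by norm_num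
    rw [e0, Y_neg_one_one]
    have e1 : ∀ i : ℕ, i ≠ p → ch p i • Y (p + (-1 : ℤ) - i) (h b (i : ℤ) a) 1 = 0 := by
      intro i hi
      rcases lt_or_gt_of_ne hi with hlt | hgt
      · rw [Y_nonneg_one (by omega), smul_zero]
      · rw [ch_nat, Nat.choose_eq_zero_of_lt hgt]; simp
    have e2 : ch p p • Y (p + (-1 : ℤ) - p) (h b (p : ℤ) a) 1 = h b (p : ℤ) a := by
      rw [ch_nat, Nat.choose_self]
      have : ((p : ℤ) + (-1) - p) = -1 := by ring
      rw [this, Y_neg_one_one]; simp
    by_cases hpB : p < B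
    · rw [Finset.sum_eq_single_of_mem p (Finset.mem_range.mpr hpB) (fun i _ hi => e1 i hi), e2]
    · rw [hB p (by omega) b, Finset.sum_eq_zero]
      intro i hi
      apply e1
      rw [Finset.mem_range] at hi
      omega
  | succ k ih =>
    intro a B hB
    have e0 : ((k : ℚ) + 1) ≠ 0 := by positivity
    have e1 : ((k : ℚ) + 1) • Y (-((k + 1 : ℕ) + 1 : ℤ)) a 1 = Y (-(k + 1 : ℤ)) (T a) 1 := by
      rw [Y_T_left_one]
      have : (-(k + 1 : ℤ) - 1) = -(((k + 1 : ℕ) : ℤ) + 1) := by push_cast; ring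
      rw [this]
      congr 1
      push_cast; ring
    have e2 : ((k : ℚ) + 1) • h b (p : ℤ) (Y (-((k + 1 : ℕ) + 1 : ℤ)) a 1) =
        ((k : ℚ) + 1) • ∑ i ∈ Finset.range B,
          ch p i • Y (p + -((k + 1 : ℕ) + 1 : ℤ) - i) (h b (i : ℤ) a) 1 := by
      rw [← map_smul, e1, ih _ _ hB.T']
      have := sum_T (fun N => (YL N).flip 1) (fun N u => Y_T_left_one N u) hB b p (-(k + 1 : ℤ))
      simp only [LinearMap.flip_apply, YL_apply] at this
      rw [this]
      have e3 : (-(k + 1 : ℤ) - 1) = -(((k + 1 : ℕ) : ℤ) + 1) := by push_cast; ring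
      rw [e3]
      congr 1
      push_cast; ring
    exact smul_right_injective _ e0 e2

/-- Commutator formula for a mode and a vertex operator. -/
theorem comm_h_pos (b : Bool) (p : ℕ) (hp : 0 < p) (v : V) :
    ∀ (n : ℤ) (a : V) (B : ℕ), Bdd B a → h b (p : ℤ) (Y n a v) = Y n a (h b (p : ℤ) v) +
      ∑ i ∈ Finset.range B, ch p i • Y (p + n - i) (h b (i : ℤ) a) v := by
  induction v using V_induction with
  | one =>
    intro n a B hB
    rw [h_nonneg_one b p (by positivity), Y_zero_right, zero_add]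
    rcases lt_or_ge n 0 with hn | hn
    · obtain ⟨k, rfl⟩ : ∃ s : ℕ, n = -(s + 1 : ℤ) := ⟨(-n - 1).toNat, by omega⟩
      exact comm_h_one b p hp k a B hB
    · rw [Y_nonneg_one hn, map_zero]
      symm
      apply Finset.sum_eq_zero
      intro i _
      rcases lt_or_ge p i with hi | hi
      · rw [ch_nat, Nat.choose_eq_zero_of_lt hi]; simp
      · rw [Y_nonneg_one (by omega), smul_zero]
  | add v w hv hw =>
    intro n a B hB
    rw [Y_add_right, map_add, hv n a B hB, hw n a B hB, map_add, Y_add_right]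
    simp only [Y_add_right, smul_add, Finset.sum_add_distrib]
    abel
  | smul r v hv =>
    intro n a B hB
    rw [Y_smul_right, map_smul, hv n a B hB, map_smul, Y_smul_right, smul_add, Finset.smul_sum]
    congr 1
    apply Finset.sum_congr rfl
    intro i _
    rw [Y_smul_right, smul_comm]
  | mul c l v hv =>
    intro n a B hB
    have e1 : h b (p : ℤ) (X (c, l) * v) = X (c, l) * h b (p : ℤ) v +
      (if c = !b ∧ p = l + 1 then (p : ℚ) else 0) • v := by rw [h_nat, an_X_mul]
    have e1' : ∀ w : V, h b (p : ℤ) (X (c, l) * w) = X (c, l) * h b (p : ℤ) w +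
      (if c = !b ∧ p = l + 1 then (p : ℚ) else 0) • w := by intro w; rw [h_nat, an_X_mul]
    rw [Y_X_mul' n hB, map_sub, e1', map_sum, e1, Y_add_right, Y_smul_right, Y_X_mul' n hB,
      hv n a B hB]
    have e2 : ∀ i : ℕ, h b (p : ℤ) (ch (-(l + 1 : ℤ)) i • Y (-(l + 1 : ℤ) + n - i) (h c (i : ℤ) a) v) =
        ch (-(l + 1 : ℤ)) i • Y (-(l + 1 : ℤ) + n - i) (h c (i : ℤ) a) (h b (p : ℤ) v) +
        ∑ j ∈ Finset.range B, (ch (-(l + 1 : ℤ)) i * ch p j) •
          Y (p + (-(l + 1 : ℤ)) + n - i - j) (h b (j : ℤ) (h c (i : ℤ) a)) v := by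
      intro i
      rw [map_smul, hv _ _ B (hB.hmode c i), smul_add, Finset.smul_sum]
      congr 1
      apply Finset.sum_congr rfl
      intro j _
      rw [smul_smul]
      congr 2
      ring
    have e3 : ∀ i : ℕ, ch p i • Y (p + n - i) (h b (i : ℤ) a) (X (c, l) * v) =
        ch p i • (X (c, l) * Y (p + n - i) (h b (i : ℤ) a) v) -
        ∑ j ∈ Finset.range B, (ch (-(l + 1 : ℤ)) j * ch p i) •
          Y (p + (-(l + 1 : ℤ)) + n - j - i) (h b (i : ℤ) (h c (j : ℤ) a)) v := by
      intro i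
      rw [Y_X_mul' _ (hB.hmode b i), smul_sub, Finset.smul_sum]
      congr 1
      apply Finset.sum_congr rfl
      intro j _
      rw [smul_smul, h_nat_comm, mul_comm (ch p i)]
      congr 2
      ring
    simp only [e2, e3]
    rw [Finset.sum_add_distrib, Finset.sum_sub_distrib, Finset.sum_comm, mul_add, Finset.mul_sum]
    simp only [mul_smul_comm]
    abel

/-- Commutator formula for an arbitrary mode `h b p` and a vertex operator. -/
theorem comm_h (b : Bool) (p : ℤ) (n : ℤ) {a : V} {B : ℕ} (hB : Bdd B a) (v : V) :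
    h b p (Y n a v) = Y n a (h b p v) +
      ∑ i ∈ Finset.range B, ch p i • Y (p + n - i) (h b (i : ℤ) a) v := by
  rcases lt_trichotomy p 0 with hp | hp | hp
  · obtain ⟨l, rfl⟩ : ∃ s : ℕ, p = -(s + 1 : ℤ) := ⟨(-p - 1).toNat, by omega⟩
    rw [h_neg, h_neg, Y_X_mul' n hB]
    abel
  · subst hp
    rw [h_zero, LinearMap.zero_apply, LinearMap.zero_apply, Y_zero_right, zero_add]
    symm
    apply Finset.sum_eq_zero
    intro i _
    rcases i with _ | i
    · simp [h_zero, Y_zero_left]
    · rw [ch_zero_succ, zero_smul]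
  · obtain ⟨k, rfl⟩ : ∃ s : ℕ, p = (s : ℤ) := ⟨p.toNat, by omega⟩
    exact comm_h_pos b k (by omega) v n a B hB

/-- truncation -/
theorem trunc (b : V) : ∀ a : V, ∃ N : ℤ, ∀ n, N ≤ n → Y n a b = 0 := by
  induction b using V_induction with
  | one => exact fun a => ⟨0, fun n hn => Y_nonneg_one hn a⟩
  | add v w hv hw =>
    intro a
    obtain ⟨N, hN⟩ := hv a
    obtain ⟨N', hN'⟩ := hw a
    refine ⟨max N N', fun n hn => ?_⟩
    rw [Y_add_right, hN n ((le_max_left _ _).trans hn), hN' n ((le_max_right _ _).trans hn), add_zero]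
  | smul r v hv =>
    intro a
    obtain ⟨N, hN⟩ := hv a
    exact ⟨N, fun n hn => by rw [Y_smul_right, hN n hn, smul_zero]⟩
  | mul c l v hv =>
    intro a
    obtain ⟨B, hB⟩ := exists_Bdd a
    obtain ⟨N, hN⟩ := hv a
    choose M hM using fun i : ℕ => hv (h c (i : ℤ) a)
    obtain ⟨K, hK⟩ : ∃ K : ℤ, ∀ i ∈ Finset.range B, M i + (l + 1) + i ≤ K := by
      obtain ⟨K, hK⟩ := ((Finset.range B).image fun i : ℕ => M i + (l + 1) + i).exists_le
      exact ⟨K, fun i hi => hK _ (Finset.mem_image_of_mem _ hi)⟩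
    refine ⟨max N K, fun n hn => ?_⟩
    rw [Y_X_mul' n hB, hN n ((le_max_left _ _).trans hn), mul_zero, zero_sub, neg_eq_zero]
    apply Finset.sum_eq_zero
    intro i hi
    rw [hM i, smul_zero]
    have h1 := hK i hi
    have h2 := (le_max_right N K).trans hn
    omega

end Pool.Agent.H75
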