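import Pool.Agent.H75.Integral

set_option autoImplicit false

namespace Pool.Agent.H75

open MvPolynomial

/-! ### Elements with unbounded denominators -/

/-- `aa c j` is the product of `X(c,4i+2)^2/2` for `i < j`. -/
noncomputable def aa (c : Bool) : ℕ → V
  | 0 => 1
  | j + 1 => (1 / 2 : ℚ) • (X (c, 4 * j + 2) * X (c, 4 * j + 2)) * aa c j

theorem aa_mem (c : Bool) (j : ℕ) : aa c j ∈ R := by
  induction j with
  | zero => exact R.one_mem
  | succ j ih =>
    refine R.mul_mem (sq_mem (c, 4 * j + 2) ?_) ih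
    unfold inS
    omega

theorem an_aa (b c : Bool) (k j : ℕ) (hk : 4 * j ≤ k + 1) : an b (k + 1) (aa c j) = 0 := by
  induction j with
  | zero => rw [aa, an_one]
  | succ j ih =>
    rw [aa, smul_mul_assoc, mul_assoc, map_smul, an_X_mul, an_X_mul, ih (by omega)]
    have : ¬ (c = !b ∧ k + 1 = 4 * j + 2 + 1) := by
      rintro ⟨_, h2⟩
      omega
    simp only [if_neg this]
    simp

theorem Bf_aa (j : ℕ) : Bf (aa false (j + 1)) (aa true (j + 1)) =
    ((4 * (j : ℚ) + 3) ^ 2 / 2) * Bf (aa false j) (aa true j) := by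
  have h0 : an false (4 * j + 2 + 1) (aa true j) = 0 := an_aa _ _ _ _ (by omega)
  have h1 : ∀ w : V, an false (4 * j + 2 + 1) (X (true, 4 * j + 2) * w) =
      X (true, 4 * j + 2) * an false (4 * j + 2 + 1) w + ((4 * j + 2 + 1 : ℕ) : ℚ) • w := by
    intro w
    rw [an_X_mul]
    simp
  have h2 : h false ((4 * j + 2 + 1 : ℕ) : ℤ) (h false ((4 * j + 2 + 1 : ℕ) : ℤ) (aa true (j + 1))) =
      ((4 * (j : ℚ) + 3) ^ 2) • aa true j := by
    have e1 : an false (4 * j + 2 + 1) (X (true, 4 * j + 2) * aa true j) =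
        ((4 * j + 2 + 1 : ℕ) : ℚ) • aa true j := by
      rw [h1, h0, mul_zero, zero_add]
    have e2 : an false (4 * j + 2 + 1) (X (true, 4 * j + 2) * (X (true, 4 * j + 2) * aa true j)) =
        (2 * ((4 * j + 2 + 1 : ℕ) : ℚ)) • (X (true, 4 * j + 2) * aa true j) := by
      rw [h1, e1, mul_smul_comm, two_mul, add_smul]
    rw [h_nat, aa, smul_mul_assoc, mul_assoc, map_smul, e2, map_smul, map_smul, e1, smul_smul,
      smul_smul]
    congr 1
    push_cast
    ring
  have h3 : ∀ w : V, Bf (aa false (j + 1)) w =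
      (1 / 2) * Bf (aa false j) (h false ((4 * j + 2 + 1 : ℕ) : ℤ) (h false ((4 * j + 2 + 1 : ℕ) : ℤ) w)) := by
    intro w
    rw [aa, smul_mul_assoc, mul_assoc, map_smul, LinearMap.smul_apply, Bf_X_mul, Bf_X_mul, neg_neg,
      smul_eq_mul]
    push_cast
    rfl
  rw [h3, h2, map_smul, smul_eq_mul]
  ring

theorem Bf_aa_odd (j : ℕ) : ∃ n : ℕ, n % 2 = 1 ∧ (2 : ℚ) ^ j * Bf (aa false j) (aa true j) = n := by
  induction j with
  | zero => exact ⟨1, rfl, by rw [aa, aa, Bf_one, vev_one]; norm_num⟩
  | succ j ih =>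
    obtain ⟨n, hn, hn2⟩ := ih
    refine ⟨(4 * j + 3) ^ 2 * n, ?_, ?_⟩
    · rw [Nat.mul_mod, Nat.pow_mod]
      have : (4 * j + 3) % 2 = 1 := by omega
      rw [this, hn]
    · rw [Bf_aa, pow_succ]
      push_cast
      rw [← hn2]; ring

theorem unbounded (m : ℕ) (hm : 0 < m) : ∃ a ∈ R, ∃ b ∈ R, ∀ z : ℤ, (m : ℚ) * Bf a b ≠ z := by
  refine ⟨aa false m, aa_mem _ _, aa true m, aa_mem _ _, ?_⟩
  intro z hz
  obtain ⟨n, hn, hn2⟩ := Bf_aa_odd m
  have h1 : (2 : ℚ) ^ m * z = m * n := by
    rw [← hz, ← hn2]; ring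
  have h2 : (2 : ℤ) ^ m * z = m * n := by exact_mod_cast h1
  have h3 : ((2 ^ m : ℕ) : ℤ) ∣ ((m * n : ℕ) : ℤ) := ⟨z, by push_cast; rw [h2]⟩
  have h4 : 2 ^ m ∣ m * n := by exact_mod_cast h3
  have h5 : Nat.Coprime (2 ^ m) n := by
    apply Nat.Coprime.pow_left
    rw [Nat.coprime_two_left]
    exact Nat.odd_iff.mpr hn
  have h6 : 2 ^ m ∣ m := h5.dvd_of_dvd_mul_right h4
  have h7 := Nat.le_of_dvd hm h6
  have h8 : m < 2 ^ m := Nat.lt_two_pow_self
  omega

/-! ### The integral form is spanned by a basis -/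

/-- exponent of two in the denominator of a basis monomial -/
def ee (m : Idx →₀ ℕ) : ℕ := m.sum fun k n => if inS k.2 then n / 2 else 0

theorem ee_add_disjoint {m m' : Idx →₀ ℕ} (hd : Disjoint m.support m'.support) :
    ee (m + m') = ee m + ee m' := by
  classical
  rw [ee, ee, ee, Finsupp.sum, Finsupp.support_add_eq hd, Finset.sum_union hd]
  congr 1
  · apply Finset.sum_congr rfl
    intro k hk
    have : m' k = 0 := by
      have := Finset.disjoint_left.mp hd hk
      simpa using this
    rw [Finsupp.add_apply, this, add_zero]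
  · apply Finset.sum_congr rfl
    intro k hk
    have : m k = 0 := by
      have := Finset.disjoint_right.mp hd hk
      simpa using this
    rw [Finsupp.add_apply, this, zero_add]

theorem ee_single (k : Idx) (n : ℕ) : ee (Finsupp.single k n) = if inS k.2 then n / 2 else 0 := by
  rw [ee, Finsupp.sum_single_index]; simp

/-- basis monomial -/
noncomputable def bm (m : Idx →₀ ℕ) : V := ((1 / 2 : ℚ) ^ ee m) • monomial m 1

theorem bm_add_disjoint {m m' : Idx →₀ ℕ} (hd : Disjoint m.support m'.support) :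
    bm (m + m') = bm m * bm m' := by
  rw [bm, bm, bm, ee_add_disjoint hd, smul_mul_smul_comm, monomial_mul, pow_add, mul_one]

theorem bm_single (k : Idx) (n : ℕ) : bm (Finsupp.single k n) =
    if inS k.2 then ((1 / 2 : ℚ) • (X k * X k)) ^ (n / 2) * (X k) ^ (n % 2) else (X k) ^ n := by
  rw [bm, ee_single]
  have h1 : (monomial (Finsupp.single k n) (1 : ℚ) : V) = X k ^ n := by rw [X_pow_eq_monomial]
  rw [h1]
  split_ifs
  · rw [smul_pow, smul_mul_assoc, ← pow_two, ← pow_mul, ← pow_add, Nat.div_add_mod]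
  · simp

theorem bm_mem (m : Idx →₀ ℕ) : bm m ∈ R := by
  classical
  induction m using Finsupp.induction with
  | zero =>
    have : bm 0 = 1 := by simp [bm, ee]
    rw [this]; exact R.one_mem
  | single_add k n f hk hn ih =>
    rw [bm_add_disjoint]
    · refine R.mul_mem ?_ ih
      rw [bm_single]
      split_ifs with hS
      · exact R.mul_mem (R.pow_mem (sq_mem k hS) _) (R.pow_mem (X_mem k) _)
      · exact R.pow_mem (X_mem k) _
    · rw [Finsupp.support_single_ne_zero _ hn, Finset.disjoint_singleton_left]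
      exact hk

theorem ee_add_single (m : Idx →₀ ℕ) (k : Idx) (n : ℕ) :
    ee (m + Finsupp.single k n) = ee (m.erase k) + if inS k.2 then (m k + n) / 2 else 0 := by
  classical
  have h1 : m + Finsupp.single k n = m.erase k + Finsupp.single k (m k + n) := by
    ext j
    by_cases hj : j = k
    · subst hj; simp
    · simp [Finsupp.single_apply, Finsupp.erase_ne hj, Ne.symm hj]
  rw [h1, ee_add_disjoint, ee_single]
  by_cases hz : m k + n = 0
  · rw [hz]; simp
  · rw [Finsupp.support_single_ne_zero _ hz, Finset.disjoint_singleton_right]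
    simp

theorem ee_eq (m : Idx →₀ ℕ) (k : Idx) : ee m = ee (m.erase k) + if inS k.2 then (m k) / 2 else 0 := by
  have := ee_add_single m k 0
  simpa using this

/-- The rational basis of `V` spanning the integral form. -/
noncomputable def bas : Module.Basis (Idx →₀ ℕ) ℚ V :=
  (MvPolynomial.basisMonomials Idx ℚ).unitsSMul
    (fun m => Units.mk0 ((1 / 2 : ℚ) ^ ee m) (by positivity))

theorem bas_apply (m : Idx →₀ ℕ) : bas m = bm m := by
  rw [bas, Module.Basis.unitsSMul_apply, bm]
  simp [Units.smul_def]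

theorem R_eq_span : R.toAddSubgroup = AddSubgroup.closure (Set.range bas) := by
  apply le_antisymm
  · intro x hx
    have hx' : x ∈ R := hx
    clear hx
    rw [R, Subring.mem_closure_iff] at hx'
    have key : ∀ y ∈ Submonoid.closure gens, ∃ (z : ℤ) (m : Idx →₀ ℕ), y = (z : ℚ) • bm m := by
      intro y hy
      induction hy using Submonoid.closure_induction_left with
      | one => exact ⟨1, 0, by simp [bm, ee]⟩
      | mul_left x hx y _ ih =>
        obtain ⟨z, m, rfl⟩ := ih
        rcases hx with ⟨k, rfl⟩ | ⟨k, hk, rfl⟩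
        · have h1 : ee m ≤ ee (m + Finsupp.single k 1) := by
            rw [ee_add_single, ee_eq m k]
            split_ifs <;> omega
          refine ⟨z * 2 ^ (ee (m + Finsupp.single k 1) - ee m), m + Finsupp.single k 1, ?_⟩
          rw [bm, bm, mul_smul_comm, mul_smul_comm, X, monomial_mul, mul_one, smul_smul, smul_smul,
            add_comm (Finsupp.single k 1) m]
          congr 1
          obtain ⟨d, hd⟩ := Nat.exists_eq_add_of_le h1
          rw [hd, Nat.add_sub_cancel_left, pow_add]
          push_cast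
          have : (2 : ℚ) ^ d * (1 / 2) ^ d = 1 := by rw [← mul_pow]; norm_num
          linear_combination (-(z : ℚ) * (1 / 2) ^ ee m) * this
        · have h1 : ee (m + Finsupp.single k 2) = ee m + 1 := by
            rw [ee_add_single, ee_eq m k, if_pos hk, if_pos hk]
            omega
          refine ⟨z, m + Finsupp.single k 2, ?_⟩
          rw [bm, bm, h1, ← pow_two, X_pow_eq_monomial, mul_smul_comm, smul_mul_smul_comm, monomial_mul,
            mul_one, add_comm (Finsupp.single k 2) m, pow_succ, mul_comm (1 / 2 : ℚ)]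
    induction hx' using AddSubgroup.closure_induction with
    | mem y hy =>
      obtain ⟨z, m, rfl⟩ := key y hy
      rw [Int.cast_smul_eq_zsmul]
      apply AddSubgroup.zsmul_mem
      apply AddSubgroup.subset_closure
      exact ⟨m, bas_apply m⟩
    | zero => exact AddSubgroup.zero_mem _
    | add x y _ _ h1 h2 => exact AddSubgroup.add_mem _ h1 h2
    | neg x _ h1 => exact AddSubgroup.neg_mem _ h1
  · rw [AddSubgroup.closure_le]
    rintro _ ⟨m, rfl⟩
    rw [bas_apply]
    exact bm_mem m

end Pool.Agent.H75
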