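import Mathlib

/-!
# The renewal equation behind the mean size of `5x+1` trees
-/

namespace Pool.Agent.H75.FiveMean

open Finset Filter Topology

/-- The mean number (over all targets) of integers at distance `k` and relative size `≤ x`. -/
noncomputable def f : ℕ → ℝ → ℝ
  | 0, x => if 1 ≤ x then 1 else 0
  | k + 1, x => f k (x / 2) + f k (5 * x / 2) / 5

/-- the Laplace exponent -/
noncomputable def rho (s : ℝ) : ℝ := (1 / 2 : ℝ) ^ s + (5 / 2 : ℝ) ^ s / 5

theorem f_nonneg (k : ℕ) : ∀ x : ℝ, 0 ≤ f k x := by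
  induction k with
  | zero => intro x; unfold f; split_ifs <;> norm_num
  | succ k ih =>
    intro x
    unfold f
    have := ih (x / 2)
    have := ih (5 * x / 2)
    positivity

theorem rpow_step (s x : ℝ) (hx : 0 < x) :
    (x / 2) ^ s + (5 * x / 2) ^ s / 5 = rho s * x ^ s := by
  unfold rho
  rw [show x / 2 = (1 / 2) * x by ring, show 5 * x / 2 = (5 / 2) * x by ring,
    Real.mul_rpow (by norm_num) hx.le, Real.mul_rpow (by norm_num) hx.le]
  ring

theorem f_le (s : ℝ) (hs : 0 ≤ s) (k : ℕ) : ∀ x : ℝ, 0 < x → f k x ≤ rho s ^ k * x ^ s := by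
  induction k with
  | zero =>
    intro x hx
    unfold f
    split_ifs with h
    · simpa using Real.one_le_rpow h hs
    · positivity
  | succ k ih =>
    intro x hx
    have h1 := ih (x / 2) (by positivity)
    have h2 := ih (5 * x / 2) (by positivity)
    have h3 := rpow_step s x hx
    unfold f
    calc f k (x / 2) + f k (5 * x / 2) / 5 ≤
        rho s ^ k * (x / 2) ^ s + rho s ^ k * (5 * x / 2) ^ s / 5 := by linarith
      _ = rho s ^ k * ((x / 2) ^ s + (5 * x / 2) ^ s / 5) := by ring
      _ = rho s ^ (k + 1) * x ^ s := by rw [h3]; ring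

theorem rho_pos (s : ℝ) : 0 < rho s := by unfold rho; positivity

theorem strictConvex : StrictConvexOn ℝ Set.univ rho := by
  have h1 : ∀ a : ℝ, 0 < a → a ≠ 1 → StrictConvexOn ℝ Set.univ (fun s : ℝ => a ^ s) := by
    intro a ha ha1
    refine ⟨convex_univ, ?_⟩
    intro x _ y _ hxy p q hp hq hpq
    have hl : Real.log a ≠ 0 := by
      intro h
      rcases Real.log_eq_zero.1 h with h | h | h
      · linarith
      · exact ha1 h
      · linarith
    have hne : Real.log a * x ≠ Real.log a * y := by
      intro h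
      exact hxy (mul_left_cancel₀ hl h)
    have := strictConvexOn_exp.2 (Set.mem_univ (Real.log a * x)) (Set.mem_univ (Real.log a * y))
      hne hp hq hpq
    simp only [smul_eq_mul] at this ⊢
    rw [Real.rpow_def_of_pos ha, Real.rpow_def_of_pos ha, Real.rpow_def_of_pos ha]
    have e : Real.log a * (p * x + q * y) = p * (Real.log a * x) + q * (Real.log a * y) := by ring
    rw [e]
    exact this
  have h2 := h1 (1 / 2) (by norm_num) (by norm_num)
  have h3 := h1 (5 / 2) (by norm_num) (by norm_num)
  refine ⟨convex_univ, ?_⟩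
  intro x hx y hy hxy p q hp hq hpq
  have a1 := h2.2 hx hy hxy hp hq hpq
  have a2 := h3.2 hx hy hxy hp hq hpq
  simp only [smul_eq_mul] at a1 a2 ⊢
  unfold rho
  linarith

theorem rho_one : rho 1 = 1 := by unfold rho; norm_num

theorem rho_zero : rho 0 = 6 / 5 := by unfold rho; norm_num

theorem rho_lt (η s : ℝ) (hη : rho η = 1) (h1 : η < s) (h2 : s < 1) : rho s < 1 := by
  have hd : 0 < 1 - η := by linarith
  have hp : 0 < (1 - s) / (1 - η) := div_pos (by linarith) hd
  have hq : 0 < (s - η) / (1 - η) := div_pos (by linarith) hd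
  have hpq : (1 - s) / (1 - η) + (s - η) / (1 - η) = 1 := by
    rw [← add_div, div_eq_one_iff_eq hd.ne']; ring
  have hne : η ≠ 1 := by intro h; linarith
  have := strictConvex.2 (Set.mem_univ η) (Set.mem_univ 1) hne hp hq hpq
  simp only [smul_eq_mul] at this
  rw [hη, rho_one] at this
  have e : (1 - s) / (1 - η) * η + (s - η) / (1 - η) * 1 = s := by field_simp; ring
  have e2 : (1 - s) / (1 - η) * 1 + (s - η) / (1 - η) * 1 = 1 := by field_simp; ring
  rw [e, e2] at this
  exact this

/-- lower bound -/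
theorem lower (η : ℝ) (h0 : 0 < η) (h1 : η < 1) (hη : rho η = 1) (x : ℝ) (hx : 0 < x) :
    Summable (fun k => f k x) ∧ x ^ η - 1 ≤ ∑' k, f k x := by
  set s := (η + 1) / 2 with hs
  have hs1 : η < s := by rw [hs]; linarith
  have hs2 : s < 1 := by rw [hs]; linarith
  have hr := rho_lt η s hη hs1 hs2
  have hr0 := rho_pos s
  have hsum : ∀ x : ℝ, 0 < x → Summable (fun k => f k x) := by
    intro x hx
    apply Summable.of_nonneg_of_le (fun k => f_nonneg k x) (fun k => f_le s (by linarith) k x hx)
    exact (summable_geometric_of_lt_one hr0.le hr).mul_right _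
  refine ⟨hsum x hx, ?_⟩
  have key : ∀ K : ℕ, ∀ x : ℝ, 0 < x →
      max (x ^ η - 1) 0 ≤ ∑ k ∈ range K, f k x + rho s ^ K * x ^ s := by
    intro K
    induction K with
    | zero =>
      intro x hx
      simp only [range_zero, sum_empty, zero_add, pow_zero, one_mul]
      apply max_le _ (by positivity)
      rcases le_total 1 x with h | h
      · have : x ^ η ≤ x ^ s := Real.rpow_le_rpow_of_exponent_le h hs1.le
        linarith
      · have : x ^ η ≤ 1 := Real.rpow_le_one hx.le h h0.le
        have : 0 < x ^ s := by positivity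
        linarith
    | succ K ih =>
      intro x hx
      have a1 := ih (x / 2) (by positivity)
      have a2 := ih (5 * x / 2) (by positivity)
      have a3 := rpow_step s x hx
      have a4 := rpow_step η x hx
      rw [hη, one_mul] at a4
      have hsplit : ∑ k ∈ range (K + 1), f k x = f 0 x +
          (∑ k ∈ range K, f k (x / 2) + (∑ k ∈ range K, f k (5 * x / 2)) / 5) := by
        rw [Finset.sum_range_succ', add_comm, Finset.sum_div, ← Finset.sum_add_distrib]
        rfl
      have hpow : rho s ^ (K + 1) * x ^ s =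
          rho s ^ K * (x / 2) ^ s + rho s ^ K * (5 * x / 2) ^ s / 5 := by
        rw [pow_succ, mul_assoc, ← a3]; ring
      rw [hsplit, hpow]
      have b1 := le_max_left ((x / 2) ^ η - 1) 0
      have b2 := le_max_left ((5 * x / 2) ^ η - 1) 0
      have b3 := le_max_right ((x / 2) ^ η - 1) 0
      have b4 := le_max_right ((5 * x / 2) ^ η - 1) 0
      apply max_le
      · rcases le_total 1 x with h | h
        · have : f 0 x = 1 := by unfold f; rw [if_pos h]
          rw [this]
          linarith
        · have c1 : x ^ η ≤ 1 := Real.rpow_le_one hx.le h h0.le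
          have c2 := f_nonneg 0 x
          linarith
      · have c2 := f_nonneg 0 x
        linarith
  have hlim : Tendsto (fun K : ℕ => ∑ k ∈ range K, f k x + rho s ^ K * x ^ s) atTop
      (𝓝 (∑' k, f k x + 0 * x ^ s)) :=
    ((hsum x hx).hasSum.tendsto_sum_nat).add
      ((tendsto_pow_atTop_nhds_zero_of_lt_one hr0.le hr).mul_const _)
  rw [zero_mul, add_zero] at hlim
  apply ge_of_tendsto' hlim
  intro K
  exact (le_max_left _ _).trans (key K x hx)

/-- upper bound -/
theorem upper (η : ℝ) (h0 : 0 < η) (h1 : η < 1) (hη : rho η = 1) :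
    ∃ C : ℝ, 0 < C ∧ ∀ x : ℝ, 0 < x → ∑' k, f k x ≤ C * x ^ η := by
  set s := (η + 1) / 2 with hs
  have hs1 : η < s := by rw [hs]; linarith
  have hs2 : s < 1 := by rw [hs]; linarith
  have hs0 : 0 < s := by linarith
  have hr := rho_lt η s hη hs1 hs2
  have hr0 := rho_pos s
  set D := 1 / (1 - rho s) with hD
  have hD0 : 0 < D := by apply div_pos one_pos; linarith
  have hD1 : D * (1 - rho s) = 1 := by
    rw [hD, one_div_mul_cancel]; linarith
  set C := (D + 5) * 2 ^ η with hC
  have hC0 : 0 < C := by positivity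
  have hhalf : ∀ u : ℝ, 1 / 2 ≤ u → u ≤ 1 → D * u ^ s ≤ C * u ^ η - 5 := by
    intro u hu hu1
    have hu0 : 0 < u := by linarith
    have a1 : u ^ s ≤ 1 := Real.rpow_le_one hu0.le hu1 hs0.le
    have a2 : (1 / 2 : ℝ) ^ η ≤ u ^ η := Real.rpow_le_rpow (by norm_num) hu h0.le
    have a3 : (2 : ℝ) ^ η * (1 / 2 : ℝ) ^ η = 1 := by
      rw [← Real.mul_rpow (by norm_num) (by norm_num)]; norm_num
    have a4 : D + 5 ≤ C * u ^ η := by
      calc D + 5 = (D + 5) * (2 ^ η * (1 / 2 : ℝ) ^ η) := by rw [a3, mul_one]
        _ = C * (1 / 2 : ℝ) ^ η := by rw [hC]; ring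
        _ ≤ C * u ^ η := mul_le_mul_of_nonneg_left a2 hC0.le
    have a5 : D * u ^ s ≤ D * 1 := mul_le_mul_of_nonneg_left a1 hD0.le
    linarith
  set φ : ℝ → ℝ := fun x => if x ≤ 1 then D * x ^ s else min (D * x ^ s) (C * x ^ η - 5) with hφ
  have φ1 : ∀ x : ℝ, 0 < x → φ x ≤ D * x ^ s := by
    intro x hx
    rw [hφ]; simp only
    split_ifs with h
    · exact le_rfl
    · exact min_le_left _ _
  have φ2 : ∀ x : ℝ, 1 / 2 ≤ x → φ x ≤ C * x ^ η - 5 := by
    intro x hx
    rw [hφ]; simp only
    split_ifs with h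
    · exact hhalf x hx h
    · exact min_le_right _ _
  have φ3 : ∀ x : ℝ, 0 < x → 0 ≤ φ x := by
    intro x hx
    rw [hφ]; simp only
    split_ifs with h
    · positivity
    · push Not at h
      apply le_min (by positivity)
      have a1 := hhalf 1 (by norm_num) le_rfl
      rw [Real.one_rpow, Real.one_rpow] at a1
      have a2 : 1 ≤ x ^ η := Real.one_le_rpow h.le h0.le
      nlinarith
  have φ4 : ∀ x : ℝ, 0 < x → φ x ≤ C * x ^ η := by
    intro x hx
    by_cases h : 1 / 2 ≤ x
    · have := φ2 x h; linarith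
    · push Not at h
      have a1 := φ1 x hx
      have a2 : x ^ s ≤ x ^ η := Real.rpow_le_rpow_of_exponent_ge hx (by linarith) hs1.le
      have a3 : D ≤ C := by
        have : (1 : ℝ) ≤ 2 ^ η := Real.one_le_rpow (by norm_num) h0.le
        rw [hC]; nlinarith
      calc φ x ≤ D * x ^ s := a1
        _ ≤ D * x ^ η := mul_le_mul_of_nonneg_left a2 hD0.le
        _ ≤ C * x ^ η := mul_le_mul_of_nonneg_right a3 (by positivity)
  have step : ∀ x : ℝ, 0 < x → f 0 x + φ (x / 2) + φ (5 * x / 2) / 5 ≤ φ x := by
    intro x hx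
    have a1 := φ1 (x / 2) (by positivity)
    have a2 := φ1 (5 * x / 2) (by positivity)
    have a3 := rpow_step s x hx
    have a4 := rpow_step η x hx
    rw [hη, one_mul] at a4
    have e1 : φ (x / 2) + φ (5 * x / 2) / 5 ≤ D * (rho s * x ^ s) := by
      rw [← a3]; linarith
    have hxs : 0 < x ^ s := by positivity
    have e2 : D * x ^ s - D * (rho s * x ^ s) = x ^ s := by
      calc D * x ^ s - D * (rho s * x ^ s) = (D * (1 - rho s)) * x ^ s := by ring
        _ = x ^ s := by rw [hD1, one_mul]
    have e3 : f 0 x ≤ x ^ s := by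
      have := f_le s hs0.le 0 x hx
      simpa using this
    have e4 : f 0 x + φ (x / 2) + φ (5 * x / 2) / 5 ≤ D * x ^ s := by linarith
    by_cases h : x ≤ 1
    · have : φ x = D * x ^ s := by rw [hφ]; simp only; rw [if_pos h]
      rw [this]; exact e4
    · have : φ x = min (D * x ^ s) (C * x ^ η - 5) := by rw [hφ]; simp only; rw [if_neg h]
      rw [this]
      push Not at h
      apply le_min e4
      have b1 := φ2 (x / 2) (by linarith)
      have b2 := φ2 (5 * x / 2) (by linarith)
      have b3 : f 0 x = 1 := by unfold f; rw [if_pos h.le]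
      rw [b3]
      have b4 : C * (x / 2) ^ η + C * (5 * x / 2) ^ η / 5 = C * x ^ η := by
        rw [← a4]; ring
      linarith
  have key : ∀ K : ℕ, ∀ x : ℝ, 0 < x → ∑ k ∈ range K, f k x ≤ φ x := by
    intro K
    induction K with
    | zero => intro x hx; simpa using φ3 x hx
    | succ K ih =>
      intro x hx
      have a1 := ih (x / 2) (by positivity)
      have a2 := ih (5 * x / 2) (by positivity)
      have hsplit : ∑ k ∈ range (K + 1), f k x = f 0 x +
          (∑ k ∈ range K, f k (x / 2) + (∑ k ∈ range K, f k (5 * x / 2)) / 5) := by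
        rw [Finset.sum_range_succ', add_comm, Finset.sum_div, ← Finset.sum_add_distrib]
        rfl
      rw [hsplit]
      have := step x hx
      linarith
  refine ⟨C, hC0, fun x hx => ?_⟩
  have hsum := (lower η h0 h1 hη x hx).1
  exact (hsum.tsum_le_of_sum_range_le (fun K => key K x hx)).trans (φ4 x hx)

end Pool.Agent.H75.FiveMean
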