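import Pool.Agent.H75.Vir

set_option autoImplicit false

namespace Pool.Agent.H75

open MvPolynomial

theorem neg_an_comm (k m : Idx) :
    (-(h k.1 ((k.2 + 1 : ℕ) : ℤ)) : Module.End ℚ V) * (-(h m.1 ((m.2 + 1 : ℕ) : ℤ))) =
    (-(h m.1 ((m.2 + 1 : ℕ) : ℤ))) * (-(h k.1 ((k.2 + 1 : ℕ) : ℤ)) : Module.End ℚ V) := by
  apply LinearMap.ext
  intro v
  change -(h k.1 ((k.2 + 1 : ℕ) : ℤ) (-(h m.1 ((m.2 + 1 : ℕ) : ℤ) v))) =
    -(h m.1 ((m.2 + 1 : ℕ) : ℤ) (-(h k.1 ((k.2 + 1 : ℕ) : ℤ) v)))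
  rw [map_neg, map_neg, neg_neg, neg_neg]
  exact h_nat_comm _ _ _ _ _

noncomputable def theta : V →ₐ[ℚ] Module.End ℚ V := Classical.choose (exists_algHom
  (fun k : Idx => (-(h k.1 ((k.2 + 1 : ℕ) : ℤ)) : Module.End ℚ V)) neg_an_comm)

theorem theta_X (k : Idx) : theta (X k) = -(h k.1 ((k.2 + 1 : ℕ) : ℤ)) :=
  Classical.choose_spec (exists_algHom
    (fun k : Idx => (-(h k.1 ((k.2 + 1 : ℕ) : ℤ)) : Module.End ℚ V)) neg_an_comm) k

/-- The contravariant form. -/
noncomputable def Bf : LinearMap.BilinForm ℚ V :=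
  LinearMap.mk₂ ℚ (fun u v => vev (theta u v)) (by intro u u' v; simp) (by intro r u v; simp)
    (by intro u v v'; simp) (by intro r u v; simp)

theorem Bf_apply (u v : V) : Bf u v = vev (theta u v) := rfl

theorem Bf_one (v : V) : Bf 1 v = vev v := by rw [Bf_apply, map_one]; rfl

theorem Bf_X_mul (c : Bool) (l : ℕ) (u v : V) :
    Bf (X (c, l) * u) v = - Bf u (h c (l + 1 : ℤ) v) := by
  have : theta (X (c, l) * u) = theta (u * X (c, l)) := by rw [mul_comm]
  rw [Bf_apply, Bf_apply, this, map_mul, theta_X, Module.End.mul_apply, LinearMap.neg_apply,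
    map_neg, map_neg]
  push_cast
  rfl

theorem Bf_contra (b : Bool) (p : ℤ) (u : V) : ∀ v : V, Bf (h b p u) v = - Bf u (h b (-p) v) := by
  rcases lt_trichotomy p 0 with hp | hp | hp
  · intro v
    obtain ⟨l, rfl⟩ : ∃ s : ℕ, p = -(s + 1 : ℤ) := ⟨(-p - 1).toNat, by omega⟩
    rw [h_neg, Bf_X_mul, neg_neg]
  · intro v; subst hp; simp [h_zero]
  · obtain ⟨l, rfl⟩ : ∃ s : ℕ, p = (s + 1 : ℤ) := ⟨(p - 1).toNat, by omega⟩
    induction u using V_induction with
    | one =>
      intro v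
      rw [h_nonneg_one b _ (by omega), map_zero, LinearMap.zero_apply, Bf_one, h_neg, vev_X_mul, neg_zero]
    | add u w hu hw =>
      intro v
      rw [map_add, map_add, LinearMap.add_apply, hu, hw, map_add, LinearMap.add_apply]; ring
    | smul r u hu =>
      intro v
      rw [map_smul, map_smul, LinearMap.smul_apply, hu, map_smul, LinearMap.smul_apply, smul_neg]
    | mul c k u hu =>
      intro v
      have e1 := h_comm b c (l + 1 : ℤ) (-(k + 1 : ℤ)) u
      rw [h_neg, h_neg] at e1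
      rw [e1, map_add, LinearMap.add_apply, Bf_X_mul, hu, neg_neg, Bf_X_mul, map_smul,
        LinearMap.smul_apply, neg_neg, h_comm c b (k + 1 : ℤ) (-(l + 1 : ℤ)) v, map_add, map_smul]
      congr 2
      by_cases h1 : c = !b
      · have h2 : b = !c := (bool_swap b c).mpr h1
        by_cases h3 : (l : ℤ) = k
        · have h4 : ((l : ℤ) + 1 + -(k + 1 : ℤ) = 0) := by omega
          have h5 : ((k : ℤ) + 1 + -(l + 1 : ℤ) = 0) := by omega
          rw [if_pos ⟨h1, h4⟩, if_pos ⟨h2, h5⟩, h3]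
        · have h4 : ¬ ((l : ℤ) + 1 + -(k + 1 : ℤ) = 0) := by omega
          have h5 : ¬ ((k : ℤ) + 1 + -(l + 1 : ℤ) = 0) := by omega
          rw [if_neg (fun hh => h4 hh.2), if_neg (fun hh => h5 hh.2)]
      · have h2 : ¬ (b = !c) := fun hh => h1 ((bool_swap b c).mp hh)
        rw [if_neg (fun hh => h1 hh.1), if_neg (fun hh => h2 hh.1)]

theorem Bf_one_right (v : V) : Bf v 1 = vev v := by
  induction v using V_induction with
  | one => rw [Bf_one]
  | add v w hv hw => rw [map_add, LinearMap.add_apply, hv, hw, map_add]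
  | smul r v hv => rw [map_smul, LinearMap.smul_apply, hv, map_smul]
  | mul c l v hv => rw [Bf_X_mul, h_nonneg_one c _ (by omega), map_zero, neg_zero, vev_X_mul]

theorem Bf_symm (u : V) : ∀ v : V, Bf u v = Bf v u := by
  induction u using V_induction with
  | one => intro v; rw [Bf_one, Bf_one_right]
  | add u w hu hw => intro v; rw [map_add, LinearMap.add_apply, hu, hw, map_add]
  | smul r u hu => intro v; rw [map_smul, LinearMap.smul_apply, hu, map_smul]
  | mul c l u hu =>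
    intro v
    rw [Bf_X_mul, hu, Bf_contra, neg_neg, h_neg]

theorem Bf_nondeg (d : ℕ) : ∀ u : V, Fil d u → (∀ v, Bf u v = 0) → u = 0 := by
  have fin : ∀ u : V, (∀ (i : ℕ) (b : Bool), h b (i : ℤ) u = 0) → (∀ v, Bf u v = 0) → u = 0 := by
    intro u h1 h2
    have h3 := eq_vev_of_ann (v := u) (fun b p hp => by
      obtain ⟨i, rfl⟩ : ∃ j : ℕ, p = (j : ℤ) := ⟨p.toNat, by omega⟩
      exact h1 i b)
    have h4 := h2 1
    rw [Bf_one_right] at h4
    rw [h3, h4, zero_smul]
  induction d with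
  | zero => intro u hu h2; exact fin u hu h2
  | succ d ih =>
    intro u hu h2
    apply fin u _ h2
    intro i b
    apply ih _ (hu i b)
    intro v
    rw [Bf_contra, h2, neg_zero]

/-- Divided powers of `L(1)`. -/
noncomputable def Ld (i : ℕ) : V →ₗ[ℚ] V := ((i.factorial : ℚ)⁻¹) • (Llin 1) ^ i

theorem Ld_zero (v : V) : Ld 0 v = v := by simp [Ld]

theorem Ld_succ (i : ℕ) (v : V) : ((i : ℚ) + 1) • Ld (i + 1) v = Ld i (L 1 v) := by
  have h1 : ((i : ℚ) + 1) ≠ 0 := by positivity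
  have h2 : ((i.factorial : ℕ) : ℚ) ≠ 0 := by positivity
  simp only [Ld, LinearMap.smul_apply, pow_succ, Module.End.mul_apply, smul_smul]
  rw [Llin_apply]
  congr 1
  rw [Nat.factorial_succ]; push_cast; field_simp

theorem Ld_succ_left (i : ℕ) (v : V) : ((i : ℚ) + 1) • Ld (i + 1) v = L 1 (Ld i v) := by
  have h1 : ((i : ℚ) + 1) ≠ 0 := by positivity
  have h2 : ((i.factorial : ℕ) : ℚ) ≠ 0 := by positivity
  simp only [Ld, LinearMap.smul_apply, pow_succ', Module.End.mul_apply, smul_smul, L_smul]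
  rw [Llin_apply]
  congr 1
  rw [Nat.factorial_succ]; push_cast; field_simp

theorem h_Ld (b : Bool) (s : ℤ) (i : ℕ) : ∀ v : V, h b s (Ld i v) =
    ∑ t ∈ Finset.range (i + 1), ch (s + t - 1) t • Ld (i - t) (h b (s + t) v) := by
  induction i with
  | zero => intro v; simp [Ld_zero, ch_zero_right]
  | succ i ih =>
    intro v
    have h1 : ((i : ℚ) + 1) ≠ 0 := by positivity
    have h2 : ((i : ℚ) + 1) • h b s (Ld (i + 1) v) = ((i : ℚ) + 1) •
        ∑ t ∈ Finset.range (i + 1 + 1), ch (s + t - 1) t • Ld (i + 1 - t) (h b (s + t) v) := by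
      rw [← map_smul, Ld_succ, ih, Finset.smul_sum]
      have e1 : ∀ t ∈ Finset.range (i + 1), ch (s + t - 1) t • Ld (i - t) (h b (s + t) (L 1 v)) =
          (((i : ℚ) + 1 - t) * ch (s + t - 1) t) • Ld (i + 1 - t) (h b (s + t) v) +
          (((t : ℚ) + 1) * ch (s + (t + 1 : ℕ) - 1) (t + 1)) • Ld (i + 1 - (t + 1)) (h b (s + (t + 1 : ℕ)) v) := by
        intro t ht
        rw [Finset.mem_range] at ht
        rw [h_L, map_add, map_smul, ← Ld_succ]
        have a1 : i + 1 - t = i - t + 1 := by omega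
        have a2 : i + 1 - (t + 1) = i - t := by omega
        have a3 : s + (t : ℤ) + 1 = s + ((t + 1 : ℕ) : ℤ) := by push_cast; ring
        have a4 : (((i - t : ℕ) : ℚ) + 1) = (i : ℚ) + 1 - t := by
          rw [Nat.cast_sub (by omega)]; ring
        have a5 : s + ((t + 1 : ℕ) : ℤ) - 1 = s + t := by push_cast; ring
        have a6 := ch_pred (s + t) t
        have a7 := ch_succ (s + t) t
        rw [a1, a2, a3, a4, a5, smul_add, smul_smul, smul_smul]
        congr 1
        · congr 1; ring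
        · congr 1
          rw [a7, ← a6]; push_cast; ring
      rw [Finset.sum_congr rfl e1, Finset.sum_add_distrib]
      rw [Finset.sum_range_succ' _ (i + 1)]
      have e2 : ∀ t : ℕ, ((i : ℚ) + 1) • ch (s + (t + 1 : ℕ) - 1) (t + 1) •
            Ld (i + 1 - (t + 1)) (h b (s + (t + 1 : ℕ)) v) =
          (((i : ℚ) + 1 - (t + 1 : ℕ)) * ch (s + (t + 1 : ℕ) - 1) (t + 1)) •
            Ld (i + 1 - (t + 1)) (h b (s + (t + 1 : ℕ)) v) +
          (((t : ℚ) + 1) * ch (s + (t + 1 : ℕ) - 1) (t + 1)) •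
            Ld (i + 1 - (t + 1)) (h b (s + (t + 1 : ℕ)) v) := by
        intro t
        rw [← add_smul, smul_smul]; congr 1; push_cast; ring
      simp only [e2]
      rw [Finset.sum_add_distrib]
      have e3 : ∑ t ∈ Finset.range (i + 1), (((i : ℚ) + 1 - (t + 1 : ℕ)) * ch (s + (t + 1 : ℕ) - 1) (t + 1)) •
            Ld (i + 1 - (t + 1)) (h b (s + (t + 1 : ℕ)) v) +
          ((i : ℚ) + 1) • ch (s + (0 : ℕ) - 1) 0 • Ld (i + 1 - 0) (h b (s + (0 : ℕ)) v) =
          ∑ t ∈ Finset.range (i + 1), (((i : ℚ) + 1 - t) * ch (s + t - 1) t) • Ld (i + 1 - t) (h b (s + t) v) := by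
        rw [Finset.sum_range_succ, Finset.sum_range_succ' _ i]
        push_cast
        simp [smul_smul]
      rw [add_right_comm, e3]
    exact smul_right_injective _ h1 h2

theorem Bdd.L1 {B : ℕ} {a : V} (hB : Bdd B a) : Bdd B (L 1 a) := by
  intro i hi b
  rw [h_L, hB i hi b, L_zero_right, zero_add]
  have : h b ((i : ℤ) + 1) a = 0 := by
    have := hB (i + 1) (by omega) b
    push_cast at this; exact this
  rw [this, smul_zero]

theorem Bdd.Ld {B : ℕ} {a : V} (hB : Bdd B a) (i : ℕ) : Bdd B (Ld i a) := by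
  induction i with
  | zero => rw [Ld_zero]; exact hB
  | succ i ih =>
    have h1 : ((i : ℚ) + 1) ≠ 0 := by positivity
    have h2 := ih.L1.smul ((i : ℚ) + 1)⁻¹
    rw [← Ld_succ_left, smul_smul, inv_mul_cancel₀ h1, one_smul] at h2
    exact h2

/-- weight spaces -/
def Wt (p : ℤ) (a : V) : Prop := L 0 a = (p : ℚ) • a

theorem Wt_iff (p : ℤ) (a : V) : Wt p a ↔ a ∈ Module.End.eigenspace (Llin 0) (p : ℚ) := by
  rw [Module.End.mem_eigenspace_iff, Llin_apply, Wt]

theorem Wt.L1 {p : ℤ} {a : V} (ha : Wt p a) : Wt (p - 1) (L 1 a) := by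
  have := virasoro 0 1 a
  rw [if_neg (by norm_num), zero_smul, add_zero, ha, L_smul] at this
  rw [Wt]
  have h2 : L 0 (L 1 a) = (p : ℚ) • L 1 a + (((0 : ℤ) - 1 : ℤ) : ℚ) • L (0 + 1) a := by
    rw [← this]; abel
  rw [h2, zero_add]
  push_cast
  module

theorem Wt.hmode {p : ℤ} {a : V} (ha : Wt p a) (b : Bool) (j : ℤ) : Wt (p - j) (h b j a) := by
  rw [Wt, L_h, ha, add_zero, map_smul]
  push_cast
  module

theorem Wt.neg {p : ℤ} (hp : p < 0) {a : V} (ha : Wt p a) : a = 0 := by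
  rw [Wt_iff, eig_neg p hp] at ha
  exact (Submodule.mem_bot ℚ).mp ha

theorem Wt.Ld {p : ℤ} {a : V} (ha : Wt p a) (i : ℕ) : Wt (p - i) (Ld i a) := by
  induction i with
  | zero => rw [Ld_zero]; simpa using ha
  | succ i ih =>
    have h1 : ((i : ℚ) + 1) ≠ 0 := by positivity
    have h2 : ((i : ℚ) + 1) • L 0 (H75.Ld (i + 1) a) = ((i : ℚ) + 1) • (((p - (i + 1 : ℕ) : ℤ) : ℚ) • H75.Ld (i + 1) a) := by
      rw [← L_smul, Ld_succ_left, ih.L1, smul_comm, Ld_succ_left]
      congr 1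
      push_cast; ring
    exact smul_right_injective _ h1 h2

theorem Ld_zero_of_wt {p : ℤ} {a : V} (ha : Wt p a) {i : ℕ} (hi : p < i) : Ld i a = 0 :=
  (ha.Ld i).neg (by omega)

/-- The sum occurring in the adjoint vertex operator. -/
noncomputable def Z (M : ℤ) (u c : V) : V := ∑ᶠ i : ℕ, Y (M - i) (Ld i u) c

theorem Z_eq (M : ℤ) {u : V} (c : V) {P : ℕ} (hP : ∀ i : ℕ, P ≤ i → Ld i u = 0) :
    Z M u c = ∑ i ∈ Finset.range P, Y (M - i) (Ld i u) c :=
  finsum_eq_range _ _ fun i hi => by rw [hP i hi, Y_zero_left]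

theorem h_Z (b : Bool) (q M : ℤ) {u : V} (c : V) {B P : ℕ} (hB : Bdd B u)
    (hP : ∀ i : ℕ, P ≤ i → Ld i u = 0) (hP' : ∀ (j i : ℕ), P ≤ i → Ld i (h b (j : ℤ) u) = 0) :
    h b q (Z M u c) = Z M u (h b q c) +
      ∑ j ∈ Finset.range B, ch (q + j - 1) j • Z (M + q - j) (h b (j : ℤ) u) c := by
  have hP2 : ∀ i : ℕ, P + B ≤ i → Ld i u = 0 := fun i hi => hP i (by omega)
  rw [Z_eq M c hP2, Z_eq M (h b q c) hP2, map_sum]
  have e1 : ∀ i : ℕ, h b q (Y (M - i) (Ld i u) c) = Y (M - i) (Ld i u) (h b q c) +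
      ∑ s ∈ Finset.range B, ch q s • ∑ t ∈ Finset.range (i + 1),
        ch (s + t - 1) t • Y (M + q - ((s + t : ℕ) : ℤ) - ((i - t : ℕ) : ℤ)) (Ld (i - t) (h b ((s + t : ℕ) : ℤ) u)) c := by
    intro i
    rw [comm_h b q (M - i) (hB.Ld i) c]
    congr 1
    apply Finset.sum_congr rfl
    intro s _
    rw [h_Ld, Y_sum_left]
    congr 1
    apply Finset.sum_congr rfl
    intro t ht
    rw [Finset.mem_range] at ht
    rw [Y_smul_left]
    have a1 : q + (M - i) - s = M + q - ((s + t : ℕ) : ℤ) - ((i - t : ℕ) : ℤ) := by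
      rw [Nat.cast_sub (by omega)]; push_cast; ring
    rw [a1]
    push_cast
    rfl
  simp only [e1]
  rw [Finset.sum_add_distrib]
  congr 1
  rw [Finset.sum_comm]
  simp only [← Finset.smul_sum]
  -- inner double sum
  set G : ℕ → V := fun j => ∑ i' ∈ Finset.range P, Y (M + q - (j : ℤ) - (i' : ℤ)) (Ld i' (h b (j : ℤ) u)) c with hG
  have hGB : ∀ j, B ≤ j → G j = 0 := by
    intro j hj
    rw [hG]
    apply Finset.sum_eq_zero
    intro i' _
    rw [hB j hj b, map_zero, Y_zero_left]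
  have e2 : ∀ s : ℕ, s < B → ∑ i ∈ Finset.range (P + B), ∑ t ∈ Finset.range (i + 1),
        ch (s + t - 1) t • Y (M + q - ((s + t : ℕ) : ℤ) - ((i - t : ℕ) : ℤ)) (Ld (i - t) (h b ((s + t : ℕ) : ℤ) u)) c =
      ∑ t ∈ Finset.range (B - s), ch (s + t - 1) t • G (s + t) := by
    intro s hs
    have f1 : ∀ i ∈ Finset.range (P + B), ∑ t ∈ Finset.range (i + 1),
        ch (s + t - 1) t • Y (M + q - ((s + t : ℕ) : ℤ) - ((i - t : ℕ) : ℤ)) (Ld (i - t) (h b ((s + t : ℕ) : ℤ) u)) c =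
        ∑ t ∈ Finset.range (B - s), if t ≤ i then
        ch (s + t - 1) t • Y (M + q - ((s + t : ℕ) : ℤ) - ((i - t : ℕ) : ℤ)) (Ld (i - t) (h b ((s + t : ℕ) : ℤ) u)) c else 0 := by
      intro i _
      have g1 : ∑ t ∈ Finset.range (i + 1),
        ch (s + t - 1) t • Y (M + q - ((s + t : ℕ) : ℤ) - ((i - t : ℕ) : ℤ)) (Ld (i - t) (h b ((s + t : ℕ) : ℤ) u)) c =
        ∑ t ∈ Finset.range (i + 1), if t ≤ i then
        ch (s + t - 1) t • Y (M + q - ((s + t : ℕ) : ℤ) - ((i - t : ℕ) : ℤ)) (Ld (i - t) (h b ((s + t : ℕ) : ℤ) u)) c else 0 := by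
        apply Finset.sum_congr rfl
        intro t ht
        rw [Finset.mem_range] at ht
        rw [if_pos (by omega)]
      rw [g1]
      apply sum_bound_indep
      · intro t ht
        rw [if_neg (by omega)]
      · intro t ht
        split_ifs
        · rw [hB (s + t) (by omega) b, map_zero, Y_zero_left, smul_zero]
        · rfl
    rw [Finset.sum_congr rfl f1, Finset.sum_comm]
    apply Finset.sum_congr rfl
    intro t ht
    rw [Finset.mem_range] at ht
    rw [sum_shift (s := t) _ (by omega) (fun i hi => by rw [if_neg (by omega)])]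
    rw [hG]
    simp only
    rw [Finset.smul_sum]
    have f2 : ∀ i' : ℕ, (if t ≤ t + i' then ch (s + t - 1) t •
        Y (M + q - ((s + t : ℕ) : ℤ) - ((t + i' - t : ℕ) : ℤ)) (Ld (t + i' - t) (h b ((s + t : ℕ) : ℤ) u)) c else 0) =
        ch (s + t - 1) t • Y (M + q - ((s + t : ℕ) : ℤ) - (i' : ℤ)) (Ld i' (h b ((s + t : ℕ) : ℤ) u)) c := by
      intro i'
      rw [if_pos (by omega), Nat.add_sub_cancel_left]
    simp only [f2]
    apply sum_bound_indep
    · intro i' hi'
      rw [hP' _ _ (by omega), Y_zero_left, smul_zero]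
    · intro i' hi'
      rw [hP' _ _ (by omega), Y_zero_left, smul_zero]
  have e3 : ∑ s ∈ Finset.range B, ch q s • ∑ i ∈ Finset.range (P + B), ∑ t ∈ Finset.range (i + 1),
        ch (s + t - 1) t • Y (M + q - ((s + t : ℕ) : ℤ) - ((i - t : ℕ) : ℤ)) (Ld (i - t) (h b ((s + t : ℕ) : ℤ) u)) c =
      ∑ j ∈ Finset.range B, ch (q + j - 1) j • G j := by
    rw [Finset.sum_congr rfl (fun s hs => by rw [e2 s (Finset.mem_range.mp hs)])]
    simp only [Finset.smul_sum, smul_smul]
    -- convert to a sum over antidiagonals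
    have g1 : ∀ j ∈ Finset.range B, ch (q + j - 1) j • G j =
        ∑ s ∈ Finset.range (j + 1), (ch q s * ch (s + (j - s : ℕ) - 1) (j - s)) • G (s + (j - s)) := by
      intro j _
      have g2 : ch (q + j - 1) j = ∑ s ∈ Finset.range (j + 1), ch q s * ch (j - 1) (j - s) := by
        have : q + j - 1 = q + (j - 1) := by ring
        rw [this, ch_vandermonde, Finset.Nat.sum_antidiagonal_eq_sum_range_succ (fun x y => ch q x * ch (j - 1) y)]
      rw [g2, Finset.sum_smul]
      apply Finset.sum_congr rfl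
      intro s hs
      rw [Finset.mem_range] at hs
      have a1 : s + (j - s) = j := by omega
      have a2 : (s : ℤ) + ((j - s : ℕ) : ℤ) - 1 = j - 1 := by
        rw [Nat.cast_sub (by omega)]; ring
      rw [a1, a2]
    rw [Finset.sum_congr rfl g1]
    exact (Finset.sum_range_diag_flip B (fun s t => (ch q s * ch (s + t - 1) t) • G (s + t))).symm
  rw [e3]
  apply Finset.sum_congr rfl
  intro j _
  rw [Z_eq (M + q - j) c (fun i hi => hP' j i hi)]

end Pool.Agent.H75
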