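import Pool.Agent.H75.Form

set_option autoImplicit false

namespace Pool.Agent.H75

open MvPolynomial

/-- adjoint modes -/
noncomputable def Yo (p n : ℤ) (a c : V) : V := ((-1 : ℚ) ^ p) • Z (2 * p - n - 2) a c

theorem zpow_neg_one_sub_nat (p : ℤ) (j : ℕ) : (-1 : ℚ) ^ (p - (j : ℤ)) = (-1) ^ p * (-1) ^ j := by
  rw [zpow_sub₀ (by norm_num), zpow_natCast, div_eq_mul_inv, ← inv_pow]
  norm_num

theorem h_Yo {p : ℤ} {a : V} (ha : Wt p a) {B : ℕ} (hB : Bdd B a) (b : Bool) (q n : ℤ) (c : V) :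
    h b q (Yo p n a c) = Yo p n a (h b q c) +
      ∑ j ∈ Finset.range B, ch (-q) j • Yo (p - j) (n - q - j) (h b (j : ℤ) a) c := by
  rw [Yo, Yo, map_smul, h_Z b q _ c (P := (p + 1).toNat) hB, smul_add, Finset.smul_sum]
  · congr 1
    apply Finset.sum_congr rfl
    intro j _
    rw [Yo, ch_neg, zpow_neg_one_sub_nat, smul_smul, smul_smul]
    have a1 : 2 * (p - (j : ℤ)) - (n - q - j) - 2 = 2 * p - n - 2 + q - j := by ring
    rw [a1]
    congr 1
    have a2 : (-1 : ℚ) ^ j * (-1) ^ j = 1 := by rw [← mul_pow]; norm_num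
    linear_combination (-(-1 : ℚ) ^ p * ch (q + j - 1) j) * a2
  · intro i hi
    exact Ld_zero_of_wt ha (by omega)
  · intro j i hi
    exact Ld_zero_of_wt (ha.hmode b j) (by omega)

theorem vev_L1 (w : V) : vev (L 1 w) = 0 := by
  induction w using V_induction with
  | one => rw [L_one _ (by omega), map_zero]
  | add v w hv hw => rw [L_add, map_add, hv, hw, add_zero]
  | smul r v hv => rw [L_smul, map_smul, hv, smul_zero]
  | mul c l v hv =>
    rw [L_X_mul, map_add, vev_X_mul, zero_add, map_smul]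
    rcases l with _ | l
    · simp [h_zero]
    · have : (1 - (((l + 1 : ℕ) : ℤ) + 1)) = -(l + 1 : ℤ) := by push_cast; ring
      rw [this, h_neg, vev_X_mul, smul_zero]

theorem vev_Ld (i : ℕ) (hi : 0 < i) (a : V) : vev (Ld i a) = 0 := by
  obtain ⟨i, rfl⟩ := Nat.exists_eq_succ_of_ne_zero hi.ne'
  have h1 : ((i : ℚ) + 1) ≠ 0 := by positivity
  have h3 : ((i : ℚ) + 1) * vev (Ld (i + 1) a) = 0 := by
    rw [← smul_eq_mul, ← map_smul, Ld_succ_left, vev_L1]
  exact (mul_eq_zero.mp h3).resolve_left h1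

theorem vev_wt {p : ℤ} {a : V} (ha : Wt p a) (hp : p ≠ 0) : vev a = 0 := by
  rw [Wt_iff, mem_eig_iff] at ha
  by_contra hcon
  have := ha 0 hcon
  apply hp
  rw [← this]
  simp [wt]

theorem Yo_add (p n : ℤ) (a : V) {c c' : V} (ha : Wt p a) : Yo p n a (c + c') = Yo p n a c + Yo p n a c' := by
  have hP : ∀ i : ℕ, (p + 1).toNat ≤ i → Ld i a = 0 := fun i hi => Ld_zero_of_wt ha (by omega)
  simp only [Yo, Z_eq _ _ hP, Y_add_right, Finset.sum_add_distrib, smul_add]

theorem Yo_smul (p n : ℤ) (a : V) (r : ℚ) {c : V} (ha : Wt p a) : Yo p n a (r • c) = r • Yo p n a c := by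
  have hP : ∀ i : ℕ, (p + 1).toNat ≤ i → Ld i a = 0 := fun i hi => Ld_zero_of_wt ha (by omega)
  simp only [Yo, Z_eq _ _ hP, Y_smul_right, ← Finset.smul_sum]
  rw [smul_comm]

theorem Bf_contra' (b : Bool) (p : ℤ) (u v : V) : Bf u (h b p v) = - Bf (h b (-p) u) v := by
  rw [Bf_contra, neg_neg, neg_neg]

theorem inv_one (c : V) : ∀ (p n : ℤ) (a : V), Wt p a → Bf (Y n a 1) c = vev (Yo p n a c) := by
  induction c using V_induction with
  | one =>
    intro p n a ha
    have hP : ∀ i : ℕ, (p + 1).toNat + 1 ≤ i → Ld i a = 0 := fun i hi => Ld_zero_of_wt ha (by omega)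
    rw [Bf_one_right, Yo, map_smul, Z_eq _ _ hP, map_sum]
    have e1 : ∀ i : ℕ, vev (Y (2 * p - n - 2 - i) (Ld i a) 1) =
        if i = 0 then (if 2 * p - n - 2 = -1 then vev a else 0) else 0 := by
      intro i
      have : vev (Y (2 * p - n - 2 - i) (Ld i a) 1) = E2 (2 * p - n - 2 - i) (Ld i a) 1 := rfl
      rw [this, E2_one_right]
      rcases i with _ | i
      · rw [if_pos rfl, Ld_zero]; simp
      · rw [vev_Ld _ (by omega)]; simp
    simp only [e1]
    rw [Finset.sum_ite_eq', if_pos (by simp)]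
    have e2 : vev (Y n a 1) = E2 n a 1 := rfl
    rw [e2, E2_one_right]
    by_cases hp : p = 0
    · subst hp
      have : (2 * 0 - n - 2 = -1) ↔ n = -1 := by omega
      simp only [this]
      simp
    · rw [vev_wt ha hp]; simp
  | add v w hv hw => intro p n a ha; rw [map_add, hv p n a ha, hw p n a ha, Yo_add p n a ha, map_add]
  | smul r v hv => intro p n a ha; rw [map_smul, hv p n a ha, Yo_smul p n a r ha, map_smul]
  | mul d l v hv =>
    intro p n a ha
    obtain ⟨B, hB⟩ := exists_Bdd a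
    rw [← h_neg, Bf_contra']
    have e1 := comm_h d (-(-(l + 1 : ℤ))) n hB 1
    rw [h_nonneg_one d _ (by omega), Y_zero_right, zero_add] at e1
    rw [e1]
    have e2 := h_Yo ha hB d (-(l + 1 : ℤ)) n v
    have e3 : Yo p n a (h d (-(l + 1 : ℤ)) v) = h d (-(l + 1 : ℤ)) (Yo p n a v) -
      ∑ j ∈ Finset.range B, ch (-(-(l + 1 : ℤ))) j • Yo (p - j) (n - (-(l + 1 : ℤ)) - j) (h d (j : ℤ) a) v := by
      rw [e2]; abel
    rw [e3, map_sub, h_neg, vev_X_mul, zero_sub, map_sum, map_sum, LinearMap.sum_apply]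
    congr 1
    apply Finset.sum_congr rfl
    intro j _
    rw [map_smul, LinearMap.smul_apply, map_smul, hv (p - j) _ _ (ha.hmode d j)]
    congr 3
    ring

/-- Invariance of the form. -/
theorem invariance (b : V) : ∀ (p n : ℤ) (a c : V), Wt p a → Bf (Y n a b) c = Bf b (Yo p n a c) := by
  induction b using V_induction with
  | one => intro p n a c ha; rw [inv_one c p n a ha, Bf_one]
  | add v w hv hw =>
    intro p n a c ha
    rw [Y_add_right, map_add, LinearMap.add_apply, hv p n a c ha, hw p n a c ha, map_add,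
      LinearMap.add_apply]
  | smul r v hv =>
    intro p n a c ha
    rw [Y_smul_right, map_smul, LinearMap.smul_apply, hv p n a c ha, map_smul, LinearMap.smul_apply]
  | mul d l v hv =>
    intro p n a c ha
    obtain ⟨B, hB⟩ := exists_Bdd a
    rw [← h_neg]
    generalize (-(l + 1 : ℤ)) = q
    have e0 := comm_h d q n hB v
    have e1 : Y n a (h d q v) = h d q (Y n a v) -
      ∑ i ∈ Finset.range B, ch q i • Y (q + n - i) (h d (i : ℤ) a) v := by
      rw [e0]; abel
    rw [e1, map_sub, LinearMap.sub_apply, Bf_contra, Bf_contra, hv p n a _ ha,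
      h_Yo ha hB, map_add, map_sum, map_sum, LinearMap.sum_apply, neg_add, sub_eq_add_neg]
    congr 2
    apply Finset.sum_congr rfl
    intro j _
    rw [map_smul, LinearMap.smul_apply, map_smul, hv (p - j) _ _ _ (ha.hmode d j), neg_neg]
    congr 3
    ring

theorem invariance_finsum (p n : ℤ) (a b c : V) (ha : Wt p a) : Bf (Y n a b) c =
    ∑ᶠ i : ℕ, ((-1 : ℚ) ^ p / (i.factorial : ℚ)) * Bf b (Y (2 * p - n - i - 2) (((Llin 1) ^ i) a) c) := by
  have hP : ∀ i : ℕ, (p + 1).toNat ≤ i → Ld i a = 0 := fun i hi => Ld_zero_of_wt ha (by omega)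
  have hL : ∀ i : ℕ, ((Llin 1) ^ i) a = (i.factorial : ℚ) • Ld i a := by
    intro i
    have h2 : ((i.factorial : ℕ) : ℚ) ≠ 0 := by positivity
    rw [Ld, LinearMap.smul_apply, smul_smul, mul_inv_cancel₀ h2, one_smul]
  rw [invariance b p n a c ha, Yo, Z_eq _ _ hP, finsum_eq_range _ (p + 1).toNat]
  · rw [map_smul, map_sum, smul_eq_mul, Finset.mul_sum]
    apply Finset.sum_congr rfl
    intro i _
    have h2 : ((i.factorial : ℕ) : ℚ) ≠ 0 := by positivity
    rw [hL, Y_smul_left, map_smul, smul_eq_mul]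
    have a1 : 2 * p - n - 2 - (i : ℤ) = 2 * p - n - i - 2 := by ring
    rw [a1]
    field_simp
  · intro i hi
    rw [hL, hP i hi, smul_zero, Y_zero_left, map_zero, mul_zero]

end Pool.Agent.H75
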