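import Pool.Agent.H75.Form2

set_option autoImplicit false

namespace Pool.Agent.H75

open MvPolynomial

/-- The special indices. -/
def inS (k : ℕ) : Prop := 2 ≤ k % 4

instance (k : ℕ) : Decidable (inS k) := by unfold inS; infer_instance

/-- ring generators of the integral form -/
def gens : Set V := {v | ∃ k : Idx, v = X k} ∪ {v | ∃ k : Idx, inS k.2 ∧ v = (1 / 2 : ℚ) • (X k * X k)}

/-- The integral form, as a subring. -/
noncomputable def R : Subring V := Subring.closure gens

theorem X_mem (k : Idx) : (X k : V) ∈ R := Subring.subset_closure (Or.inl ⟨k, rfl⟩)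

theorem sq_mem (k : Idx) (hk : inS k.2) : (1 / 2 : ℚ) • (X k * X k : V) ∈ R :=
  Subring.subset_closure (Or.inr ⟨k, hk, rfl⟩)

theorem int_smul_mem {v : V} (hv : v ∈ R) (z : ℤ) : (z : ℚ) • v ∈ R := by
  rw [Int.cast_smul_eq_zsmul]; exact zsmul_mem hv z

theorem nat_smul_mem {v : V} (hv : v ∈ R) (z : ℕ) : (z : ℚ) • v ∈ R := by
  have := int_smul_mem hv (z : ℤ)
  simpa using this

theorem ch_smul_mem {v : V} (hv : v ∈ R) (p : ℤ) (i : ℕ) : ch p i • v ∈ R :=
  int_smul_mem hv _

theorem h_mem (b : Bool) (i : ℕ) {v : V} (hv : v ∈ R) : h b (i : ℤ) v ∈ R := by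
  induction hv using Subring.closure_induction with
  | mem x hx =>
    rcases hx with ⟨⟨c, l⟩, rfl⟩ | ⟨⟨c, l⟩, _, rfl⟩
    · rw [h_nat, an_X]
      split_ifs
      · exact nat_smul_mem R.one_mem i
      · rw [zero_smul]; exact R.zero_mem
    · rw [h_nat, map_smul, an_X_mul, an_X, mul_smul_comm, mul_one, ← add_smul, smul_smul]
      split_ifs
      · have : (1 / 2 : ℚ) * ((i : ℚ) + i) = (i : ℚ) := by ring
        rw [this]; exact nat_smul_mem (X_mem _) i
      · rw [add_zero, mul_zero, zero_smul]; exact R.zero_mem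
  | zero => rw [map_zero]; exact R.zero_mem
  | one => rw [h_nat, an_one]; exact R.zero_mem
  | add x y _ _ hx hy => rw [map_add]; exact R.add_mem hx hy
  | neg x _ hx => rw [map_neg]; exact R.neg_mem hx
  | mul x y hx' hy' hx hy =>
    rw [h_nat] at hx hy ⊢
    rw [an_mul]
    exact R.add_mem (R.mul_mem hx' hy) (R.mul_mem hx hy')

theorem half_sum (f : ℕ → ℕ → V) (hs : ∀ i j, f i j = f j i) (h1 : ∀ i j, f i j ∈ R)
    (h2 : ∀ i, (1 / 2 : ℚ) • f i i ∈ R) (B : ℕ) :
    (1 / 2 : ℚ) • ∑ i ∈ Finset.range B, ∑ j ∈ Finset.range B, f i j ∈ R := by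
  induction B with
  | zero => simp
  | succ B ih =>
    have e1 : ∑ i ∈ Finset.range (B + 1), ∑ j ∈ Finset.range (B + 1), f i j =
        ∑ i ∈ Finset.range B, ∑ j ∈ Finset.range B, f i j + (2 : ℚ) • ∑ i ∈ Finset.range B, f i B + f B B := by
      simp only [Finset.sum_range_succ, Finset.sum_add_distrib]
      have : ∑ x ∈ Finset.range B, f B x = ∑ x ∈ Finset.range B, f x B :=
        Finset.sum_congr rfl fun x _ => hs _ _
      rw [this]
      module
    rw [e1, smul_add, smul_add, smul_smul]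
    norm_num
    have h3 := h2 B
    norm_num at h3 ih
    refine R.add_mem (R.add_mem ih ?_) h3
    exact R.sum_mem fun i _ => h1 i B

theorem Td_mul (s : ℕ) (u v : V) :
    Td s (u * v) = ∑ t ∈ Finset.range (s + 1), Td t u * Td (s - t) v := by
  induction s with
  | zero => simp [Td_zero]
  | succ s ih =>
    have h1 : ((s : ℚ) + 1) ≠ 0 := by positivity
    have h2 : ((s : ℚ) + 1) • Td (s + 1) (u * v) =
        ((s : ℚ) + 1) • ∑ t ∈ Finset.range (s + 1 + 1), Td t u * Td (s + 1 - t) v := by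
      rw [Td_succ, ih, map_sum, Finset.smul_sum]
      have e1 : ∀ t ∈ Finset.range (s + 1), T (Td t u * Td (s - t) v) =
          ((s : ℚ) + 1 - t) • (Td t u * Td (s + 1 - t) v) +
          ((t : ℚ) + 1) • (Td (t + 1) u * Td (s + 1 - (t + 1)) v) := by
        intro t ht
        rw [Finset.mem_range] at ht
        rw [Derivation.leibniz, ← Td_succ, ← Td_succ, smul_eq_mul, smul_eq_mul, mul_smul_comm,
          mul_smul_comm]
        have a1 : s + 1 - t = s - t + 1 := by omega
        have a2 : s + 1 - (t + 1) = s - t := by omega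
        have a4 : (((s - t : ℕ) : ℚ) + 1) = (s : ℚ) + 1 - t := by
          rw [Nat.cast_sub (by omega)]; ring
        rw [a1, a2, a4, mul_comm (Td (s - t) v)]
      rw [Finset.sum_congr rfl e1, Finset.sum_add_distrib]
      rw [Finset.sum_range_succ' _ (s + 1)]
      have e2 : ∀ t : ℕ, ((s : ℚ) + 1) • (Td (t + 1) u * Td (s + 1 - (t + 1)) v) =
          ((s : ℚ) + 1 - (t + 1 : ℕ)) • (Td (t + 1) u * Td (s + 1 - (t + 1)) v) +
          ((t : ℚ) + 1) • (Td (t + 1) u * Td (s + 1 - (t + 1)) v) := by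
        intro t
        rw [← add_smul]; congr 1; push_cast; ring
      simp only [e2]
      rw [Finset.sum_add_distrib]
      have e3 : ∑ t ∈ Finset.range (s + 1), ((s : ℚ) + 1 - (t + 1 : ℕ)) • (Td (t + 1) u * Td (s + 1 - (t + 1)) v) +
          ((s : ℚ) + 1) • (Td 0 u * Td (s + 1 - 0) v) =
          ∑ t ∈ Finset.range (s + 1), ((s : ℚ) + 1 - t) • (Td t u * Td (s + 1 - t) v) := by
        rw [Finset.sum_range_succ, Finset.sum_range_succ' _ s]
        push_cast
        simp
      rw [add_right_comm, e3]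
    exact smul_right_injective _ h1 h2

theorem two_dvd_choose {n k : ℕ} (hn : n % 4 < 2) (hk : 2 ≤ k % 4) : 2 ∣ n.choose k := by
  have h1 := Choose.choose_modEq_choose_mod_mul_choose_div_nat (p := 2) (n := n) (k := k)
  have h2 := Choose.choose_modEq_choose_mod_mul_choose_div_nat (p := 2) (n := n / 2) (k := k / 2)
  have h3 : n / 2 % 2 = 0 := by omega
  have h4 : k / 2 % 2 = 1 := by omega
  rw [h3, h4] at h2
  have h5 : (0 : ℕ).choose 1 = 0 := rfl
  rw [h5, zero_mul] at h2
  have h6 : n.choose k ≡ (n % 2).choose (k % 2) * 0 [MOD 2] := h1.trans (Nat.ModEq.mul_left _ h2)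
  rw [mul_zero] at h6
  exact (Nat.modEq_zero_iff_dvd).mp h6

theorem two_dvd_choose' {n k : ℕ} (hn : n % 2 = 0) (hk : k % 2 = 1) : 2 ∣ n.choose k := by
  have h1 := Choose.choose_modEq_choose_mod_mul_choose_div_nat (p := 2) (n := n) (k := k)
  rw [hn, hk] at h1
  have h5 : (0 : ℕ).choose 1 = 0 := rfl
  rw [h5, zero_mul] at h1
  exact (Nat.modEq_zero_iff_dvd).mp h1

/-- creation side parity -/
theorem parity_creation {k s : ℕ} (hk : inS k) (hks : ¬ inS (k + s)) : 2 ∣ (k + s).choose k := by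
  unfold inS at hk hks
  exact two_dvd_choose (by omega) hk

/-- annihilation side parity -/
theorem parity_annihilation {l i : ℕ} (hl : inS l) (hi : inS i) :
    2 ∣ (l + (i + 1)).choose (i + 1) * (i + 1) := by
  unfold inS at hl hi
  by_cases h1 : (i + 1) % 2 = 0
  · exact Dvd.dvd.mul_left (Nat.dvd_of_mod_eq_zero h1) _
  · apply Dvd.dvd.mul_right
    by_cases h2 : (l + (i + 1)) % 4 < 2
    · exact two_dvd_choose h2 (by omega)
    · exact two_dvd_choose' (by omega) (by omega)

theorem Td_mem (s : ℕ) {v : V} (hv : v ∈ R) : Td s v ∈ R := by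
  induction hv using Subring.closure_induction generalizing s with
  | mem x hx =>
    rcases hx with ⟨⟨c, l⟩, rfl⟩ | ⟨⟨c, l⟩, hl, rfl⟩
    · rw [Td_X]; exact nat_smul_mem (X_mem _) _
    · rw [map_smul, Td_mul]
      have e1 : ∑ t ∈ Finset.range (s + 1), Td t (X (c, l)) * Td (s - t) (X (c, l)) =
          ∑ i ∈ Finset.range (s + 1), ∑ j ∈ Finset.range (s + 1),
            if i + j = s then (((l + i).choose l : ℚ) * ((l + j).choose l : ℚ)) •
              (X (c, l + i) * X (c, l + j) : V) else 0 := by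
        apply Finset.sum_congr rfl
        intro i hi
        rw [Finset.mem_range] at hi
        rw [Finset.sum_eq_single_of_mem (s - i) (Finset.mem_range.mpr (by omega)), if_pos (by omega),
          Td_X, Td_X, smul_mul_smul_comm]
        intro j _ hj
        rw [if_neg (by omega)]
      rw [e1]
      apply half_sum
      · intro i j
        by_cases hij : i + j = s
        · rw [if_pos hij, if_pos (by omega), mul_comm (X (c, l + i) : V), mul_comm ((l + i).choose l : ℚ)]
        · rw [if_neg hij, if_neg (by omega)]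
      · intro i j
        split_ifs
        · have := nat_smul_mem (R.mul_mem (X_mem (c, l + i)) (X_mem (c, l + j))) ((l + i).choose l * (l + j).choose l)
          push_cast at this
          exact this
        · exact R.zero_mem
      · intro i
        split_ifs
        · by_cases hS : inS (l + i)
          · rw [smul_comm]
            have := nat_smul_mem (sq_mem (c, l + i) hS) ((l + i).choose l * (l + i).choose l)
            push_cast at this
            exact this
          · obtain ⟨z, hz⟩ := parity_creation hl hS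
            rw [smul_smul, hz]
            have := nat_smul_mem (R.mul_mem (X_mem (c, l + i)) (X_mem (c, l + i))) (2 * z * z)
            have e2 : (1 / 2 : ℚ) * (((2 * z : ℕ) : ℚ) * ((2 * z : ℕ) : ℚ)) = ((2 * z * z : ℕ) : ℚ) := by
              push_cast; ring
            rw [e2]; exact this
        · rw [smul_zero]; exact R.zero_mem
  | zero => rw [map_zero]; exact R.zero_mem
  | one =>
    rcases s with _ | s
    · rw [Td_zero]; exact R.one_mem
    · rw [Td_one _ (by omega)]; exact R.zero_mem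
  | add x y _ _ hx hy => rw [map_add]; exact R.add_mem (hx s) (hy s)
  | neg x _ hx => rw [map_neg]; exact R.neg_mem (hx s)
  | mul x y _ _ hx hy =>
    rw [Td_mul]
    exact R.sum_mem fun t _ => R.mul_mem (hx t) (hy _)

/-- half of the square of a derivation in a non-special direction preserves the integral form -/
theorem half_pderiv_sq_mem (b : Bool) (k : ℕ) (hk : ¬ inS k) {v : V} (hv : v ∈ R) :
    (1 / 2 : ℚ) • pderiv (b, k) (pderiv (b, k) v) ∈ R := by
  have hp : ∀ {v : V}, v ∈ R → pderiv (b, k) v ∈ R := by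
    intro v hv
    induction hv using Subring.closure_induction with
    | mem x hx =>
      rcases hx with ⟨⟨c, l⟩, rfl⟩ | ⟨⟨c, l⟩, _, rfl⟩
      · rw [pderiv_X, Pi.single_apply]
        split_ifs
        · exact R.one_mem
        · exact R.zero_mem
      · rw [Derivation.map_smul, Derivation.leibniz, pderiv_X, Pi.single_apply]
        split_ifs
        · have e : (1 / 2 : ℚ) • ((X (c, l) : V) • (1 : V) + (X (c, l) : V) • (1 : V)) = X (c, l) := by
            simp only [smul_eq_mul, mul_one]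
            module
          rw [e]; exact X_mem _
        · simp
    | zero => rw [map_zero]; exact R.zero_mem
    | one => simp
    | add x y _ _ hx hy => rw [map_add]; exact R.add_mem hx hy
    | neg x _ hx => rw [map_neg]; exact R.neg_mem hx
    | mul x y hx' hy' hx hy =>
      rw [Derivation.leibniz, smul_eq_mul, smul_eq_mul]
      exact R.add_mem (R.mul_mem hx' hy) (R.mul_mem hy' hx)
  induction hv using Subring.closure_induction with
  | mem x hx =>
    rcases hx with ⟨⟨c, l⟩, rfl⟩ | ⟨⟨c, l⟩, hl, rfl⟩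
    · rw [pderiv_X, Pi.single_apply]
      split_ifs <;> simp
    · have hne : ¬ ((c, l) = (b, k)) := by
        intro hh
        apply hk
        have : l = k := congrArg Prod.snd hh
        rw [← this]; exact hl
      rw [Derivation.map_smul, Derivation.leibniz, pderiv_X_of_ne hne]
      simp
  | zero => rw [map_zero, map_zero, smul_zero]; exact R.zero_mem
  | one => simp
  | add x y _ _ hx hy => rw [map_add, map_add, smul_add]; exact R.add_mem hx hy
  | neg x _ hx => rw [map_neg, map_neg, smul_neg]; exact R.neg_mem hx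
  | mul x y hx' hy' hx hy =>
    have e : (1 / 2 : ℚ) • pderiv (b, k) (pderiv (b, k) (x * y)) =
        x * ((1 / 2 : ℚ) • pderiv (b, k) (pderiv (b, k) y)) + pderiv (b, k) x * pderiv (b, k) y +
        y * ((1 / 2 : ℚ) • pderiv (b, k) (pderiv (b, k) x)) := by
      rw [Derivation.leibniz, map_add, smul_eq_mul, smul_eq_mul, Derivation.leibniz, Derivation.leibniz]
      simp only [smul_eq_mul, mul_smul_comm]
      have : pderiv (b, k) y * pderiv (b, k) x = pderiv (b, k) x * pderiv (b, k) y := mul_comm _ _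
      rw [this]
      module
    rw [e]
    exact R.add_mem (R.add_mem (R.mul_mem hx' hy) (R.mul_mem (hp hx') (hp hy'))) (R.mul_mem hy' hx)

theorem hh_mem {l : ℕ} (hl : inS l) (c : Bool) (i : ℕ) {a : V} (ha : a ∈ R) :
    ((1 / 2 : ℚ) * (ch (-(l + 1 : ℤ)) i * ch (-(l + 1 : ℤ)) i)) • h c (i : ℤ) (h c (i : ℤ) a) ∈ R := by
  rcases i with _ | i
  · rw [Nat.cast_zero, h_zero]; simp
  have e1 : ch (-(l + 1 : ℤ)) (i + 1) * ch (-(l + 1 : ℤ)) (i + 1) =
      (((l + (i + 1)).choose (i + 1) : ℕ) : ℚ) * (((l + (i + 1)).choose (i + 1) : ℕ) : ℚ) := by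
    rw [ch_neg_nat]
    have a2 : (-1 : ℚ) ^ (i + 1) * (-1) ^ (i + 1) = 1 := by rw [← mul_pow]; norm_num
    linear_combination ((((l + (i + 1)).choose (i + 1) : ℕ) : ℚ) * (((l + (i + 1)).choose (i + 1) : ℕ) : ℚ)) * a2
  rw [e1]
  by_cases hS : inS i
  · obtain ⟨z, hz⟩ := parity_annihilation hl hS
    have hz' : (((l + (i + 1)).choose (i + 1) : ℕ) : ℚ) * ((i + 1 : ℕ) : ℚ) = 2 * (z : ℚ) := by
      exact_mod_cast hz
    have e2 : ((1 / 2 : ℚ) * ((((l + (i + 1)).choose (i + 1) : ℕ) : ℚ) * (((l + (i + 1)).choose (i + 1) : ℕ) : ℚ))) •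
        h c ((i + 1 : ℕ) : ℤ) (h c ((i + 1 : ℕ) : ℤ) a) =
        ((z * (l + (i + 1)).choose (i + 1) : ℕ) : ℚ) • pderiv (!c, i) (h c ((i + 1 : ℕ) : ℤ) a) := by
      rw [h_nat, an_apply, Nat.add_sub_cancel, smul_smul]
      congr 1
      push_cast at hz' ⊢
      linear_combination ((1 / 2 : ℚ) * ((l + (i + 1)).choose (i + 1) : ℚ)) * hz'
    rw [e2]
    have e3 : ((z * (l + (i + 1)).choose (i + 1) : ℕ) : ℚ) • pderiv (!c, i) (h c ((i + 1 : ℕ) : ℤ) a) =
        ((2 * z * z : ℕ) : ℚ) • pderiv (!c, i) (pderiv (!c, i) a) := by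
      rw [h_nat, an_apply, Nat.add_sub_cancel, Derivation.map_smul, smul_smul]
      congr 1
      push_cast at hz' ⊢
      linear_combination (z : ℚ) * hz'
    rw [e3]
    have hp : ∀ {v : V}, v ∈ R → pderiv (!c, i) v ∈ R := by
      intro v hv
      induction hv using Subring.closure_induction with
      | mem x hx =>
        rcases hx with ⟨⟨d, m⟩, rfl⟩ | ⟨⟨d, m⟩, _, rfl⟩
        · rw [pderiv_X, Pi.single_apply]
          split_ifs
          · exact R.one_mem
          · exact R.zero_mem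
        · rw [Derivation.map_smul, Derivation.leibniz, pderiv_X, Pi.single_apply]
          split_ifs
          · have e : (1 / 2 : ℚ) • ((X (d, m) : V) • (1 : V) + (X (d, m) : V) • (1 : V)) = X (d, m) := by
              simp only [smul_eq_mul, mul_one]
              module
            rw [e]; exact X_mem _
          · simp
      | zero => rw [map_zero]; exact R.zero_mem
      | one => simp
      | add x y _ _ hx hy => rw [map_add]; exact R.add_mem hx hy
      | neg x _ hx => rw [map_neg]; exact R.neg_mem hx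
      | mul x y hx' hy' hx hy =>
        rw [Derivation.leibniz, smul_eq_mul, smul_eq_mul]
        exact R.add_mem (R.mul_mem hx' hy) (R.mul_mem hy' hx)
    exact nat_smul_mem (hp (hp ha)) _
  · have e2 : ((1 / 2 : ℚ) * ((((l + (i + 1)).choose (i + 1) : ℕ) : ℚ) * (((l + (i + 1)).choose (i + 1) : ℕ) : ℚ))) •
        h c ((i + 1 : ℕ) : ℤ) (h c ((i + 1 : ℕ) : ℤ) a) =
        (((l + (i + 1)).choose (i + 1) * (l + (i + 1)).choose (i + 1) * ((i + 1) * (i + 1)) : ℕ) : ℚ) •
          ((1 / 2 : ℚ) • pderiv (!c, i) (pderiv (!c, i) a)) := by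
      rw [h_nat, an_apply, an_apply, Nat.add_sub_cancel, Derivation.map_smul, smul_smul, smul_smul, smul_smul]
      congr 1
      push_cast; ring
    rw [e2]
    exact nat_smul_mem (half_pderiv_sq_mem _ _ hS ha) _

theorem Y_mem_one {a : V} (ha : a ∈ R) (n : ℤ) : Y n a 1 ∈ R := by
  rw [Y_one_right]
  split_ifs
  · exact Td_mem _ ha
  · exact R.zero_mem

theorem Y_mem_X {v : V} (ih : ∀ a ∈ R, ∀ n, Y n a v ∈ R) (c : Bool) (l : ℕ) :
    ∀ a ∈ R, ∀ n, Y n a (X (c, l) * v) ∈ R := by
  intro a ha n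
  obtain ⟨B, hB⟩ := exists_Bdd a
  rw [Y_X_mul' n hB]
  exact R.sub_mem (R.mul_mem (X_mem _) (ih a ha n))
    (R.sum_mem fun i _ => ch_smul_mem (ih _ (h_mem c i ha) _) _ _)

theorem Y_mem_sq {v : V} (ih : ∀ a ∈ R, ∀ n, Y n a v ∈ R) (c : Bool) (l : ℕ) (hl : inS l) :
    ∀ a ∈ R, ∀ n, Y n a ((1 / 2 : ℚ) • (X (c, l) * X (c, l)) * v) ∈ R := by
  intro a ha n
  obtain ⟨B, hB⟩ := exists_Bdd a
  have e1 : Y n a ((1 / 2 : ℚ) • (X (c, l) * X (c, l)) * v) =
      ((1 / 2 : ℚ) • (X (c, l) * X (c, l))) * Y n a v -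
      X (c, l) * (∑ i ∈ Finset.range B, ch (-(l + 1 : ℤ)) i • Y (-(l + 1 : ℤ) + n - i) (h c (i : ℤ) a) v) +
      (1 / 2 : ℚ) • ∑ i ∈ Finset.range B, ∑ j ∈ Finset.range B,
        (ch (-(l + 1 : ℤ)) i * ch (-(l + 1 : ℤ)) j) •
          Y (-(l + 1 : ℤ) + (-(l + 1 : ℤ) + n - i) - j) (h c (j : ℤ) (h c (i : ℤ) a)) v := by
    rw [smul_mul_assoc, mul_assoc, Y_smul_right, Y_X_mul' n hB, Y_X_mul' n hB]
    have e2 : ∀ i : ℕ, ch (-(l + 1 : ℤ)) i • Y (-(l + 1 : ℤ) + n - i) (h c (i : ℤ) a) (X (c, l) * v) =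
        X (c, l) * (ch (-(l + 1 : ℤ)) i • Y (-(l + 1 : ℤ) + n - i) (h c (i : ℤ) a) v) -
        ∑ j ∈ Finset.range B, (ch (-(l + 1 : ℤ)) i * ch (-(l + 1 : ℤ)) j) •
          Y (-(l + 1 : ℤ) + (-(l + 1 : ℤ) + n - i) - j) (h c (j : ℤ) (h c (i : ℤ) a)) v := by
      intro i
      rw [Y_X_mul' _ (hB.hmode c i), smul_sub, mul_smul_comm, Finset.smul_sum]
      congr 1
      apply Finset.sum_congr rfl
      intro j _
      rw [smul_smul]
    simp only [e2]
    rw [Finset.sum_sub_distrib, ← Finset.mul_sum, smul_mul_assoc, mul_assoc]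
    rw [mul_sub]
    module
  rw [e1]
  refine R.add_mem (R.sub_mem (R.mul_mem (sq_mem (c, l) hl) (ih a ha n)) (R.mul_mem (X_mem _)
    (R.sum_mem fun i _ => ch_smul_mem (ih _ (h_mem c i ha) _) _ _))) ?_
  apply half_sum
  · intro i j
    rw [h_nat_comm, mul_comm (ch (-(l + 1 : ℤ)) i)]
    congr 2
    ring
  · intro i j
    rw [mul_smul]
    exact ch_smul_mem (ch_smul_mem (ih _ (h_mem c j (h_mem c i ha)) _) _ _) _ _
  · intro i
    rw [smul_smul, ← Y_smul_left]
    exact ih _ (hh_mem hl c i ha) _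

/-- The integral form is closed under all products. -/
theorem Y_mem {b : V} (hb : b ∈ R) : ∀ a ∈ R, ∀ n, Y n a b ∈ R := by
  rw [R, Subring.mem_closure_iff] at hb
  induction hb using AddSubgroup.closure_induction with
  | mem x hx =>
    induction hx using Submonoid.closure_induction_left with
    | one => exact fun a ha n => Y_mem_one ha n
    | mul_left x hx y _ ih =>
      rcases hx with ⟨⟨c, l⟩, rfl⟩ | ⟨⟨c, l⟩, hl, rfl⟩
      · exact Y_mem_X ih c l
      · exact Y_mem_sq ih c l hl
  | zero => intro a _ n; rw [Y_zero_right]; exact R.zero_mem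
  | add x y _ _ hx hy => intro a ha n; rw [Y_add_right]; exact R.add_mem (hx a ha n) (hy a ha n)
  | neg x _ hx =>
    intro a ha n
    have : Y n a (-x) = -Y n a x := by
      rw [← YL_apply, map_neg]; rfl
    rw [this]; exact R.neg_mem (hx a ha n)

end Pool.Agent.H75
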