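import Pool.Agent.H75.TwoPoint

set_option autoImplicit false

namespace Pool.Agent.H75

open MvPolynomial

theorem vev_Y_T (m : ℤ) (a w : V) : vev (Y m a (T w)) = (m : ℚ) * vev (Y (m - 1) a w) := by
  have h1 := congrArg vev (T_Y w m a)
  rw [vev_T, map_sub, map_smul, smul_eq_mul] at h1
  linarith

theorem Y_neg_succ_one (s : ℕ) (b : V) : Y (-(s + 1 : ℤ)) b 1 = Td s b := by
  rw [Y_one_right, if_pos (by omega)]
  congr 1
  congr 1
  omega

theorem vev_Y_Td (a b : V) (s : ℕ) : ∀ m : ℤ, vev (Y m a (Td s b)) = ch m s * E2 (m - s) a b := by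
  induction s with
  | zero => intro m; rw [Td_zero, ch_zero_right]; simp [E2]
  | succ s ih =>
    intro m
    have h1 : ((s : ℚ) + 1) ≠ 0 := by positivity
    have h2 : ((s : ℚ) + 1) * vev (Y m a (Td (s + 1) b)) = ((s : ℚ) + 1) * (ch m (s + 1) * E2 (m - (s + 1 : ℕ)) a b) := by
      rw [← smul_eq_mul, ← map_smul, ← Y_smul_right, Td_succ, vev_Y_T, ih]
      have e1 : m - 1 - (s : ℤ) = m - ((s + 1 : ℕ) : ℤ) := by push_cast; ring
      rw [e1, ← mul_assoc, ch_pred, ← ch_succ]
      push_cast; ring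
    exact mul_left_cancel₀ h1 h2

/-- The commutator `[a_m, b_{r-m}] c` as a function of `m`. -/
noncomputable def K (a b c : V) (r : ℤ) (m : ℤ) : V := Y m a (Y (r - m) b c) - Y (r - m) b (Y m a c)

theorem vev_K_one (a b : V) (r m : ℤ) :
    vev (K a b 1 r m) = if 0 ≤ r + 1 then ch m (r + 1).toNat * E2 (r + 1) a b else 0 := by
  rw [K, map_sub]
  rcases lt_or_ge m 0 with hm | hm <;> rcases lt_or_ge (r - m) 0 with hq | hq
  · -- both negative
    obtain ⟨s, rfl⟩ : ∃ s : ℕ, m = -(s + 1 : ℤ) := ⟨(-m - 1).toNat, by omega⟩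
    obtain ⟨t, ht⟩ : ∃ t : ℕ, r - -(s + 1 : ℤ) = -(t + 1 : ℤ) := ⟨(-(r - -(s + 1 : ℤ)) - 1).toNat, by omega⟩
    rw [ht, Y_neg_succ_one, Y_neg_succ_one, vev_Y_Td, vev_Y_Td, if_neg (by omega)]
    have e1 : (-(s + 1 : ℤ) - t) = -(s + t + 1 : ℤ) := by ring
    have e2 : (-(t + 1 : ℤ) - s) = -(s + t + 1 : ℤ) := by ring
    rw [e1, e2, E2_neg _ _ (by omega), E2_neg _ _ (by omega)]
    by_cases hst : s = 0 ∧ t = 0
    · obtain ⟨rfl, rfl⟩ := hst
      simp [ch_zero_right, mul_comm]
    · rw [if_neg (by omega), if_neg (by omega)]; simp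
  · -- m < 0 ≤ q
    obtain ⟨s, rfl⟩ : ∃ s : ℕ, m = -(s + 1 : ℤ) := ⟨(-m - 1).toNat, by omega⟩
    obtain ⟨q, hq'⟩ : ∃ q : ℕ, r - -(s + 1 : ℤ) = (q : ℤ) := ⟨(r - -(s + 1 : ℤ)).toNat, by omega⟩
    rw [hq', Y_nonneg_one (by omega), Y_neg_succ_one, vev_Y_Td, Y_zero_right, map_zero, zero_sub]
    have e1 : (q : ℤ) - s = r + 1 := by omega
    rw [e1]
    split_ifs with h0
    · obtain ⟨D, hD⟩ : ∃ D : ℕ, r + 1 = (D : ℤ) := ⟨(r + 1).toNat, by omega⟩
      rw [hD, Int.toNat_natCast, E2_symm, ch_neg_nat, ch_nat]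
      have e2 : q = s + D := by omega
      subst e2
      have e3 : (s + D).choose s = (s + D).choose D := Nat.choose_symm_add
      rw [e3]
      have e4 : (-1 : ℚ) ^ ((D : ℤ) + 1) = (-1) ^ D * (-1) := by
        have : ((D : ℤ) + 1) = ((D + 1 : ℕ) : ℤ) := by push_cast; ring
        rw [this, zpow_natCast, pow_succ]
      rw [e4]; ring
    · rw [ch_nat, Nat.choose_eq_zero_of_lt (by omega)]; simp
  · -- q < 0 ≤ m
    obtain ⟨s, rfl⟩ : ∃ s : ℕ, m = (s : ℤ) := ⟨m.toNat, by omega⟩
    obtain ⟨t, ht⟩ : ∃ t : ℕ, r - (s : ℤ) = -(t + 1 : ℤ) := ⟨(-(r - (s : ℤ)) - 1).toNat, by omega⟩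
    rw [ht, Y_nonneg_one hm a, Y_neg_succ_one, vev_Y_Td, Y_zero_right, map_zero, sub_zero]
    have e1 : (s : ℤ) - t = r + 1 := by omega
    rw [e1]
    split_ifs with h0
    · obtain ⟨D, hD⟩ : ∃ D : ℕ, r + 1 = (D : ℤ) := ⟨(r + 1).toNat, by omega⟩
      rw [hD, Int.toNat_natCast, ch_nat, ch_nat]
      have e2 : s = t + D := by omega
      subst e2
      rw [Nat.choose_symm_add]
    · rw [ch_nat, Nat.choose_eq_zero_of_lt (by omega)]; simp
  · obtain ⟨s, rfl⟩ : ∃ s : ℕ, m = (s : ℤ) := ⟨m.toNat, by omega⟩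
    rw [Y_nonneg_one hq, Y_nonneg_one hm, Y_zero_right, Y_zero_right, map_zero, sub_zero,
      if_pos (by omega), ch_nat, Nat.choose_eq_zero_of_lt (by omega)]
    simp

/-- forward difference -/
def dl {M : Type*} [AddCommGroup M] [Module ℚ M] : (ℤ → M) →ₗ[ℚ] (ℤ → M) where
  toFun f m := f (m + 1) - f m
  map_add' := by intro f g; funext m; simp; abel
  map_smul' := by intro r f; funext m; simp [smul_sub]

theorem dl_apply {M : Type*} [AddCommGroup M] [Module ℚ M] (f : ℤ → M) (m : ℤ) :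
    dl f m = f (m + 1) - f m := rfl

theorem dl_pow_comp {M N : Type*} [AddCommGroup M] [Module ℚ M] [AddCommGroup N] [Module ℚ N]
    (L : M →ₗ[ℚ] N) (n : ℕ) : ∀ (f : ℤ → M) (m : ℤ), (dl ^ n) (fun m => L (f m)) m = L ((dl ^ n) f m) := by
  induction n with
  | zero => intro f m; simp
  | succ n ih =>
    intro f m
    rw [pow_succ, pow_succ, Module.End.mul_apply, Module.End.mul_apply]
    have : dl (fun m => L (f m)) = fun m => L (dl f m) := by
      funext m; rw [dl_apply, dl_apply, map_sub]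
    rw [this, ih]

theorem dl_pow_shift {M : Type*} [AddCommGroup M] [Module ℚ M] (t : ℤ) (n : ℕ) :
    ∀ (f : ℤ → M) (m : ℤ), (dl ^ n) (fun m => f (t + m)) m = (dl ^ n) f (t + m) := by
  induction n with
  | zero => intro f m; simp
  | succ n ih =>
    intro f m
    rw [pow_succ, Module.End.mul_apply, Module.End.mul_apply]
    have : dl (fun m => f (t + m)) = fun m => (dl f) (t + m) := by
      funext m; rw [dl_apply, dl_apply]; congr 2; ring
    rw [this, ih]

theorem dl_ch (i : ℕ) : dl (fun m => ch m (i + 1)) = fun m => ch m i := by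
  funext m
  rw [dl_apply, ch_pascal]; ring

theorem dl_pow_ch (n : ℕ) : ∀ i, i < n → (dl ^ n) (fun m => ch m i) = 0 := by
  induction n with
  | zero => intro i hi; omega
  | succ n ih =>
    intro i hi
    rw [pow_succ, Module.End.mul_apply]
    rcases i with _ | i
    · have : dl (fun m => ch m 0) = 0 := by
        funext m; rw [dl_apply, ch_zero_right, ch_zero_right]; simp
      rw [this, map_zero]
    · rw [dl_ch, ih i (by omega)]

theorem dl_pow_eq_sum {M : Type*} [AddCommGroup M] [Module ℚ M] (n : ℕ) : ∀ (f : ℤ → M) (m : ℤ),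
    (dl ^ n) f m = ∑ j ∈ Finset.range (n + 1), ((-1 : ℚ) ^ j * (n.choose j : ℚ)) • f (m + n - j) := by
  induction n with
  | zero => intro f m; simp
  | succ n ih =>
    intro f m
    rw [pow_succ, Module.End.mul_apply, ih]
    have e1 : ∀ j : ℕ, ((-1 : ℚ) ^ j * (n.choose j : ℚ)) • dl f (m + n - j) =
        ((-1 : ℚ) ^ j * (n.choose j : ℚ)) • f (m + (n + 1 : ℕ) - j) +
        ((-1 : ℚ) ^ (j + 1) * (n.choose j : ℚ)) • f (m + (n + 1 : ℕ) - (j + 1 : ℕ)) := by
      intro j
      rw [dl_apply, smul_sub, pow_succ, sub_eq_add_neg, ← neg_smul]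
      congr 1
      · congr 2; push_cast; ring
      · congr 1
        · ring
        · congr 1; push_cast; ring
    simp only [e1]
    rw [Finset.sum_add_distrib, Finset.sum_range_succ']
    rw [Finset.sum_range_succ (fun j : ℕ => ((-1 : ℚ) ^ (j + 1) * (n.choose j : ℚ)) •
      f (m + (n + 1 : ℕ) - (j + 1 : ℕ)))]
    rw [Finset.sum_range_succ', Finset.sum_range_succ]
    have e2 : ∀ j : ℕ, ((-1 : ℚ) ^ (j + 1) * ((n + 1).choose (j + 1) : ℚ)) • f (m + (n + 1 : ℕ) - (j + 1 : ℕ)) =
      ((-1 : ℚ) ^ (j + 1) * (n.choose (j + 1) : ℚ)) • f (m + (n + 1 : ℕ) - (j + 1 : ℕ)) +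
      ((-1 : ℚ) ^ (j + 1) * (n.choose j : ℚ)) • f (m + (n + 1 : ℕ) - (j + 1 : ℕ)) := by
      intro j
      rw [← add_smul, Nat.choose_succ_succ]
      congr 1; push_cast; ring
    simp only [e2]
    rw [Finset.sum_add_distrib]
    have e3 : n.choose (n + 1) = 0 := Nat.choose_eq_zero_of_lt (by omega)
    rw [e3]
    simp only [Nat.choose_self, Nat.choose_zero_right]
    simp
    abel

/-- Filtration by nilpotency order of the annihilation operators. -/
def Fil : ℕ → V → Prop
  | 0, a => ∀ (i : ℕ) (b : Bool), h b (i : ℤ) a = 0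
  | d + 1, a => ∀ (i : ℕ) (b : Bool), Fil d (h b (i : ℤ) a)

theorem Fil.smul (r : ℚ) : ∀ {d : ℕ} {a : V}, Fil d a → Fil d (r • a)
  | 0, a, ha => fun i b => by rw [map_smul, ha i b, smul_zero]
  | d + 1, a, ha => fun i b => by rw [map_smul]; exact (ha i b).smul r

theorem Fil.add : ∀ {d : ℕ} {a a' : V}, Fil d a → Fil d a' → Fil d (a + a')
  | 0, a, a', ha, ha' => fun i b => by rw [map_add, ha i b, ha' i b, add_zero]
  | d + 1, a, a', ha, ha' => fun i b => by rw [map_add]; exact (ha i b).add (ha' i b)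

theorem Fil.zero : ∀ {d : ℕ}, Fil d (0 : V)
  | 0 => fun i b => by rw [map_zero]
  | d + 1 => fun i b => by rw [map_zero]; exact Fil.zero

theorem Fil.succ : ∀ {d : ℕ} {a : V}, Fil d a → Fil (d + 1) a
  | 0, a, ha => fun i b => by rw [ha i b]; exact Fil.zero
  | d + 1, a, ha => fun i b => (ha i b).succ

theorem Fil.mono {d d' : ℕ} (hd : d ≤ d') {a : V} (ha : Fil d a) : Fil d' a := by
  induction hd with
  | refl => exact ha
  | step _ ih => exact ih.succ

theorem Fil.X_mul (c : Bool) (l : ℕ) : ∀ {d : ℕ} {a : V}, Fil d a → Fil (d + 1) (X (c, l) * a)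
  | 0, a, ha => fun i b => by
      rw [h_nat, an_X_mul, ← h_nat, ha i b, mul_zero, zero_add]
      exact ha.smul _
  | d + 1, a, ha => fun i b => by
      rw [h_nat, an_X_mul, ← h_nat]
      exact ((ha i b).X_mul c l).add (ha.smul _)

theorem exists_Fil (a : V) : ∃ d, Fil d a := by
  induction a using V_induction with
  | one => exact ⟨0, fun i b => h_nonneg_one b i (by positivity)⟩
  | add u v hu hv =>
    obtain ⟨d, hd⟩ := hu
    obtain ⟨d', hd'⟩ := hv
    exact ⟨max d d', (hd.mono (le_max_left _ _)).add (hd'.mono (le_max_right _ _))⟩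
  | smul r v hv => obtain ⟨d, hd⟩ := hv; exact ⟨d, hd.smul r⟩
  | mul c l v hv => obtain ⟨d, hd⟩ := hv; exact ⟨d + 1, hd.X_mul c l⟩

theorem K_zero_left (b c : V) (r : ℤ) : K 0 b c r = 0 := by
  funext m; simp [K, Y_zero_left, Y_zero_right]

theorem K_zero_mid (a c : V) (r : ℤ) : K a 0 c r = 0 := by
  funext m; simp [K, Y_zero_left, Y_zero_right]

theorem K_zero_right (a b : V) (r : ℤ) : K a b 0 r = 0 := by
  funext m; simp [K, Y_zero_right]

theorem K_add_right (a b c c' : V) (r : ℤ) : K a b (c + c') r = K a b c r + K a b c' r := by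
  funext m; simp only [K, Y_add_right, Pi.add_apply]; abel

theorem K_smul_right (a b c : V) (x : ℚ) (r : ℤ) : K a b (x • c) r = x • K a b c r := by
  funext m; simp only [K, Y_smul_right, Pi.smul_apply, smul_sub]

theorem Y_sum_right {ι : Type*} (n : ℤ) (a : V) (s : Finset ι) (f : ι → V) :
    Y n a (∑ i ∈ s, f i) = ∑ i ∈ s, Y n a (f i) := by
  rw [← YL_apply, map_sum]; rfl

theorem Y_sum_left {ι : Type*} (n : ℤ) (b : V) (s : Finset ι) (f : ι → V) :
    Y n (∑ i ∈ s, f i) b = ∑ i ∈ s, Y n (f i) b := by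
  rw [← YL_apply, map_sum, LinearMap.sum_apply]; rfl

theorem Y_sub_right (n : ℤ) (a b b' : V) : Y n a (b - b') = Y n a b - Y n a b' := by
  rw [← YL_apply, map_sub]; rfl

/-- commutation of a mode with the commutator -/
theorem h_K (d : Bool) (p : ℤ) {a b : V} {B : ℕ} (ha : Bdd B a) (hb : Bdd B b) (c : V) (r : ℤ) :
    (fun m => h d p (K a b c r m)) = K a b (h d p c) r +
      (∑ i ∈ Finset.range B, ch p i • fun m => K (h d (i : ℤ) a) b c (r + p - i) ((p - i) + m)) +
      ∑ i ∈ Finset.range B, ch p i • K a (h d (i : ℤ) b) c (r + p - i) := by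
  funext m
  simp only [Pi.add_apply, Finset.sum_apply, Pi.smul_apply, K]
  rw [map_sub, comm_h d p m ha, comm_h d p (r - m) hb, comm_h d p (r - m) hb, comm_h d p m ha]
  simp only [Y_add_right, Y_sum_right, Y_smul_right, smul_sub, Finset.sum_sub_distrib]
  have e1 : ∀ i : ℕ, r + p - (i : ℤ) - (p - i + m) = r - m := by intro i; ring
  have e2 : ∀ i : ℕ, p + m - (i : ℤ) = p - i + m := by intro i; ring
  have e3 : ∀ i : ℕ, r + p - (i : ℤ) - m = p + (r - m) - i := by intro i; ring
  simp only [e1, e2, e3]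
  abel

/-- Locality, in difference form. -/
def Loc (a b : V) (N : ℕ) : Prop := ∀ n, N ≤ n → ∀ (c : V) (r : ℤ), (dl ^ n) (K a b c r) = 0

theorem Loc.mono {a b : V} {N N' : ℕ} (hN : Loc a b N) (hNN : N ≤ N') : Loc a b N' :=
  fun n hn c r => hN n (hNN.trans hn) c r

theorem loc_step {a b : V} {B N : ℕ} (ha : Bdd B a) (hb : Bdd B b)
    (h1 : ∀ (i : ℕ) (d : Bool), i < B → Loc (h d (i : ℤ) a) b N)
    (h2 : ∀ (i : ℕ) (d : Bool), i < B → Loc a (h d (i : ℤ) b) N)
    (h0 : ∀ n, (N : ℤ) ≤ n → Y n a b = 0) : Loc a b N := by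
  intro n hn
  have key : ∀ (d : Bool) (p : ℤ) (c : V) (r : ℤ) (m : ℤ),
      h d p ((dl ^ n) (K a b c r) m) = (dl ^ n) (K a b (h d p c) r) m := by
    intro d p c r m
    rw [← dl_pow_comp, h_K d p ha hb, map_add, map_add, map_sum, map_sum]
    have z1 : ∑ i ∈ Finset.range B, (dl ^ n) (ch p i • fun m => K (h d (i : ℤ) a) b c (r + p - i) ((p - i) + m)) = 0 := by
      apply Finset.sum_eq_zero
      intro i hi
      rw [map_smul]
      have : (dl ^ n) (fun m => K (h d (i : ℤ) a) b c (r + p - i) ((p - i) + m)) = 0 := by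
        funext m
        rw [dl_pow_shift, h1 i d (Finset.mem_range.mp hi) n hn]
        rfl
      rw [this, smul_zero]
    have z2 : ∑ i ∈ Finset.range B, (dl ^ n) (ch p i • K a (h d (i : ℤ) b) c (r + p - i)) = 0 := by
      apply Finset.sum_eq_zero
      intro i hi
      rw [map_smul, h2 i d (Finset.mem_range.mp hi) n hn, smul_zero]
    rw [z1, z2, add_zero, add_zero]
  intro c
  induction c using V_induction with
  | one =>
    intro r
    funext m
    have hz : ∀ (d : Bool) (p : ℤ), 0 < p → h d p ((dl ^ n) (K a b 1 r) m) = 0 := by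
      intro d p hp
      rw [key, h_nonneg_one d p hp.le, K_zero_right, map_zero]; rfl
    rw [eq_vev_of_ann hz, ← dl_pow_comp]
    have e1 : (fun m => vev (K a b 1 r m)) =
        (if 0 ≤ r + 1 then E2 (r + 1) a b else 0) • fun m => ch m (r + 1).toNat := by
      funext m
      rw [vev_K_one, Pi.smul_apply, smul_eq_mul]
      split_ifs <;> ring
    rw [e1, map_smul]
    split_ifs with hr
    · rcases lt_or_ge (r + 1).toNat n with hlt | hge
      · rw [dl_pow_ch n _ hlt]; simp
      · have : E2 (r + 1) a b = 0 := by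
          rw [E2, h0 (r + 1) (by omega), map_zero]
        rw [this]; simp
    · simp
  | add v w hv hw => intro r; rw [K_add_right, map_add, hv, hw, add_zero]
  | smul x v hv => intro r; rw [K_smul_right, map_smul, hv, smul_zero]
  | mul c l v hv =>
    intro r
    funext m
    rw [← h_neg, ← key, hv]
    simp

theorem exists_Loc_aux (d1 : ℕ) : ∀ (a : V), Fil d1 a → ∀ (b : V), ∃ N, Loc a b N := by
  induction d1 with
  | zero =>
    intro a ha b
    obtain ⟨d2, hd2⟩ := exists_Fil b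
    induction d2 generalizing b with
    | zero =>
      obtain ⟨M, hM⟩ := trunc b a
      refine ⟨M.toNat, loc_step (B := 0) (fun i _ d => ha i d) (fun i _ d => hd2 i d) ?_ ?_ ?_⟩
      · intro i d hi; omega
      · intro i d hi; omega
      · intro n hn; exact hM n (by omega)
    | succ d2 ih =>
      obtain ⟨M, hM⟩ := trunc b a
      obtain ⟨B, hB⟩ := exists_Bdd b
      have ha' : Bdd B a := fun i _ d => ha i d
      choose N hN using fun i : ℕ => fun d : Bool => ih (h d (i : ℤ) b) (hd2 i d)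
      obtain ⟨K1, hK1⟩ := (((Finset.range B) ×ˢ (Finset.univ : Finset Bool)).image
        fun x => N x.1 x.2).exists_le
      refine ⟨max M.toNat K1, loc_step ha' hB ?_ ?_ ?_⟩
      · intro i d hi
        rw [ha i d]
        intro n _ c r
        rw [K_zero_left, map_zero]
      · intro i d hi
        refine (hN i d).mono ((hK1 _ ?_).trans (le_max_right _ _))
        exact Finset.mem_image_of_mem (fun x : ℕ × Bool => N x.1 x.2)
          (show (i, d) ∈ _ from Finset.mem_product.mpr ⟨Finset.mem_range.mpr hi, Finset.mem_univ _⟩)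
      · intro n hn; exact hM n (by have := le_max_left M.toNat K1; omega)
  | succ d1 ih1 =>
    intro a ha b
    obtain ⟨d2, hd2⟩ := exists_Fil b
    induction d2 generalizing b with
    | zero =>
      obtain ⟨M, hM⟩ := trunc b a
      obtain ⟨B, hB⟩ := exists_Bdd a
      have hb' : Bdd B b := fun i _ d => hd2 i d
      choose N hN using fun i : ℕ => fun d : Bool => ih1 (h d (i : ℤ) a) (ha i d) b
      obtain ⟨K1, hK1⟩ := (((Finset.range B) ×ˢ (Finset.univ : Finset Bool)).image
        fun x => N x.1 x.2).exists_le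
      refine ⟨max M.toNat K1, loc_step hB hb' ?_ ?_ ?_⟩
      · intro i d hi
        refine (hN i d).mono ((hK1 _ ?_).trans (le_max_right _ _))
        exact Finset.mem_image_of_mem (fun x : ℕ × Bool => N x.1 x.2)
          (show (i, d) ∈ _ from Finset.mem_product.mpr ⟨Finset.mem_range.mpr hi, Finset.mem_univ _⟩)
      · intro i d hi
        rw [hd2 i d]
        intro n _ c r
        rw [K_zero_mid, map_zero]
      · intro n hn; exact hM n (by have := le_max_left M.toNat K1; omega)
    | succ d2 ih =>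
      obtain ⟨M, hM⟩ := trunc b a
      obtain ⟨B1, hB1⟩ := exists_Bdd a
      obtain ⟨B2, hB2⟩ := exists_Bdd b
      have ha' : Bdd (max B1 B2) a := hB1.mono (le_max_left _ _)
      have hb' : Bdd (max B1 B2) b := hB2.mono (le_max_right _ _)
      choose N hN using fun i : ℕ => fun d : Bool => ih1 (h d (i : ℤ) a) (ha i d) b
      choose N' hN' using fun i : ℕ => fun d : Bool => ih (h d (i : ℤ) b) (hd2 i d)
      obtain ⟨K1, hK1⟩ := (((Finset.range (max B1 B2)) ×ˢ (Finset.univ : Finset Bool)).image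
        fun x => N x.1 x.2).exists_le
      obtain ⟨K2, hK2⟩ := (((Finset.range (max B1 B2)) ×ˢ (Finset.univ : Finset Bool)).image
        fun x => N' x.1 x.2).exists_le
      refine ⟨max M.toNat (max K1 K2), loc_step ha' hb' ?_ ?_ ?_⟩
      · intro i d hi
        refine (hN i d).mono ((hK1 _ ?_).trans (by omega))
        exact Finset.mem_image_of_mem (fun x : ℕ × Bool => N x.1 x.2)
          (show (i, d) ∈ _ from Finset.mem_product.mpr ⟨Finset.mem_range.mpr hi, Finset.mem_univ _⟩)
      · intro i d hi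
        refine (hN' i d).mono ((hK2 _ ?_).trans (by omega))
        exact Finset.mem_image_of_mem (fun x : ℕ × Bool => N' x.1 x.2)
          (show (i, d) ∈ _ from Finset.mem_product.mpr ⟨Finset.mem_range.mpr hi, Finset.mem_univ _⟩)
      · intro n hn; exact hM n (by omega)

/-- Locality of all pairs of vertex operators. -/
theorem exists_Loc (a b : V) : ∃ N, Loc a b N := by
  obtain ⟨d, hd⟩ := exists_Fil a
  exact exists_Loc_aux d a hd b

end Pool.Agent.H75
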