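import Pool.Agent.H75.Basic

set_option autoImplicit false

namespace Pool.Agent.H75

open MvPolynomial

open scoped IsMulCommutative in
/-- Universal property of polynomial rings for commuting elements of a noncommutative algebra. -/
theorem exists_algHom {A : Type*} [Ring A] [Algebra ℚ A] {σ : Type*} (R : σ → A)
    (hc : ∀ i j, R i * R j = R j * R i) :
    ∃ Φ : MvPolynomial σ ℚ →ₐ[ℚ] A, ∀ i, Φ (X i) = R i := by
  have : IsMulCommutative (Algebra.adjoin ℚ (Set.range R)) :=
    Algebra.isMulCommutative_adjoin ℚ (by rintro _ ⟨i, rfl⟩ _ ⟨j, rfl⟩; exact hc i j)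
  refine ⟨(Algebra.adjoin ℚ (Set.range R)).val.comp
    (aeval (fun i => (⟨R i, Algebra.subset_adjoin ⟨i, rfl⟩⟩ : Algebra.adjoin ℚ (Set.range R)))), ?_⟩
  intro i
  simp

/-- Divided powers of the translation operator. -/
noncomputable def Td (s : ℕ) : V →ₗ[ℚ] V := ((s.factorial : ℚ)⁻¹) • ((T : V →ₗ[ℚ] V) ^ s)

theorem Td_zero (v : V) : Td 0 v = v := by simp [Td]

theorem Td_succ (s : ℕ) (v : V) : ((s : ℚ) + 1) • Td (s + 1) v = T (Td s v) := by
  have h1 : ((s : ℚ) + 1) ≠ 0 := by positivity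
  have h2 : ((s.factorial : ℕ) : ℚ) ≠ 0 := by positivity
  simp only [Td, LinearMap.smul_apply, pow_succ', Module.End.mul_apply, smul_smul,
    Derivation.coeFn_coe, Derivation.map_smul]
  congr 1
  rw [Nat.factorial_succ]; push_cast; field_simp

theorem T_Td_comm (s : ℕ) (v : V) : T (Td s v) = Td s (T v) := by
  induction s with
  | zero => simp [Td_zero]
  | succ s ih =>
    have h1 : ((s : ℚ) + 1) ≠ 0 := by positivity
    have h3 : ((s : ℚ) + 1) • T (Td (s + 1) v) = ((s : ℚ) + 1) • Td (s + 1) (T v) := by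
      rw [← Derivation.map_smul, Td_succ, Td_succ, ih]
    exact smul_right_injective _ h1 h3

theorem Td_succ' (s : ℕ) (v : V) : ((s : ℚ) + 1) • Td (s + 1) v = Td s (T v) := by
  rw [Td_succ, T_Td_comm]

theorem Td_one (s : ℕ) (hs : 0 < s) : Td s (1 : V) = 0 := by
  obtain ⟨s, rfl⟩ := Nat.exists_eq_succ_of_ne_zero hs.ne'
  have h1 : ((s : ℚ) + 1) ≠ 0 := by positivity
  have h3 : ((s : ℚ) + 1) • Td (s + 1) (1 : V) = 0 := by rw [Td_succ', T_one, map_zero]
  exact (smul_eq_zero.mp h3).resolve_left h1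

/-- The space of families of modes. -/
abbrev HH := V →ₗ[ℚ] (ℤ → V)

theorem HH_ext {F F' : HH} (hF : ∀ (a : V) (n : ℤ), F a n = F' a n) : F = F' :=
  LinearMap.ext fun a => funext fun n => hF a n

/-- The annihilation part of the recursion. -/
noncomputable def hsumFun (b : Bool) (p : ℤ) (F : HH) (a : V) (n : ℤ) : V :=
  ∑ᶠ i : ℕ, (Ring.choose p i : ℤ) • F (h b (i : ℤ) a) (p + n - i)

theorem hsumFun_eq (b : Bool) (p : ℤ) (F : HH) {a : V} {B : ℕ} (hB : Bdd B a) (n : ℤ) :
    hsumFun b p F a n =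
      ∑ i ∈ Finset.range B, (Ring.choose p i : ℤ) • F (h b (i : ℤ) a) (p + n - i) := by
  apply finsum_eq_finsetSum_of_support_subset
  intro i hi
  rw [Function.mem_support] at hi
  by_contra hcon
  apply hi
  have : B ≤ i := by simpa using hcon
  rw [hB i this b]
  simp

noncomputable def hsum (b : Bool) (p : ℤ) : HH →ₗ[ℚ] HH where
  toFun F :=
    { toFun := fun a n => hsumFun b p F a n
      map_add' := by
        intro a a'
        obtain ⟨B, hB⟩ := exists_Bdd a
        obtain ⟨B', hB'⟩ := exists_Bdd a'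
        have h1 := hB.mono (le_max_left B B')
        have h2 := hB'.mono (le_max_right B B')
        funext n
        rw [Pi.add_apply, hsumFun_eq _ _ _ h1, hsumFun_eq _ _ _ h2, hsumFun_eq _ _ _ (h1.add h2),
          ← Finset.sum_add_distrib]
        apply Finset.sum_congr rfl
        intro i _
        rw [map_add, map_add, Pi.add_apply, smul_add]
      map_smul' := by
        intro r a
        obtain ⟨B, hB⟩ := exists_Bdd a
        funext n
        rw [RingHom.id_apply, Pi.smul_apply, hsumFun_eq _ _ _ hB, hsumFun_eq _ _ _ (hB.smul r),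
          Finset.smul_sum]
        apply Finset.sum_congr rfl
        intro i _
        rw [map_smul, map_smul, Pi.smul_apply, smul_comm] }
  map_add' := by
    intro F F'
    apply HH_ext
    intro a n
    obtain ⟨B, hB⟩ := exists_Bdd a
    simp only [LinearMap.coe_mk, AddHom.coe_mk, LinearMap.add_apply, Pi.add_apply]
    rw [hsumFun_eq _ _ _ hB, hsumFun_eq _ _ _ hB, hsumFun_eq _ _ _ hB, ← Finset.sum_add_distrib]
    apply Finset.sum_congr rfl
    intro i _
    rw [LinearMap.add_apply, Pi.add_apply, smul_add]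
  map_smul' := by
    intro r F
    apply HH_ext
    intro a n
    obtain ⟨B, hB⟩ := exists_Bdd a
    simp only [LinearMap.coe_mk, AddHom.coe_mk, LinearMap.smul_apply, Pi.smul_apply,
      RingHom.id_apply]
    rw [hsumFun_eq _ _ _ hB, hsumFun_eq _ _ _ hB, Finset.smul_sum]
    apply Finset.sum_congr rfl
    intro i _
    rw [LinearMap.smul_apply, Pi.smul_apply, smul_comm]

theorem hsum_apply (b : Bool) (p : ℤ) (F : HH) {a : V} {B : ℕ} (hB : Bdd B a) (n : ℤ) :
    hsum b p F a n =
      ∑ i ∈ Finset.range B, (Ring.choose p i : ℤ) • F (h b (i : ℤ) a) (p + n - i) :=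
  hsumFun_eq b p F hB n

/-- Multiplication by a creation operator, on families of modes. -/
noncomputable def cmul (k : Idx) : HH →ₗ[ℚ] HH where
  toFun F :=
    { toFun := fun a n => X k * F a n
      map_add' := by intro a a'; funext n; simp [mul_add]
      map_smul' := by intro r a; funext n; simp }
  map_add' := by intro F F'; apply HH_ext; intro a n; simp [mul_add]
  map_smul' := by intro r F; apply HH_ext; intro a n; simp

theorem cmul_apply (k : Idx) (F : HH) (a : V) (n : ℤ) : cmul k F a n = X k * F a n := rfl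

/-- The operator by which the creation operator `X k` acts in the recursion. -/
noncomputable def Rop (k : Idx) : Module.End ℚ HH := cmul k - hsum k.1 (-(k.2 + 1 : ℤ))

theorem Rop_apply (k : Idx) (F : HH) {a : V} {B : ℕ} (hB : Bdd B a) (n : ℤ) :
    Rop k F a n = X k * F a n -
      ∑ i ∈ Finset.range B, (Ring.choose (-(k.2 + 1 : ℤ)) i : ℤ) •
        F (h k.1 (i : ℤ) a) (-(k.2 + 1 : ℤ) + n - i) := by
  rw [Rop, LinearMap.sub_apply, LinearMap.sub_apply, Pi.sub_apply, cmul_apply, hsum_apply _ _ _ hB]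

theorem h_nat_comm (b c : Bool) (i j : ℕ) (v : V) :
    h b (i : ℤ) (h c (j : ℤ) v) = h c (j : ℤ) (h b (i : ℤ) v) := by
  rw [h_nat, h_nat, an_comm]

theorem Rop_comm (k m : Idx) : Rop k * Rop m = Rop m * Rop k := by
  apply LinearMap.ext
  intro F
  apply HH_ext
  intro a n
  obtain ⟨B, hB⟩ := exists_Bdd a
  simp only [Module.End.mul_apply]
  rw [Rop_apply k _ hB, Rop_apply m _ hB, Rop_apply m _ hB, Rop_apply k _ hB]
  have e1 : ∀ (k m : Idx), (∑ i ∈ Finset.range B, (Ring.choose (-(k.2 + 1 : ℤ)) i : ℤ) •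
        Rop m F (h k.1 (i : ℤ) a) (-(k.2 + 1 : ℤ) + n - i)) =
      X m * (∑ i ∈ Finset.range B, (Ring.choose (-(k.2 + 1 : ℤ)) i : ℤ) •
        F (h k.1 (i : ℤ) a) (-(k.2 + 1 : ℤ) + n - i)) -
      ∑ i ∈ Finset.range B, ∑ j ∈ Finset.range B, (Ring.choose (-(k.2 + 1 : ℤ)) i : ℤ) •
        (Ring.choose (-(m.2 + 1 : ℤ)) j : ℤ) • F (h m.1 (j : ℤ) (h k.1 (i : ℤ) a))
          (-(m.2 + 1 : ℤ) + (-(k.2 + 1 : ℤ) + n - i) - j) := by
    intro k m
    rw [Finset.mul_sum, ← Finset.sum_sub_distrib]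
    apply Finset.sum_congr rfl
    intro i _
    rw [Rop_apply m F (hB.hmode _ i), smul_sub, Finset.smul_sum, mul_smul_comm]
  rw [e1 k m, e1 m k]
  have e2 : (∑ i ∈ Finset.range B, ∑ j ∈ Finset.range B, (Ring.choose (-(k.2 + 1 : ℤ)) i : ℤ) •
        (Ring.choose (-(m.2 + 1 : ℤ)) j : ℤ) • F (h m.1 (j : ℤ) (h k.1 (i : ℤ) a))
          (-(m.2 + 1 : ℤ) + (-(k.2 + 1 : ℤ) + n - i) - j)) =
      ∑ i ∈ Finset.range B, ∑ j ∈ Finset.range B, (Ring.choose (-(m.2 + 1 : ℤ)) i : ℤ) •
        (Ring.choose (-(k.2 + 1 : ℤ)) j : ℤ) • F (h k.1 (j : ℤ) (h m.1 (i : ℤ) a))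
          (-(k.2 + 1 : ℤ) + (-(m.2 + 1 : ℤ) + n - i) - j) := by
    rw [Finset.sum_comm]
    apply Finset.sum_congr rfl
    intro i _
    apply Finset.sum_congr rfl
    intro j _
    rw [smul_comm, h_nat_comm]
    congr 3
    ring_nf
  rw [e2]
  have e3 : X k * (X m * F a n) = X m * (X k * F a n) := by ring
  rw [mul_sub, mul_sub, e3]
  abel

/-- The base of the recursion. -/
noncomputable def F1 : HH where
  toFun a n := if n < 0 then Td (-n - 1).toNat a else 0
  map_add' := by
    intro a a'; funext n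
    simp only [Pi.add_apply]
    split_ifs <;> simp
  map_smul' := by
    intro r a; funext n
    simp only [Pi.smul_apply, RingHom.id_apply]
    split_ifs <;> simp

theorem F1_apply (a : V) (n : ℤ) : F1 a n = if n < 0 then Td (-n - 1).toNat a else 0 := rfl

noncomputable def Phi : V →ₐ[ℚ] Module.End ℚ HH := Classical.choose (exists_algHom Rop Rop_comm)

theorem Phi_X (k : Idx) : Phi (X k) = Rop k := Classical.choose_spec (exists_algHom Rop Rop_comm) k

/-- The `n`-th product `a_n b`. -/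
noncomputable def Y (n : ℤ) (a b : V) : V := Phi b F1 a n

theorem Y_add_left (n : ℤ) (a a' b : V) : Y n (a + a') b = Y n a b + Y n a' b := by
  simp [Y]

theorem Y_smul_left (n : ℤ) (r : ℚ) (a b : V) : Y n (r • a) b = r • Y n a b := by
  simp [Y]

theorem Y_add_right (n : ℤ) (a b b' : V) : Y n a (b + b') = Y n a b + Y n a b' := by
  simp [Y]

theorem Y_smul_right (n : ℤ) (r : ℚ) (a b : V) : Y n a (r • b) = r • Y n a b := by
  simp [Y]

/-- The products as bilinear maps. -/
noncomputable def YL (n : ℤ) : V →ₗ[ℚ] V →ₗ[ℚ] V :=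
  LinearMap.mk₂ ℚ (Y n) (Y_add_left n) (Y_smul_left n) (Y_add_right n) (Y_smul_right n)

theorem YL_apply (n : ℤ) (a b : V) : YL n a b = Y n a b := rfl

theorem Y_one_right (n : ℤ) (a : V) : Y n a 1 = if n < 0 then Td (-n - 1).toNat a else 0 := by
  simp [Y, F1_apply]

theorem Y_X_mul (n : ℤ) {a : V} {B : ℕ} (hB : Bdd B a) (c : Bool) (l : ℕ) (v : V) :
    Y n a (X (c, l) * v) = X (c, l) * Y n a v -
      ∑ i ∈ Finset.range B, (Ring.choose (-(l + 1 : ℤ)) i : ℤ) •
        Y (-(l + 1 : ℤ) + n - i) (h c (i : ℤ) a) v := by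
  rw [Y, map_mul, Phi_X, Module.End.mul_apply, Rop_apply (c, l) _ hB]
  rfl

end Pool.Agent.H75
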