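import Pool.Agent.H75.Comm2

set_option autoImplicit false

namespace Pool.Agent.H75

open MvPolynomial

theorem Td_X (s : ℕ) (b : Bool) (k : ℕ) :
    Td s (X (b, k)) = ((k + s).choose k : ℚ) • (X (b, k + s) : V) := by
  induction s with
  | zero => simp [Td_zero]
  | succ s ih =>
    have h1 : ((s : ℚ) + 1) ≠ 0 := by positivity
    have h3 : ((s : ℚ) + 1) • Td (s + 1) (X (b, k)) =
        ((s : ℚ) + 1) • (((k + (s + 1)).choose k : ℚ) • (X (b, k + (s + 1)) : V)) := by
      rw [Td_succ, ih, Derivation.map_smul, T_X, smul_smul, smul_smul]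
      have e1 : (k + s + 1).choose k * (s + 1) = (k + s).choose k * (k + s + 1) := by
        have := Nat.choose_mul_succ_eq (k + s) k
        rw [show k + s + 1 - k = s + 1 by omega] at this
        exact this.symm
      have e2 : (((k + s + 1).choose k : ℕ) : ℚ) * (s + 1) = ((k + s).choose k : ℕ) * (k + s + 1) := by
        exact_mod_cast e1
      have e3 : k + (s + 1) = k + s + 1 := by ring
      rw [e3]
      congr 1
      push_cast
      linarith
    exact smul_right_injective _ h1 h3

/-- The vertex operator of the generating state `X (b,0)` is the field of the modes `h b n`. -/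
theorem Y_gen (b : Bool) (v : V) : ∀ n : ℤ, Y n (X (b, 0)) v = h b n v := by
  induction v using V_induction with
  | one =>
    intro n
    rcases lt_or_ge n 0 with hn | hn
    · obtain ⟨s, rfl⟩ : ∃ s : ℕ, n = -(s + 1 : ℤ) := ⟨(-n - 1).toNat, by omega⟩
      have e1 : (-(-(s + 1 : ℤ)) - 1).toNat = s := by omega
      rw [Y_one_right, if_pos hn, e1, Td_X, h_neg]
      simp
    · rw [Y_nonneg_one hn, h_nonneg_one b n hn]
  | add v w hv hw => intro n; rw [Y_add_right, hv, hw, map_add]
  | smul r v hv => intro n; rw [Y_smul_right, hv, map_smul]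
  | mul c l v hv =>
    intro n
    have hB : Bdd 2 (X (b, 0) : V) := by
      have := Bdd.one.X_mul b 0
      simpa using this
    rw [Y_X_mul' n hB, hv, ← h_neg c l v, ← h_neg c l (h b n v), h_comm]
    simp only [Finset.sum_range_succ, Finset.sum_range_zero, zero_add, Nat.cast_zero, h_zero,
      LinearMap.zero_apply, Y_zero_left, smul_zero, ch_one_right]
    rw [show ((1 : ℕ) : ℤ) = 1 from rfl, show (1 : ℤ) = ((1 : ℕ) : ℤ) from rfl, h_nat, an_X,
      Y_smul_left, Y_one_left]
    by_cases h1 : b = !c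
    · by_cases h2 : n = (l : ℤ) + 1
      · have h3 : -((l : ℤ) + ((1 : ℕ) : ℤ)) + n - ((1 : ℕ) : ℤ) = -1 := by push_cast; omega
        have h4 : -((l : ℤ) + ((1 : ℕ) : ℤ)) + n = 0 := by push_cast; omega
        rw [if_pos ⟨h1, h4⟩, if_pos ⟨h1, rfl⟩, if_pos h3]
        push_cast
        module
      · have h3 : ¬ (-((l : ℤ) + ((1 : ℕ) : ℤ)) + n - ((1 : ℕ) : ℤ) = -1) := by push_cast; omega
        have h4 : ¬ (-((l : ℤ) + ((1 : ℕ) : ℤ)) + n = 0) := by push_cast; omega
        rw [if_neg (fun hh => h4 hh.2), if_neg h3]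
        simp
    · rw [if_neg (fun hh => h1 hh.1), if_neg (fun hh => h1 hh.1)]
      simp

/-- two point functions -/
noncomputable def E2 (n : ℤ) (a b : V) : ℚ := vev (Y n a b)

theorem vev_Td (s : ℕ) (hs : 0 < s) (a : V) : vev (Td s a) = 0 := by
  obtain ⟨s, rfl⟩ := Nat.exists_eq_succ_of_ne_zero hs.ne'
  have h1 : ((s : ℚ) + 1) ≠ 0 := by positivity
  have h3 : ((s : ℚ) + 1) * vev (Td (s + 1) a) = 0 := by
    rw [← smul_eq_mul, ← map_smul, Td_succ, vev_T]
  exact (mul_eq_zero.mp h3).resolve_left h1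

theorem E2_X_mul (n : ℤ) {a : V} {B : ℕ} (hB : Bdd B a) (c : Bool) (l : ℕ) (v : V) :
    E2 n a (X (c, l) * v) = - ∑ i ∈ Finset.range B, ch (-(l + 1 : ℤ)) i *
        E2 (-(l + 1 : ℤ) + n - i) (h c (i : ℤ) a) v := by
  rw [E2, Y_X_mul' n hB, map_sub, vev_X_mul, zero_sub, map_sum]
  simp only [map_smul, smul_eq_mul, E2]

theorem E2_neg (b : V) : ∀ (n : ℤ), n < 0 → ∀ a : V,
    E2 n a b = if n = -1 then vev a * vev b else 0 := by
  induction b using V_induction with
  | one =>
    intro n hn a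
    rw [E2, Y_one_right, if_pos hn]
    split_ifs with h1
    · subst h1; rw [vev_one, mul_one]
      have : (-(-1 : ℤ) - 1).toNat = 0 := by norm_num
      rw [this, Td_zero]
    · exact vev_Td _ (by omega) a
  | add v w hv hw =>
    intro n hn a
    rw [E2, Y_add_right, map_add, ← E2, ← E2, hv n hn, hw n hn]
    split_ifs <;> simp [mul_add]
  | smul r v hv =>
    intro n hn a
    rw [E2, Y_smul_right, map_smul, ← E2, hv n hn]
    split_ifs
    · rw [map_smul, smul_eq_mul, smul_eq_mul]; ring
    · simp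
  | mul c l v hv =>
    intro n hn a
    obtain ⟨B, hB⟩ := exists_Bdd a
    rw [E2_X_mul n hB, vev_X_mul, mul_zero, ite_self, neg_eq_zero]
    apply Finset.sum_eq_zero
    intro i _
    rw [hv _ (by omega), if_neg (by omega), mul_zero]

theorem E2_one_right (n : ℤ) (a : V) : E2 n a 1 = if n = -1 then vev a else 0 := by
  rcases lt_or_ge n 0 with hn | hn
  · rw [E2_neg 1 n hn, vev_one, mul_one]
  · rw [E2, Y_nonneg_one hn, map_zero, if_neg (by omega)]

theorem E2_one_left (n : ℤ) (a : V) : E2 n 1 a = if n = -1 then vev a else 0 := by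
  rw [E2, Y_one_left]; split_ifs <;> simp

theorem E2_add_left (n : ℤ) (a a' b : V) : E2 n (a + a') b = E2 n a b + E2 n a' b := by
  simp [E2, Y_add_left]

theorem E2_smul_left (n : ℤ) (r : ℚ) (a b : V) : E2 n (r • a) b = r * E2 n a b := by
  simp [E2, Y_smul_left]

theorem E2_add_right (n : ℤ) (a b b' : V) : E2 n a (b + b') = E2 n a b + E2 n a b' := by
  simp [E2, Y_add_right]

theorem E2_smul_right (n : ℤ) (r : ℚ) (a b : V) : E2 n a (r • b) = r * E2 n a b := by
  simp [E2, Y_smul_right]

theorem ch_neg_nat (l j : ℕ) : ch (-(l + 1 : ℤ)) j = (-1) ^ j * ((l + j).choose j : ℚ) := by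
  rw [ch_neg]
  have : ((l : ℤ) + 1 + j - 1) = ((l + j : ℕ) : ℤ) := by push_cast; ring
  rw [this, ch_nat]

theorem E2_X_mul_left (c : Bool) (l : ℕ) (a : V) : ∀ (n : ℤ) (b' : V) (B : ℕ), Bdd B a →
    E2 n (X (c, l) * b') a = (-1) ^ l * ∑ j ∈ Finset.range B, ((l + j).choose j : ℚ) *
      E2 (n - (l + 1) - j) b' (h c (j : ℤ) a) := by
  induction a using V_induction with
  | one =>
    intro n b' B _
    rw [E2_one_right, vev_X_mul, ite_self]
    symm
    apply mul_eq_zero_of_right
    apply Finset.sum_eq_zero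
    intro j _
    rw [h_nonneg_one c j (by positivity), E2, Y_zero_right, map_zero, mul_zero]
  | add v w hv hw =>
    intro n b' B hB
    obtain ⟨B1, hB1⟩ := exists_Bdd v
    obtain ⟨B2, hB2⟩ := exists_Bdd w
    have hC1 : Bdd (max B (max B1 B2)) v := hB1.mono (by omega)
    have hC2 : Bdd (max B (max B1 B2)) w := hB2.mono (by omega)
    have hC : Bdd (max B (max B1 B2)) (v + w) := hB.mono (by omega)
    rw [sum_bound_indep (fun j : ℕ => ((l + j).choose j : ℚ) *
      E2 (n - (l + 1) - j) b' (h c (j : ℤ) (v + w))) (B := B) (B' := max B (max B1 B2))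
      (fun i hi => by rw [hB i hi c, E2, Y_zero_right, map_zero, mul_zero])
      (fun i hi => by rw [hC i hi c, E2, Y_zero_right, map_zero, mul_zero])]
    rw [E2_add_right, hv n b' _ hC1, hw n b' _ hC2, ← mul_add, ← Finset.sum_add_distrib]
    congr 1
    apply Finset.sum_congr rfl
    intro j _
    rw [map_add, E2_add_right, mul_add]
  | smul r v hv =>
    intro n b' B hB
    rcases eq_or_ne r 0 with hr | hr
    · subst hr
      simp [E2, Y_zero_right]
    have hB' : Bdd B v := by
      have := hB.smul r⁻¹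
      rwa [smul_smul, inv_mul_cancel₀ hr, one_smul] at this
    rw [E2_smul_right, hv n b' B hB', ← mul_assoc, mul_comm r, mul_assoc, Finset.mul_sum]
    congr 1
    apply Finset.sum_congr rfl
    intro j _
    rw [map_smul, E2_smul_right]; ring
  | mul d k v hv =>
    intro n b' B hB
    obtain ⟨B1, hB1⟩ := exists_Bdd v
    obtain ⟨B2, hB2⟩ := exists_Bdd b'
    obtain ⟨M, hM⟩ : ∃ M, M = max B (max B1 (max B2 (max (l + 2) (k + 2)))) := ⟨_, rfl⟩
    have hv' : Bdd M v := hB1.mono (by omega)
    have hb' : Bdd M b' := hB2.mono (by omega)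
    have hXb : Bdd M (X (c, l) * b') := (hB2.X_mul c l).mono (by omega)
    have hXv : Bdd M (X (d, k) * v) := hB.mono (by omega)
    rw [sum_bound_indep (fun j : ℕ => ((l + j).choose j : ℚ) *
      E2 (n - (l + 1) - j) b' (h c (j : ℤ) (X (d, k) * v))) (B := B) (B' := M)
      (fun i hi => by rw [hB i hi c, E2, Y_zero_right, map_zero, mul_zero])
      (fun i hi => by rw [hXv i hi c, E2, Y_zero_right, map_zero, mul_zero])]
    rw [E2_X_mul n hXb]
    have e1 : ∀ i : ℕ, ch (-(k + 1 : ℤ)) i * E2 (-(k + 1 : ℤ) + n - i) (h d (i : ℤ) (X (c, l) * b')) v =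
        (∑ j ∈ Finset.range M, (-1) ^ l * ch (-(k + 1 : ℤ)) i * ((l + j).choose j : ℚ) *
          E2 (-(k + 1 : ℤ) + n - i - (l + 1) - j) (h d (i : ℤ) b') (h c (j : ℤ) v)) +
        (if c = !d ∧ i = l + 1 then ch (-(k + 1 : ℤ)) i * (i : ℚ) * E2 (-(k + 1 : ℤ) + n - i) b' v else 0) := by
      intro i
      rw [h_nat, an_X_mul, ← h_nat, E2_add_left, E2_smul_left, hv _ _ M hv', mul_add, Finset.mul_sum,
        Finset.mul_sum]
      congr 1
      · apply Finset.sum_congr rfl
        intro j _
        ring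
      · split_ifs <;> ring
    have e2 : ∀ j : ℕ, ((l + j).choose j : ℚ) * E2 (n - (l + 1) - j) b' (h c (j : ℤ) (X (d, k) * v)) =
        -(∑ i ∈ Finset.range M, ((l + j).choose j : ℚ) * ch (-(k + 1 : ℤ)) i *
          E2 (-(k + 1 : ℤ) + n - i - (l + 1) - j) (h d (i : ℤ) b') (h c (j : ℤ) v)) +
        (if d = !c ∧ j = k + 1 then ((l + j).choose j : ℚ) * (j : ℚ) * E2 (n - (l + 1) - j) b' v else 0) := by
      intro j
      rw [h_nat, an_X_mul, ← h_nat, E2_add_right, E2_smul_right, E2_X_mul _ hb', mul_add]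
      congr 1
      · rw [mul_neg, Finset.mul_sum]
        congr 1
        apply Finset.sum_congr rfl
        intro i _
        rw [mul_assoc]
        congr 3
        ring
      · split_ifs <;> ring
    simp only [e1, e2]
    rw [Finset.sum_add_distrib, Finset.sum_add_distrib, mul_add, Finset.sum_neg_distrib, neg_add]
    congr 1
    · rw [Finset.sum_comm, mul_neg, Finset.mul_sum]
      congr 1
      apply Finset.sum_congr rfl
      intro j _
      rw [Finset.mul_sum]
      apply Finset.sum_congr rfl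
      intro i _
      ring
    · by_cases h1 : c = !d
      · subst h1
        have hl : l + 1 ∈ Finset.range M := Finset.mem_range.mpr (by omega)
        have hk : k + 1 ∈ Finset.range M := Finset.mem_range.mpr (by omega)
        simp only [true_and, Bool.not_not, Finset.sum_ite_eq', hl, hk, if_true]
        rw [ch_neg_nat]
        have e3 : (-(k + 1 : ℤ) + n - ((l + 1 : ℕ) : ℤ)) = n - (l + 1) - ((k + 1 : ℕ) : ℤ) := by
          push_cast; ring
        rw [e3]
        have e4 : ((k + (l + 1)).choose (l + 1)) * (l + 1) = ((l + (k + 1)).choose (k + 1)) * (k + 1) := by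
          have a1 := Nat.add_one_mul_choose_eq (k + l) l
          have a2 := Nat.add_one_mul_choose_eq (l + k) k
          have a3 : (k + l).choose l = (l + k).choose k := by
            rw [Nat.add_comm k l, Nat.choose_symm_add]
          rw [show k + (l + 1) = k + l + 1 by ring, show l + (k + 1) = l + k + 1 by ring, ← a1, ← a2, a3,
            Nat.add_comm k l]
        have e5 : (((k + (l + 1)).choose (l + 1) : ℕ) : ℚ) * (l + 1) = ((l + (k + 1)).choose (k + 1) : ℕ) * (k + 1) := by
          exact_mod_cast e4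
        push_cast
        rw [pow_succ]
        linear_combination ((-1 : ℚ) ^ l * E2 (n - (l + 1) - ((k : ℤ) + 1)) b' v) * e5
      · have h2 : ¬ (d = !c) := fun hh => h1 ((bool_swap d c).mp hh)
        simp [h1, h2]

theorem E2_symm (b : V) : ∀ (n : ℤ) (a : V), E2 n b a = (-1 : ℚ) ^ (n + 1) * E2 n a b := by
  induction b using V_induction with
  | one =>
    intro n a
    rw [E2_one_left, E2_one_right]
    split_ifs with h1
    · subst h1; simp
    · simp
  | add v w hv hw => intro n a; rw [E2_add_left, E2_add_right, hv, hw]; ring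
  | smul r v hv => intro n a; rw [E2_smul_left, E2_smul_right, hv]; ring
  | mul c l v hv =>
    intro n a
    obtain ⟨B, hB⟩ := exists_Bdd a
    rw [E2_X_mul_left c l a n v B hB, E2_X_mul n hB, mul_neg, Finset.mul_sum, Finset.mul_sum,
      ← Finset.sum_neg_distrib]
    apply Finset.sum_congr rfl
    intro j _
    rw [hv, ch_neg_nat]
    have e1 : n - (l + 1) - (j : ℤ) = -(l + 1 : ℤ) + n - j := by ring
    rw [e1]
    have e2 : (-1 : ℚ) ^ (-(l + 1 : ℤ) + n - j + 1) = (-1) ^ (n + 1) * (-1) ^ (l + 1) * (-1) ^ j := by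
      have h0 : (-1 : ℚ) ≠ 0 := by norm_num
      have h1 : (-(l + 1 : ℤ) + n - j + 1) = (n + 1) - ((l + 1 : ℕ) : ℤ) - (j : ℕ) := by push_cast; ring
      rw [h1, zpow_sub₀ h0, zpow_sub₀ h0, zpow_natCast, zpow_natCast]
      have h2 : ∀ m : ℕ, ((-1 : ℚ) ^ m)⁻¹ = (-1) ^ m := by
        intro m
        rw [← inv_pow]; norm_num
      rw [div_eq_mul_inv, div_eq_mul_inv, h2, h2]
    rw [e2]
    have e3 : (-1 : ℚ) ^ l * (-1) ^ l = 1 := by
      rw [← mul_pow]; norm_num
    rw [pow_succ (-1 : ℚ) l]
    linear_combination (-(((l + j).choose j : ℚ)) * (-1) ^ (n + 1) * (-1) ^ j *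
      E2 (-(l + 1 : ℤ) + n - j) (h c (j : ℤ) a) v) * e3

end Pool.Agent.H75
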