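import Pool.Agent.H75.Borch

set_option autoImplicit false

namespace Pool.Agent.H75

open MvPolynomial

/-- The conformal vector `ω = e(-1) f(-1) 1`. -/
noncomputable def om : V := X (false, 0) * X (true, 0)

theorem om_Bdd : Bdd 2 om := by
  have h1 : Bdd 2 (X (true, 0) : V) := by
    have := Bdd.one.X_mul true 0
    simpa using this
  have := h1.X_mul false 0
  simpa [om] using this

theorem h_one_om (b : Bool) : h b (1 : ℤ) om = X (b, 0) := by
  rw [show (1 : ℤ) = ((1 : ℕ) : ℤ) from rfl, h_nat, om, an_X_mul, an_X]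
  cases b <;> simp

/-- Virasoro modes -/
noncomputable def L (n : ℤ) (v : V) : V := Y (n + 1) om v

theorem h_L (b : Bool) (p n : ℤ) (v : V) :
    h b p (L n v) = L n (h b p v) + (p : ℚ) • h b (p + n) v := by
  rw [L, comm_h b p (n + 1) om_Bdd v]
  congr 1
  simp only [Finset.sum_range_succ, Finset.sum_range_zero, zero_add, Nat.cast_zero, h_zero,
    LinearMap.zero_apply, Y_zero_left, smul_zero, ch_one_right, Nat.cast_one, h_one_om, Y_gen]
  congr 3
  ring

theorem L_h (b : Bool) (p n : ℤ) (v : V) :
    L n (h b p v) = h b p (L n v) - (p : ℚ) • h b (p + n) v := by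
  rw [h_L]; abel

theorem L_add (n : ℤ) (v w : V) : L n (v + w) = L n v + L n w := Y_add_right _ _ _ _
theorem L_smul (n : ℤ) (r : ℚ) (v : V) : L n (r • v) = r • L n v := Y_smul_right _ _ _ _
theorem L_zero_right (n : ℤ) : L n 0 = 0 := Y_zero_right _ _

theorem L_X_mul (n : ℤ) (c : Bool) (l : ℕ) (v : V) :
    L n (X (c, l) * v) = X (c, l) * L n v + ((l : ℚ) + 1) • h c (n - (l + 1)) v := by
  rw [← h_neg, L_h, h_neg, sub_eq_add_neg, ← neg_smul]
  congr 2
  · push_cast; ring
  · congr 1; ring

theorem L_one (n : ℤ) (hn : -1 ≤ n) : L n 1 = 0 := Y_nonneg_one (by omega) _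

theorem L_neg_one (v : V) : L (-1) v = T v := by
  induction v using V_induction with
  | one => rw [L_one _ le_rfl, T_one]
  | add v w hv hw => rw [L_add, hv, hw, map_add]
  | smul r v hv => rw [L_smul, hv, Derivation.map_smul]
  | mul c l v hv =>
    rw [L_X_mul, hv, T_X_mul]
    have : (-1 - (l + 1 : ℤ)) = -(((l + 1 : ℕ) : ℤ) + 1) := by push_cast; ring
    rw [this, h_neg]
    push_cast
    rw [add_comm]

theorem om_vev : vev om = 0 := vev_X_mul _ _ _

theorem E2_om_om (D : ℤ) : E2 D om om = if D = 3 then 1 else 0 := by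
  have h1 : E2 D om om = E2 (D - 2) (X (false, 0)) (X (true, 0)) := by
    conv_lhs => rw [show E2 D om om = E2 D om (X (false, 0) * X (true, 0)) from rfl]
    rw [E2_X_mul D om_Bdd]
    simp only [Finset.sum_range_succ, Finset.sum_range_zero, zero_add, Nat.cast_zero, h_zero,
      LinearMap.zero_apply, ch_one_right, Nat.cast_one, h_one_om]
    have : E2 (-1 + D - 0) 0 (X (true, 0)) = 0 := by simp [E2, Y_zero_left]
    rw [this]
    have e : (-1 + D - 1 : ℤ) = D - 2 := by ring
    rw [e]; push_cast; ring
  rw [h1, E2, Y_gen]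
  rcases lt_or_ge (D - 2) 0 with hD | hD
  · obtain ⟨s, hs⟩ : ∃ s : ℕ, D - 2 = -(s + 1 : ℤ) := ⟨(-(D - 2) - 1).toNat, by omega⟩
    rw [hs, h_neg, vev_X_mul, if_neg (by omega)]
  · obtain ⟨i, hi⟩ : ∃ j : ℕ, D - 2 = (j : ℤ) := ⟨(D - 2).toNat, by omega⟩
    rw [hi, h_nat, an_X, map_smul, vev_one]
    by_cases h3 : D = 3
    · have : i = 1 := by omega
      subst this
      rw [if_pos h3]; simp
    · have : i ≠ 1 := by omega
      rw [if_neg h3]
      simp [this]

theorem L_one_vev (n : ℤ) : vev (L n 1) = 0 := by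
  have : vev (L n 1) = E2 (n + 1) om 1 := rfl
  rw [this, E2_one_right, om_vev, ite_self]

/-- Virasoro relations with central charge 2. -/
theorem virasoro (m n : ℤ) (v : V) : L m (L n v) - L n (L m v) =
    ((m - n : ℤ) : ℚ) • L (m + n) v + (if m + n = 0 then ((m : ℚ) ^ 3 - m) / 12 * 2 else 0) • v := by
  set D : V → V := fun v => L m (L n v) - L n (L m v) - ((m - n : ℤ) : ℚ) • L (m + n) v -
    (if m + n = 0 then ((m : ℚ) ^ 3 - m) / 12 * 2 else 0) • v with hD
  have hcomm : ∀ (b : Bool) (p : ℤ) (v : V), h b p (D v) = D (h b p v) := by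
    intro b p v
    simp only [hD, map_sub, map_smul, h_L, L_add, L_smul]
    have a1 : p + n + m = p + (m + n) := by ring
    have a2 : p + m + n = p + (m + n) := by ring
    rw [a1, a2]
    push_cast
    module
  have hadd : ∀ v w, D (v + w) = D v + D w := by
    intro v w; simp only [hD, L_add, smul_add]; abel
  have hsmul : ∀ (r : ℚ) v, D (r • v) = r • D v := by
    intro r v; simp only [hD, L_smul]; module
  have h0 : D 0 = 0 := by
    have := hsmul 0 0
    simpa using this
  have h1 : D 1 = 0 := by
    have hz : ∀ (b : Bool) (p : ℤ), 0 < p → h b p (D 1) = 0 := by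
      intro b p hp
      rw [hcomm, h_nonneg_one b p hp.le, h0]
    rw [eq_vev_of_ann hz]
    have hv : vev (D 1) = 0 := by
      simp only [hD, map_sub, map_smul, L_one_vev, vev_one, smul_eq_mul, mul_zero, mul_one, sub_zero]
      have hK : vev (L m (L n 1)) - vev (L n (L m 1)) = vev (K om om 1 (m + n + 2) (m + 1)) := by
        rw [K, map_sub]
        have a1 : m + n + 2 - (m + 1) = n + 1 := by ring
        rw [a1]; rfl
      rw [hK, vev_K_one, E2_om_om]
      by_cases hmn : m + n = 0
      · have a2 : m + n + 2 + 1 = 3 := by omega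
        have a3 : (m + n + 2 + 1).toNat = 3 := by omega
        rw [if_pos hmn, a3, a2, if_pos (by norm_num), if_pos rfl]
        have c1 := ch_succ (m + 1) 2
        have c2 := ch_succ (m + 1) 1
        rw [ch_one_right] at c2
        push_cast at c1 c2
        have c3 : ch (m + 1) 2 = ((m : ℚ) + 1) * m / 2 := by linarith
        norm_num at c1
        rw [c3] at c1
        have c4 : ch (m + 1) 3 = ((m : ℚ) + 1) * m * (m - 1) / 6 := by linarith
        rw [c4]; ring
      · have a2 : ¬ (m + n + 2 + 1 = 3) := by omega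
        rw [if_neg hmn, if_neg a2]; simp
    rw [hv, zero_smul]
  have hall : ∀ v, D v = 0 := by
    intro v
    induction v using V_induction with
    | one => exact h1
    | add v w hv hw => rw [hadd, hv, hw, add_zero]
    | smul r v hv => rw [hsmul, hv, smul_zero]
    | mul c l v hv => rw [← h_neg, ← hcomm, hv, map_zero]
  have := hall v
  simp only [hD] at this
  have h3 := sub_eq_zero.mp this
  rw [← h3]; abel

/-- Euler operator -/
noncomputable def Eu : Derivation ℚ V V :=
  mkDerivation ℚ (fun k : Idx => ((k.2 : ℚ) + 1) • (X k : V))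

theorem Eu_X (k : Idx) : Eu (X k) = ((k.2 : ℚ) + 1) • (X k : V) := by
  simp [Eu, mkDerivation_X]

theorem Eu_X_mul (k : Idx) (v : V) : Eu (X k * v) = X k * Eu v + ((k.2 : ℚ) + 1) • (X k * v) := by
  rw [Derivation.leibniz, Eu_X, smul_eq_mul, smul_eq_mul, mul_smul_comm, mul_comm v]

theorem L_zero (v : V) : L 0 v = Eu v := by
  induction v using V_induction with
  | one => rw [L_one _ (by omega)]; simp
  | add v w hv hw => rw [L_add, hv, hw, map_add]
  | smul r v hv => rw [L_smul, hv, Derivation.map_smul]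
  | mul c l v hv =>
    rw [L_X_mul, hv, Eu_X_mul]
    have : (0 - (l + 1 : ℤ)) = -(l + 1 : ℤ) := by ring
    rw [this, h_neg]

/-- weight of a monomial -/
noncomputable def wt (m : Idx →₀ ℕ) : ℕ := m.sum fun k e => e * (k.2 + 1)

theorem wt_add (m m' : Idx →₀ ℕ) : wt (m + m') = wt m + wt m' :=
  Finsupp.sum_add_index' (fun _ => by simp) (fun _ _ _ => by ring)

theorem wt_single (k : Idx) (e : ℕ) : wt (Finsupp.single k e) = e * (k.2 + 1) := by
  rw [wt, Finsupp.sum_single_index]; simp

theorem coeff_Eu (v : V) (m : Idx →₀ ℕ) : coeff m (Eu v) = (wt m : ℚ) * coeff m v := by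
  have key : ∀ m' : Idx →₀ ℕ, ∀ r : ℚ, Eu (monomial m' r) = (wt m' : ℚ) • monomial m' r := by
    intro m'
    induction m' using Finsupp.induction_linear with
    | zero =>
      intro r
      have : (monomial (0 : Idx →₀ ℕ) r : V) = C r := rfl
      rw [this]
      simp [wt]
    | add f g hf hg =>
      intro r
      have e1 : (monomial (f + g) r : V) = monomial f r * monomial g 1 := by
        rw [monomial_mul, mul_one]
      rw [e1, Derivation.leibniz, hf, hg, wt_add]
      simp only [smul_eq_mul, mul_smul_comm]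
      rw [mul_comm (monomial g 1 : V)]
      push_cast
      module
    | single k e =>
      intro r
      have e1 : (monomial (Finsupp.single k e) r : V) = r • (X k) ^ e := by
        rw [X_pow_eq_monomial, smul_monomial, smul_eq_mul, mul_one]
      rw [e1, Derivation.map_smul, Derivation.leibniz_pow, Eu_X, wt_single]
      rcases e with _ | e
      · simp
      · rw [Nat.add_sub_cancel, smul_eq_mul, mul_smul_comm, ← pow_succ]
        push_cast
        rw [← Nat.cast_smul_eq_nsmul ℚ (e + 1)]
        push_cast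
        module
  induction v using MvPolynomial.induction_on' with
  | monomial u a =>
    rw [key, coeff_smul, coeff_monomial, smul_eq_mul]
    split_ifs with hu
    · rw [hu]
    · simp
  | add p q hp hq => rw [map_add, coeff_add, hp, hq, coeff_add]; ring

/-- `L(n)` as a linear map -/
noncomputable def Llin (n : ℤ) : Module.End ℚ V := YL (n + 1) om

theorem Llin_apply (n : ℤ) (v : V) : Llin n v = L n v := rfl

theorem mem_eig_iff (n : ℤ) (v : V) : v ∈ Module.End.eigenspace (Llin 0) (n : ℚ) ↔
    ∀ m, coeff m v ≠ 0 → (wt m : ℤ) = n := by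
  rw [Module.End.mem_eigenspace_iff, Llin_apply, L_zero]
  constructor
  · intro hv m hm
    have h1 := congrArg (coeff m) hv
    rw [coeff_Eu, coeff_smul, smul_eq_mul] at h1
    have h2 := mul_right_cancel₀ hm h1
    exact_mod_cast h2
  · intro hv
    ext m
    rw [coeff_Eu, coeff_smul, smul_eq_mul]
    by_cases hm : coeff m v = 0
    · rw [hm]; simp
    · have := hv m hm
      rw [← this]; simp

theorem monomial_mem_eig (m : Idx →₀ ℕ) (r : ℚ) :
    (monomial m r : V) ∈ Module.End.eigenspace (Llin 0) ((wt m : ℤ) : ℚ) := by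
  rw [mem_eig_iff]
  intro m' hm'
  rw [coeff_monomial] at hm'
  split_ifs at hm' with hh
  · rw [hh]
  · exact absurd rfl hm'

theorem grading_internal :
    DirectSum.IsInternal (fun n : ℤ => Module.End.eigenspace (Llin 0) (n : ℚ)) := by
  rw [DirectSum.isInternal_submodule_iff_iSupIndep_and_iSup_eq_top]
  constructor
  · exact (Module.End.eigenspaces_iSupIndep (Llin 0)).comp Int.cast_injective
  · rw [eq_top_iff]
    intro v _
    rw [← MvPolynomial.support_sum_monomial_coeff v]
    apply Submodule.sum_mem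
    intro m _
    exact Submodule.mem_iSup_of_mem ((wt m : ℤ)) (monomial_mem_eig m _)

theorem eig_neg (n : ℤ) (hn : n < 0) : Module.End.eigenspace (Llin 0) (n : ℚ) = ⊥ := by
  rw [eq_bot_iff]
  intro v hv
  rw [mem_eig_iff] at hv
  rw [Submodule.mem_bot]
  ext m
  rw [coeff_zero]
  by_contra hm
  have := hv m hm
  omega

theorem wt_ge (m : Idx →₀ ℕ) (k : Idx) : m k * (k.2 + 1) ≤ wt m := by
  by_cases hk : k ∈ m.support
  · exact Finset.single_le_sum (f := fun k => m k * (k.2 + 1)) (fun _ _ => Nat.zero_le _) hk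
  · rw [Finsupp.notMem_support_iff] at hk
    rw [hk]; simp

theorem finite_wt (n : ℕ) : Set.Finite {m : Idx →₀ ℕ | wt m = n} := by
  classical
  apply Set.Finite.subset (Set.finite_Iic (∑ k ∈ (Finset.univ : Finset Bool) ×ˢ Finset.range n, Finsupp.single k n))
  intro m hm
  rw [Set.mem_setOf_eq] at hm
  rw [Set.mem_Iic]
  intro k
  have h1 := wt_ge m k
  rw [hm] at h1
  rw [Finsupp.finset_sum_apply]
  by_cases hk : m k = 0
  · rw [hk]; exact Nat.zero_le _
  · have hk1 : 1 ≤ m k := Nat.one_le_iff_ne_zero.mpr hk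
    have h2 : k.2 + 1 ≤ n := by nlinarith
    have h3 : m k ≤ n := by nlinarith
    have h4 : k ∈ (Finset.univ : Finset Bool) ×ˢ Finset.range n :=
      Finset.mem_product.mpr ⟨Finset.mem_univ _, Finset.mem_range.mpr (by omega)⟩
    calc m k ≤ n := h3
      _ = (Finsupp.single k n) k := by simp
      _ ≤ _ := Finset.single_le_sum (f := fun x => (Finsupp.single x n) k) (fun _ _ => Nat.zero_le _) h4

theorem eig_finite (n : ℤ) : FiniteDimensional ℚ (Module.End.eigenspace (Llin 0) (n : ℚ)) := by
  rcases lt_or_ge n 0 with hn | hn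
  · rw [eig_neg n hn]; infer_instance
  · obtain ⟨k, rfl⟩ : ∃ j : ℕ, n = (j : ℤ) := ⟨n.toNat, by omega⟩
    have hfin := finite_wt k
    have : FiniteDimensional ℚ (Submodule.span ℚ ((fun m => (monomial m (1 : ℚ) : V)) '' {m | wt m = k})) :=
      FiniteDimensional.span_of_finite ℚ (hfin.image _)
    apply Submodule.finiteDimensional_of_le (S₂ := Submodule.span ℚ ((fun m => (monomial m (1 : ℚ) : V)) '' {m | wt m = k}))
    intro v hv
    rw [mem_eig_iff] at hv
    rw [← MvPolynomial.support_sum_monomial_coeff v]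
    apply Submodule.sum_mem
    intro m hm
    have h1 : (monomial m (coeff m v) : V) = coeff m v • monomial m 1 := by
      rw [smul_monomial, smul_eq_mul, mul_one]
    rw [h1]
    apply Submodule.smul_mem
    apply Submodule.subset_span
    refine ⟨m, ?_, rfl⟩
    have := hv m (by simpa [mem_support_iff] using hm)
    rw [Set.mem_setOf_eq]
    exact_mod_cast this

theorem eig_zero : Module.End.eigenspace (Llin 0) ((0 : ℤ) : ℚ) = Submodule.span ℚ {(1 : V)} := by
  apply le_antisymm
  · intro v hv
    rw [mem_eig_iff] at hv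
    rw [Submodule.mem_span_singleton]
    refine ⟨coeff 0 v, ?_⟩
    ext m
    rw [coeff_smul, coeff_one, smul_eq_mul]
    split_ifs with hm
    · rw [← hm]; ring
    · by_contra hcon
      rw [mul_zero] at hcon
      have h1 := hv m (fun hh => hcon hh.symm)
      obtain ⟨i, hi⟩ : ∃ i, m i ≠ 0 := by
        by_contra hc
        push Not at hc
        exact hm (Finsupp.ext hc).symm
      have h2 := wt_ge m i
      have h3 : 0 < m i * (i.2 + 1) := Nat.mul_pos (Nat.pos_of_ne_zero hi) (Nat.succ_pos _)
      omega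
  · rw [Submodule.span_le, Set.singleton_subset_iff]
    have := monomial_mem_eig 0 1
    simpa [wt] using this

end Pool.Agent.H75
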